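import Pool.Agent.R937.TZ.IndA

/-!
# The relations between the averages of sign functions with stabilizers of index at most six: the
induction
-/

set_option autoImplicit false
set_option linter.unusedSectionVars false
set_option linter.unusedVariables false

namespace Pool.Agent.R937.TZ

open Pool.Agent.W495.TA (IsSign)
open Pool.Agent.Y137.SF (rst mem_rst)
open Pool.Agent.R937.HZ
open Pool.Agent.R937.CS (av nD nD_pos av_left)

noncomputable section

variable {G M : Type} [Group G] [Fintype G] [AddCommGroup M] {c : G} {E : Subgroup G}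
  {D : (G → ℤ) → M}

/-- Extreme averages. -/
theorem eq_of_av {f : G → ℤ} (hf : IsSign c f) (g : G) {e : ℤ} (he : e = 1 ∨ e = -1)
    (h : av E f g = e * nD E) : f g = e := by
  classical
  by_contra hne
  have h1 : e * f g = -1 := by
    rcases hf.sign g with h2 | h2 <;> rcases he with h3 | h3 <;> rw [h2, h3] at hne ⊢ <;>
      first | exact absurd rfl hne | norm_num
  have h2 : e * av E f g < nD E := by
    unfold av nD
    rw [Finset.mul_sum]
    refine Finset.sum_lt_sum (fun d _ => ?_) ⟨1, Finset.mem_univ _, ?_⟩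
    · by_cases hd : d ∈ E
      · rw [if_pos hd, if_pos hd]
        rcases hf.sign (d * g) with h2 | h2 <;> rcases he with h3 | h3 <;> rw [h2, h3] <;> norm_num
      · rw [if_neg hd, if_neg hd, mul_zero]
    · rw [if_pos E.one_mem, if_pos E.one_mem, one_mul, h1]
      norm_num
  rw [h] at h2
  rcases he with rfl | rfl <;> linarith

theorem not_cl_four (hcomm : ∀ g, c * g = g * c) {f : G → ℤ} (hf : IsSign c f)
    (hi : (rst f).index = 4) : ¬ CL c E f := by
  rintro ⟨K, k, hE, hk, h⟩
  have hpos := nD_pos E
  have h3 : k = 3 ∨ k = -3 := by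
    have h1 := h 1
    rcases Pool.Agent.R937.CS.av_values E c hcomm hf hi.le 1 with h2 | h2 | h2 <;>
      rcases chi_sign K.1 1 with h4 | h4 <;> rcases hk with rfl | rfl | rfl | rfl <;>
      rw [h2, h4] at h1 <;> omega
  obtain ⟨e, he, hke⟩ : ∃ e : ℤ, (e = 1 ∨ e = -1) ∧ k = 3 * e := by
    rcases h3 with rfl | rfl
    · exact ⟨1, Or.inl rfl, rfl⟩
    · exact ⟨-1, Or.inr rfl, rfl⟩
  have h4 : ∀ g, f g = e * chi K.1 g := by
    intro g
    refine eq_of_av (E := E) hf g ?_ ?_
    · rcases he with rfl | rfl <;> rcases chi_sign K.1 g with h5 | h5 <;> rw [h5] <;> norm_num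
    · have := h g
      rw [hke] at this
      linarith
  have h5 : K.1 ≤ rst f := fun r hr x => by rw [h4, h4, chi_mul K.2.1, chi_of_mem hr, mul_one]
  have h6 := Subgroup.index_dvd_of_le h5
  rw [hi, K.2.1] at h6
  norm_num at h6

theorem cl_two {f : G → ℤ} (hf : IsSign c f) (hi : (rst f).index = 2)
    (hz : ¬ ∀ g, av E f g = 0) : CL c E f := by
  let K : K2 c := ⟨rst f, hi, c_notMem c hf⟩
  by_cases hE : E ≤ rst f
  · rcases eq_chi hi hf with h | h
    · exact ⟨K, 3, hE, by norm_num, fun g => by
        have h1 : av E f g = av E (chi (rst f)) g := congrArg (fun F => av E F g) h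
        rw [h1, (av_chi hi g).1 hE]⟩
    · exact ⟨K, -3, hE, by norm_num, fun g => by
        have h1 : av E f g = av E (-chi (rst f)) g := congrArg (fun F => av E F g) h
        rw [h1, av_neg, (av_chi hi g).1 hE]
        ring⟩
  · exfalso
    apply hz
    intro g
    rcases eq_chi hi hf with h | h
    · have h1 : av E f g = av E (chi (rst f)) g := congrArg (fun F => av E F g) h
      rw [h1, (av_chi hi g).2 hE]
    · have h1 : av E f g = av E (-chi (rst f)) g := congrArg (fun F => av E F g) h
      rw [h1, av_neg, (av_chi hi g).2 hE, neg_zero]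

theorem CLK.ne {K : K2 c} {k : ℤ} {f : G → ℤ} (h : CLK E K k f) : ¬ ∀ g, av E f g = 0 := by
  intro h0
  have h1 := h.2.2 1
  have h2 := nD_pos E
  rw [h0, chi_of_mem K.1.one_mem] at h1
  rcases h.2.1 with h3 | h3 | h3 | h3 <;> rw [h3] at h1 <;> omega

open Classical in
/-- The averages of the parts. -/
theorem av_split {f : G → ℤ} {N : Subgroup G} {y : K2 c → ℤ}
    (h : ∀ g, 3 * ∑ n : G, (if n ∈ N then f (g * n) else 0) =
      (Nat.card N : ℤ) * ∑ K, y K * chi K.1 g) (g : G) :
    3 * ∑ n : G, (if n ∈ N then av E f (g * n) else 0) =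
      (Nat.card N : ℤ) * (nD E * ∑ K : K2 c, (if E ≤ K.1 then y K else 0) * chi K.1 g) := by
  have h1 : ∑ n : G, (if n ∈ N then av E f (g * n) else 0) =
      ∑ d : G, if d ∈ E then ∑ n : G, (if n ∈ N then f (d * g * n) else 0) else 0 := by
    unfold av
    have e1 : ∀ n : G, (if n ∈ N then ∑ d : G, (if d ∈ E then f (d * (g * n)) else 0) else 0) =
        ∑ d : G, if d ∈ E then (if n ∈ N then f (d * g * n) else 0) else 0 := by
      intro n
      by_cases hn : n ∈ N
      · simp only [if_pos hn, mul_assoc]
      · simp only [if_neg hn, ite_self, Finset.sum_const_zero]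
    rw [Finset.sum_congr rfl fun n _ => e1 n, Finset.sum_comm]
    refine Finset.sum_congr rfl fun d _ => ?_
    by_cases hd : d ∈ E
    · simp only [if_pos hd]
    · simp only [if_neg hd, Finset.sum_const_zero]
  have h2 : 3 * ∑ d : G, (if d ∈ E then ∑ n : G, (if n ∈ N then f (d * g * n) else 0) else 0) =
      (Nat.card N : ℤ) * ∑ K : K2 c, y K * av E (chi K.1) g := by
    rw [Finset.mul_sum]
    have e2 : ∀ d : G, 3 * (if d ∈ E then ∑ n : G, (if n ∈ N then f (d * g * n) else 0) else 0) =
        ∑ K : K2 c, (Nat.card N : ℤ) * (y K * if d ∈ E then chi K.1 (d * g) else 0) := by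
      intro d
      by_cases hd : d ∈ E
      · simp only [if_pos hd]
        rw [h, Finset.mul_sum]
      · simp only [if_neg hd, mul_zero, Finset.sum_const_zero]
    rw [Finset.sum_congr rfl fun d _ => e2 d, Finset.sum_comm, Finset.mul_sum]
    refine Finset.sum_congr rfl fun K _ => ?_
    unfold av
    rw [← Finset.mul_sum, ← Finset.mul_sum]
  rw [h1, h2]
  congr 1
  rw [Finset.mul_sum]
  refine Finset.sum_congr rfl fun K _ => ?_
  by_cases hE : E ≤ K.1
  · rw [(av_chi K.2.1 g).1 hE, if_pos hE]
    ring
  · rw [(av_chi K.2.1 g).2 hE, if_neg hE]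
    ring

variable (hcomm : ∀ g, c * g = g * c) (hc2 : c * c = 1)

include hcomm hc2

/-- **The relations between the averages of sign functions with stabilizers of index at most six
are generated by relations with four terms.** -/
theorem rl_avg (hH : Hyp c E D (Sm c)) : RlA E D (Sm c) := by
  classical
  have key : ∀ n : ℕ, ∀ (ι : Type) [Fintype ι] (m : ι → ℤ) (f : ι → G → ℤ), (∀ i, Sm c (f i)) →
      (∀ i, ¬ ∀ g, av E (f i) g = 0) → (∀ g, ∑ i, m i * av E (f i) g = 0) →
      (Finset.univ.filter fun i => ¬ CL c E (f i)).card = n → ∑ i, m i • D (f i) = 0 := by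
    intro n
    induction n using Nat.strong_induction_on with
    | _ n ih =>
    intro ι _ m f hf hz hr hn
    have hcases : ∀ i, (rst (f i)).index = 2 ∨ (rst (f i)).index = 4 ∨ (rst (f i)).index = 6 :=
      fun i => index_cases c hcomm hc2 (hf i).1 (hf i).2
    by_cases hall : ∀ i, CL c E (f i)
    · exact rl_cl hcomm hc2 hH ι m f (fun i => ⟨hf i, hall i⟩) hr
    -- the member
    obtain ⟨i0, hi0, hi04⟩ : ∃ i0, ¬ CL c E (f i0) ∧ ((rst (f i0)).index = 4 ∨
        ((rst (f i0)).index = 6 ∧ ∀ i, (rst (f i)).index ≠ 4)) := by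
      by_cases h : ∃ i, (rst (f i)).index = 4
      · obtain ⟨i, hi⟩ := h
        exact ⟨i, not_cl_four hcomm (hf i).1 hi, Or.inl hi⟩
      · push Not at h hall
        obtain ⟨i, hi⟩ := hall
        refine ⟨i, hi, Or.inr ⟨?_, h⟩⟩
        have h1 := hcases i
        have h2 := h i
        have h3 : (rst (f i)).index ≠ 2 := fun h3 => hi (cl_two (hf i).1 h3 (hz i))
        tauto
    let N : Subgroup G := (rst (f i0)).normalCore
    let P : ι → Prop := fun i => N ≤ rst (f i)
    have hP0 : P i0 := Subgroup.normalCore_le _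
    have hy : ∀ i, ∃ y : K2 c → ℤ, ¬ P i → (∀ K, ¬ N ≤ K.1 → y K = 0) ∧
        ∀ g, 3 * ∑ n : G, (if n ∈ N then f i (g * n) else 0) =
          (Nat.card N : ℤ) * ∑ K, y K * chi K.1 g := by
      intro i
      by_cases h : P i
      · exact ⟨0, fun h' => absurd h h'⟩
      · obtain ⟨y, h1, h2⟩ := split c hcomm hc2 (f i) (hf i).1 (hf i).2 N h
        exact ⟨y, fun _ => ⟨h1, h2⟩⟩
    choose y hy using hy
    let b : K2 c → ℤ := fun K => if E ≤ K.1 then ∑ i with ¬ P i, m i * y i K else 0
    have hcard : (Nat.card N : ℤ) ≠ 0 := by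
      exact_mod_cast Nat.card_pos.ne'
    have hP1 : ∀ i, P i → ∀ g, ∑ n : G, (if n ∈ N then av E (f i) (g * n) else 0) =
        (Nat.card N : ℤ) * av E (f i) g := by
      intro i hi g
      rw [← Finset.sum_filter, Finset.sum_congr rfl fun n hn =>
        Pool.Agent.R937.CS.av_right E (hi (Finset.mem_filter.1 hn).2) g,
        Finset.sum_const, nsmul_eq_mul]
      congr 2
      rw [Nat.card_eq_fintype_card, ← Fintype.card_subtype]
    have hrel : ∀ g, 3 * ∑ i with P i, m i * av E (f i) g + nD E * ∑ K, b K * chi K.1 g = 0 := by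
      intro g
      have h1 : ∑ i, m i * (3 * ∑ n : G, (if n ∈ N then av E (f i) (g * n) else 0)) = 0 := by
        have h2 : ∀ i, m i * (3 * ∑ n : G, (if n ∈ N then av E (f i) (g * n) else 0)) =
            3 * ∑ n : G, (if n ∈ N then m i * av E (f i) (g * n) else 0) := by
          intro i
          rw [mul_left_comm, Finset.mul_sum]
          congr 1
          refine Finset.sum_congr rfl fun n _ => ?_
          rw [mul_ite, mul_zero]
        rw [Finset.sum_congr rfl fun i _ => h2 i, ← Finset.mul_sum, Finset.sum_comm]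
        have h3 : ∀ n : G, ∑ i, (if n ∈ N then m i * av E (f i) (g * n) else 0) = 0 := by
          intro n
          by_cases hn : n ∈ N
          · simp only [if_pos hn]
            exact hr _
          · simp only [if_neg hn, Finset.sum_const_zero]
        rw [Finset.sum_congr rfl fun n _ => h3 n, Finset.sum_const_zero, mul_zero]
      rw [← Finset.sum_filter_add_sum_filter_not _ P] at h1
      have h2 : ∑ i with P i, m i * (3 * ∑ n : G, (if n ∈ N then av E (f i) (g * n) else 0)) =
          (Nat.card N : ℤ) * (3 * ∑ i with P i, m i * av E (f i) g) := by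
        rw [Finset.mul_sum, Finset.mul_sum]
        refine Finset.sum_congr rfl fun i hi => ?_
        rw [hP1 i (Finset.mem_filter.1 hi).2]
        ring
      have h3 : ∑ i with ¬ P i, m i * (3 * ∑ n : G, (if n ∈ N then av E (f i) (g * n) else 0)) =
          (Nat.card N : ℤ) * (nD E * ∑ K, b K * chi K.1 g) := by
        have h5 : ∀ K : K2 c, b K * chi K.1 g =
            ∑ i with ¬ P i, m i * (if E ≤ K.1 then y i K else 0) * chi K.1 g := by
          intro K
          change (if E ≤ K.1 then ∑ i with ¬ P i, m i * y i K else 0) * chi K.1 g = _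
          rw [← Finset.sum_mul]
          congr 1
          by_cases hE : E ≤ K.1
          · simp only [if_pos hE]
          · simp only [if_neg hE, mul_zero, Finset.sum_const_zero]
        rw [Finset.sum_congr rfl fun K _ => h5 K, Finset.sum_comm, Finset.mul_sum, Finset.mul_sum]
        refine Finset.sum_congr rfl fun i hi => ?_
        rw [av_split (hy i (Finset.mem_filter.1 hi).2).2, mul_left_comm, mul_left_comm (m i),
          Finset.mul_sum]
        congr 2
        exact Finset.sum_congr rfl fun K _ => by rw [mul_assoc]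
      rw [h2, h3, ← mul_add] at h1
      exact (mul_eq_zero.1 h1).resolve_left hcard
    -- the functions for the characters
    obtain ⟨u, β, hu⟩ : ∃ (u : K2 c → G → ℤ) (β : K2 c → ℤ), ∀ K : K2 c, N ≤ K.1 → E ≤ K.1 →
        Sm c (u K) ∧ N ≤ rst (u K) ∧ ((rst (u K)).index = 2 ∨ (rst (u K)).index = 6) ∧
          (∃ k, CLK E K k (u K)) ∧ ∀ g, 3 * (β K * av E (u K) g) = nD E * (b K * chi K.1 g) := by
      have hone : (∀ K, (3 : ℤ) ∣ b K) → ∃ (u : K2 c → G → ℤ) (β : K2 c → ℤ), ∀ K : K2 c,
          N ≤ K.1 → E ≤ K.1 →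
          Sm c (u K) ∧ N ≤ rst (u K) ∧ ((rst (u K)).index = 2 ∨ (rst (u K)).index = 6) ∧
          (∃ k, CLK E K k (u K)) ∧ ∀ g, 3 * (β K * av E (u K) g) = nD E * (b K * chi K.1 g) := by
        intro hb
        choose z hz using hb
        refine ⟨fun K => chi K.1, z, fun K hN hE => ⟨Sm.chi K, ?_, ?_, ⟨3, clk_chi K hE⟩,
          fun g => ?_⟩⟩
        · rw [rst_chi K.2.1]
          exact hN
        · rw [rst_chi K.2.1]
          exact Or.inl K.2.1
        · rw [(av_chi K.2.1 g).1 hE, hz]
          ring
      rcases hi04 with h4 | ⟨h6, h4⟩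
      · refine hone fun K => ?_
        have h1 : ∀ i g, ∃ w : ℤ, P i → av E (f i) g = nD E * w := by
          intro i g
          by_cases hi : P i
          · have h2 : (rst (f i)).index ≤ 4 :=
              index_le_four hcomm hc2 (hf i0).1 h4.le (hf i).1 hi
            rcases Pool.Agent.R937.CS.av_values E c hcomm (hf i).1 h2 g with h3 | h3 | h3
            · exact ⟨0, fun _ => by rw [h3, mul_zero]⟩
            · exact ⟨1, fun _ => by rw [h3, mul_one]⟩
            · exact ⟨-1, fun _ => by rw [h3, mul_neg_one]⟩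
          · exact ⟨0, fun h => absurd h hi⟩
        choose w hw using h1
        refine dvd_of_sum b (fun g => -∑ i with P i, m i * w i g) (fun g => ?_) K
        have h2 : ∑ i with P i, m i * av E (f i) g = nD E * ∑ i with P i, m i * w i g := by
          rw [Finset.mul_sum]
          refine Finset.sum_congr rfl fun i hi => ?_
          rw [hw i g (Finset.mem_filter.1 hi).2]
          ring
        have h3 := hrel g
        rw [h2] at h3
        refine mul_left_cancel₀ (nD_pos E).ne' ?_
        linarith
      · have hV := index_VV c hcomm hc2 _ (c_notMem c (hf i0).1)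
        have hB0 : (VV c hcomm hc2 (rst (f i0))).index = 3 := by omega
        set B0 : Subgroup G := VV c hcomm hc2 (rst (f i0)) with hB0def
        have hmem : ∀ i, P i → B0.normalCore ≤ VV c hcomm hc2 (rst (f i)) := by
          intro i hi
          refine (mem_of_core hcomm hc2 hB0 (hf i).1 hi ?_).2.1
          have h5 := hcases i
          have h7 := h4 i
          tauto
        have hdv : ∀ K, (3 : ℤ) ∣ (B0.normalCore.relIndex E : ℤ) * b K := by
          have h1 : ∀ i g, ∃ w : ℤ, P i →
              av E (f i) g = (Nat.card (B0.normalCore.subgroupOf E) : ℤ) * w := by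
            intro i g
            by_cases hi : P i
            · obtain ⟨w, hw⟩ := dvd_av (E := E) hcomm hc2 (hf i).1 (hmem i hi) g
              exact ⟨w, fun _ => hw⟩
            · exact ⟨0, fun h => absurd h hi⟩
          choose w hw using h1
          refine dvd_of_sum (fun K => (B0.normalCore.relIndex E : ℤ) * b K)
            (fun g => -∑ i with P i, m i * w i g) fun g => ?_
          have h2 : ∑ i with P i, m i * av E (f i) g =
              (Nat.card (B0.normalCore.subgroupOf E) : ℤ) * ∑ i with P i, m i * w i g := by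
            rw [Finset.mul_sum]
            refine Finset.sum_congr rfl fun i hi => ?_
            rw [hw i g (Finset.mem_filter.1 hi).2]
            ring
          have h3 := hrel g
          have h5 : nD E = (Nat.card (B0.normalCore.subgroupOf E) : ℤ) *
              (B0.normalCore.relIndex E : ℤ) := by
            rw [nD_card]
            have h7 := Subgroup.index_mul_card (B0.normalCore.subgroupOf E)
            change B0.normalCore.relIndex E * _ = _ at h7
            rw [mul_comm]
            exact_mod_cast h7.symm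
          rw [h2, h5] at h3
          have h7 : (Nat.card (B0.normalCore.subgroupOf E) : ℤ) ≠ 0 := by
            exact_mod_cast Nat.card_pos.ne'
          have h8 : ∑ K, (B0.normalCore.relIndex E : ℤ) * b K * chi K.1 g =
              (B0.normalCore.relIndex E : ℤ) * ∑ K, b K * chi K.1 g := by
            rw [Finset.mul_sum]
            exact Finset.sum_congr rfl fun K _ => mul_assoc _ _ _
          rw [h8]
          refine mul_left_cancel₀ h7 ?_
          linarith
        by_cases h3 : 3 ∣ B0.normalCore.relIndex E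
        · have hr3 := rel_three hB0 h3
          refine ⟨fun K => sK K.1 B0, b, fun K hN hE => ?_⟩
          obtain ⟨h7, h8⟩ := index_sK hcomm hc2 K hB0
          refine ⟨h7, ?_, h8, ⟨1, hE, by norm_num, fun g => ?_⟩, fun g => ?_⟩
          · exact le_trans (le_inf hN ((Subgroup.normalCore_le _).trans (le_VV c hcomm hc2 _)))
              (le_rst_sK K B0)
          · rw [av_sK K hE hB0 hr3, one_mul]
          · have := av_sK K hE hB0 hr3 g
            linear_combination (b K) * this
        · refine hone fun K => ?_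
          rcases Int.Prime.dvd_mul' Nat.prime_three (hdv K) with h7 | h7
          · exact absurd (by exact_mod_cast h7) h3
          · exact h7
    have hb0 : ∀ K, ¬ (N ≤ K.1 ∧ E ≤ K.1) → b K = 0 := by
      intro K hK
      by_cases hE : E ≤ K.1
      · have hN : ¬ N ≤ K.1 := fun h => hK ⟨h, hE⟩
        change (if E ≤ K.1 then ∑ i with ¬ P i, m i * y i K else 0) = 0
        rw [if_pos hE]
        refine Finset.sum_eq_zero fun i hi => by
          rw [(hy i (Finset.mem_filter.1 hi).2).1 K hN, mul_zero]
      · exact if_neg hE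
    have hus : ∀ g, 3 * ∑ K : {K : K2 c // N ≤ K.1 ∧ E ≤ K.1}, β K.1 * av E (u K.1) g =
        nD E * ∑ K, b K * chi K.1 g := by
      intro g
      have h1 : ∑ K : K2 c, b K * chi K.1 g =
          ∑ K : {K : K2 c // N ≤ K.1 ∧ E ≤ K.1}, b K.1 * chi K.1.1 g := by
        rw [← Finset.sum_subtype (Finset.univ.filter fun K : K2 c => N ≤ K.1 ∧ E ≤ K.1) (by simp)
          fun K => b K * chi K.1 g, Finset.sum_filter]
        refine Finset.sum_congr rfl fun K _ => ?_
        split_ifs with h
        · rfl
        · rw [hb0 K h, zero_mul]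
      rw [h1, Finset.mul_sum, Finset.mul_sum]
      exact Finset.sum_congr rfl fun K _ => (hu K.1 K.2.1 K.2.2).2.2.2.2 g
    have hrel2 : ∀ g, ∑ i with P i, m i * av E (f i) g +
        ∑ K : {K : K2 c // N ≤ K.1 ∧ E ≤ K.1}, β K.1 * av E (u K.1) g = 0 := by
      intro g
      have h1 := hrel g
      rw [← hus, ← mul_add] at h1
      exact (mul_eq_zero.1 h1).resolve_left (by norm_num)
    have hPs : ∀ {α : Type} [AddCommMonoid α] (F : ι → α),
        ∑ i : {i // P i}, F i.1 = ∑ i with P i, F i := fun F =>
      (Finset.sum_subtype (Finset.univ.filter fun i => P i) (by simp) F).symm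
    have hPn : ∀ {α : Type} [AddCommMonoid α] (F : ι → α),
        ∑ i : {i // ¬ P i}, F i.1 = ∑ i with ¬ P i, F i := fun F =>
      (Finset.sum_subtype (Finset.univ.filter fun i => ¬ P i) (by simp) F).symm
    -- the first family
    have hA : ∑ i with P i, m i • D (f i) +
        ∑ K : {K : K2 c // N ≤ K.1 ∧ E ≤ K.1}, β K.1 • D (u K.1) = 0 := by
      have h1 : ∀ Q : (G → ℤ) → Prop, (∀ i, P i → Q (f i)) →
          (∀ K : K2 c, N ≤ K.1 → E ≤ K.1 → Q (u K)) → RlA E D Q → ∑ i with P i, m i • D (f i) +
            ∑ K : {K : K2 c // N ≤ K.1 ∧ E ≤ K.1}, β K.1 • D (u K.1) = 0 := by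
        intro Q hQ1 hQ2 hQ
        have h2 := hQ ({i // P i} ⊕ {K : K2 c // N ≤ K.1 ∧ E ≤ K.1})
          (Sum.elim (fun i => m i.1) fun K => β K.1)
          (Sum.elim (fun i => f i.1) fun K => u K.1) (by
          rintro (i | K)
          · exact hQ1 _ i.2
          · exact hQ2 _ K.2.1 K.2.2) (by
          intro g
          rw [Fintype.sum_sum_type]
          change ∑ i : {i // P i}, m i.1 * av E (f i.1) g +
            ∑ K : {K : K2 c // N ≤ K.1 ∧ E ≤ K.1}, β K.1 * av E (u K.1) g = 0
          rw [hPs fun i => m i * av E (f i) g, hrel2])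
        rw [Fintype.sum_sum_type] at h2
        change ∑ i : {i // P i}, m i.1 • D (f i.1) +
          ∑ K : {K : K2 c // N ≤ K.1 ∧ E ≤ K.1}, β K.1 • D (u K.1) = 0 at h2
        rw [hPs fun i => m i • D (f i)] at h2
        exact h2
      rcases hi04 with h2 | ⟨h2, h3⟩
      · exact h1 _ (fun i hi => ⟨(hf i).1, hi⟩) (fun K hN hE => ⟨(hu K hN hE).1.1,
          (hu K hN hE).2.1⟩) (gam_fourA hcomm hc2 hH (hf i0).1 h2.le)
      · refine h1 _ (fun i hi => ⟨(hf i).1, hi, ?_⟩) (fun K hN hE => ⟨(hu K hN hE).1.1,
          (hu K hN hE).2.1, (hu K hN hE).2.2.1⟩) (gam_sixA hcomm hc2 hH (hf i0).1 h2)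
        have h5 := hcases i
        have h6 := h3 i
        tauto
    -- the second family
    have hB : ∑ i with ¬ P i, m i • D (f i) -
        ∑ K : {K : K2 c // N ≤ K.1 ∧ E ≤ K.1}, β K.1 • D (u K.1) = 0 := by
      have h2 := ih _ ?_ ({i // ¬ P i} ⊕ {K : K2 c // N ≤ K.1 ∧ E ≤ K.1})
        (Sum.elim (fun i => m i.1) fun K => -β K.1)
        (Sum.elim (fun i => f i.1) fun K => u K.1) (by
        rintro (i | K)
        · exact hf _
        · exact (hu K.1 K.2.1 K.2.2).1) (by
        rintro (i | K)
        · exact hz _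
        · obtain ⟨k, hk⟩ := (hu K.1 K.2.1 K.2.2).2.2.2.1
          exact hk.ne) (by
        intro g
        rw [Fintype.sum_sum_type]
        change ∑ i : {i // ¬ P i}, m i.1 * av E (f i.1) g +
          ∑ K : {K : K2 c // N ≤ K.1 ∧ E ≤ K.1}, -β K.1 * av E (u K.1) g = 0
        have h3 := hr g
        rw [← Finset.sum_filter_add_sum_filter_not _ P] at h3
        have h5 := hrel2 g
        have h6 : ∑ K : {K : K2 c // N ≤ K.1 ∧ E ≤ K.1}, -β K.1 * av E (u K.1) g =
            -∑ K : {K : K2 c // N ≤ K.1 ∧ E ≤ K.1}, β K.1 * av E (u K.1) g := by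
          rw [← Finset.sum_neg_distrib]
          exact Finset.sum_congr rfl fun K _ => neg_mul _ _
        rw [hPn fun i => m i * av E (f i) g, h6]
        omega) rfl
      · rw [Fintype.sum_sum_type] at h2
        change ∑ i : {i // ¬ P i}, m i.1 • D (f i.1) +
          ∑ K : {K : K2 c // N ≤ K.1 ∧ E ≤ K.1}, (-β K.1) • D (u K.1) = 0 at h2
        rw [hPn fun i => m i • D (f i)] at h2
        rw [← h2, sub_eq_add_neg, ← Finset.sum_neg_distrib]
        congr 1
        exact Finset.sum_congr rfl fun K _ => (neg_smul _ _).symm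
      · rw [← hn]
        have h3 : i0 ∈ Finset.univ.filter fun i => ¬ CL c E (f i) := by
          rw [Finset.mem_filter]
          exact ⟨Finset.mem_univ _, hi0⟩
        have hcl : ∀ K : {K : K2 c // N ≤ K.1 ∧ E ≤ K.1}, CL c E (u K.1) := fun K =>
          ⟨K.1, (hu K.1 K.2.1 K.2.2).2.2.2.1⟩
        refine lt_of_le_of_lt ?_ (Finset.card_erase_lt_of_mem h3)
        refine Finset.card_le_card_of_injOn (Sum.elim (fun i => i.1) fun _ => i0) ?_ ?_
        · rintro (i | K) hi
          · have h5 := (Finset.mem_filter.1 hi).2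
            rw [Finset.mem_coe, Finset.mem_erase, Finset.mem_filter]
            refine ⟨?_, Finset.mem_univ _, h5⟩
            intro h6
            change i.1 = i0 at h6
            exact i.2 (h6 ▸ hP0)
          · exact absurd (hcl K) (Finset.mem_filter.1 hi).2
        · rintro (i | K) hi (i' | K') hi' h
          · exact congrArg _ (Subtype.ext h)
          · exact absurd (hcl K') (Finset.mem_filter.1 hi').2
          · exact absurd (hcl K) (Finset.mem_filter.1 hi).2
          · exact absurd (hcl K) (Finset.mem_filter.1 hi).2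
    rw [← Finset.sum_filter_add_sum_filter_not _ P]
    have h9 : ∑ i with P i, m i • D (f i) =
        -∑ K : {K : K2 c // N ≤ K.1 ∧ E ≤ K.1}, β K.1 • D (u K.1) :=
      eq_neg_of_add_eq_zero_left hA
    have h10 : ∑ i with ¬ P i, m i • D (f i) =
        ∑ K : {K : K2 c // N ≤ K.1 ∧ E ≤ K.1}, β K.1 • D (u K.1) := sub_eq_zero.1 hB
    rw [h9, h10]
    abel
  intro ι _ m f hf hr
  have h1 := key _ {i // ¬ ∀ g, av E (f i) g = 0} (fun i => m i.1) (fun i => f i.1)
    (fun i => hf _) (fun i => i.2) (fun g => by
      rw [← Finset.sum_subtype (Finset.univ.filter fun i => ¬ ∀ g, av E (f i) g = 0) (by simp)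
        fun i => m i * av E (f i) g, Finset.sum_filter]
      refine Eq.trans (Finset.sum_congr rfl fun i _ => ?_) (hr g)
      by_cases h : ∀ g, av E (f i) g = 0
      · rw [if_neg (not_not.2 h), h g, mul_zero]
      · rw [if_pos h]) rfl
  rw [← Finset.sum_subtype (Finset.univ.filter fun i => ¬ ∀ g, av E (f i) g = 0) (by simp)
    fun i => m i • D (f i), Finset.sum_filter] at h1
  rw [← h1]
  refine Finset.sum_congr rfl fun i _ => ?_
  by_cases h : ∀ g, av E (f i) g = 0
  · rw [if_neg (not_not.2 h), hH.zero _ (hf i) h, smul_zero]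
  · rw [if_pos h]

end

end Pool.Agent.R937.TZ
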