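import Pool.Agent.R937.TZ.Sys
import Pool.Agent.R937.TZ.IndB
import Pool.Agent.R937.HZ.Four
import Pool.Agent.R937.BR.Mono

/-!
# Tate classes on products of abelian varieties of dimension at most three over finite fields
-/

set_option autoImplicit false
set_option linter.unusedSectionVars false
set_option linter.unusedVariables false

namespace Pool.Agent.R937.TZ

open NumberField Pool.Agent.H204R3.CM Pool.Agent.W547.KB Pool.Agent.W547.LD Pool.Agent.W495.TA Module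
  Pool.Agent.W495.TB Pool.Agent.W495.TC Pool.Agent.TH117.F5 Pool.Agent.TH117.BL
  Pool.Agent.W976.TA Pool.Agent.W417.TA Pool.Agent.R937.BR
open Pool.Agent.R937.CS (av nD nD_pos tf_eq_av)
open Pool.Agent.R937.HZ (Sm isHalf_of_sign)
open Pool.Agent.Y137.SF (dl dl_neg dl_zero dcnt_eq_sum sg isSign_sg rst rst_sg mem_rst index_hs_le
  finrank_pairOf)
open Pool.Agent.Y137.TV (lam lam_ne_zero)
open Pool.Agent.W333.TA (monoO_F_pow)
open scoped TensorProduct

noncomputable section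

variable {p : ℕ} [Fact p.Prime] {ν : PadicAlgCl p ≃+* ℂ} {Ω : Type} [Field Ω] [CharZero Ω]
  {L : Type} [Field L] [NumberField L] [IsCMField L] [IsGalois ℚ L] (j : L →+* ℂ) (jO : L →+* Ω)
  {𝒜 : TSys p ν Ω}

theorem prod_zpow_sum {κ : Type} (s : Finset κ) (x : ℝ) (hx : x ≠ 0) (n : κ → ℤ) :
    ∏ k ∈ s, x ^ n k = x ^ ∑ k ∈ s, n k := by
  classical
  induction s using Finset.induction_on with
  | empty => simp
  | insert a s ha ih => rw [Finset.prod_insert ha, Finset.sum_insert ha, zpow_add₀ hx, ih]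

/-- Balanced products of eigenvalues. -/
theorem eig_of_rel {Z : RedAV p ν} (hZ : Big Z.X j) {κ : Type} [Fintype κ]
    (J : κ → Wt Z.X L) (m : ℕ) (hm : 0 < m) (hcard : Fintype.card κ = 2 * m)
    (hsum : ∀ σ, ∑ k, tf p ν j (St j (J k)) σ = 0) :
    ∃ s, 0 < s ∧ (∏ k, (J k).2 (Z.π (J k).1)) ^ s = (p : L) ^ (Z.a * m * s) := by
  classical
  have hval := Pool.Agent.W366.TA.val
  have hru := Pool.Agent.W64.TA.ru
  set lm : κ → L := fun k => (J k).2 (Z.π (J k).1) with hlm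
  have hD : 0 < Nat.card (Dec p ν j) := Nat.card_pos
  set D : ℤ := (Nat.card (Dec p ν j) : ℤ) with hDdef
  have hv : ∀ (k : κ) (σ : L ≃ₐ[ℚ] L), ‖ν.symm (j (σ (lm k)))‖ ^ (2 * D) =
      ‖(p : PadicAlgCl p) ^ Z.a‖ ^ (D + tf p ν j (St j (J k)) σ) := by
    intro k σ
    have h1 := (hval p ν L j (Z.X.factor (J k).1) (hZ (J k).1) Z.a (Z.π (J k).1)).mp
      (Z.frob (J k).1).shimuraTaniyama (σ • (J k).2)
    rw [Pool.Agent.W333.TA.tf_smul] at h1
    exact h1
  have hp0 : ‖(p : PadicAlgCl p) ^ Z.a‖ ≠ 0 := by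
    rw [norm_ne_zero_iff]
    exact pow_ne_zero _ (Nat.cast_ne_zero.mpr (Fact.out : p.Prime).ne_zero)
  have hprod : ∀ σ : L ≃ₐ[ℚ] L, ‖ν.symm (j (σ (∏ k, lm k)))‖ =
      ‖(p : PadicAlgCl p) ^ Z.a‖ ^ m := by
    intro σ
    have h2 : ‖ν.symm (j (σ (∏ k, lm k)))‖ ^ (2 * D) =
        (‖(p : PadicAlgCl p) ^ Z.a‖ ^ m) ^ (2 * D) := by
      have h5 : (‖(p : PadicAlgCl p) ^ Z.a‖ ^ m) ^ (2 * D) =
          ‖(p : PadicAlgCl p) ^ Z.a‖ ^ ((m : ℤ) * (2 * D)) := by
        have e0 : ‖(p : PadicAlgCl p) ^ Z.a‖ ^ m = ‖(p : PadicAlgCl p) ^ Z.a‖ ^ (m : ℤ) :=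
          (zpow_natCast _ m).symm
        rw [e0, ← zpow_mul]
      rw [h5, map_prod, map_prod, map_prod, norm_prod, ← Finset.prod_zpow,
        Finset.prod_congr rfl fun k _ => hv k σ, prod_zpow_sum _ _ hp0, Finset.sum_add_distrib,
        hsum, add_zero, Finset.sum_const, Finset.card_univ, hcard]
      congr 1
      rw [nsmul_eq_mul]
      push_cast
      ring
    have h3 : (2 * D) = ((2 * Nat.card (Dec p ν j) : ℕ) : ℤ) := by
      rw [hDdef]; push_cast; ring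
    rw [h3, zpow_natCast, zpow_natCast] at h2
    exact (pow_left_inj₀ (norm_nonneg _) (pow_nonneg (norm_nonneg _) _) (by omega)).mp h2
  have hw : ∀ (k : κ) (ψ : L →+* ℂ), ‖ψ (lm k)‖ ^ 2 = (p : ℝ) ^ Z.a := fun k ψ =>
    (Z.frob (J k).1).weil (ψ.comp (J k).2)
  have hint : ∀ k : κ, IsIntegral ℤ (lm k) := fun k =>
    (Z.frob (J k).1).integral.map ((J k).2.toIntAlgHom)
  have hpos : 0 < 2 * (Z.a * m) := by
    have := Nat.mul_pos Z.pos hm
    omega
  obtain ⟨n, hn, hn2⟩ := hru p ν L j (∏ k, lm k) ((p : L) ^ (Z.a * m)) (2 * (Z.a * m))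
    (2 * (Z.a * m)) hpos hpos (IsIntegral.prod _ fun k _ => hint k)
    ((IsIntegral.pow (by exact_mod_cast isIntegral_algebraMap (R := ℤ) (x := (p : ℤ)))) _)
    (by
      intro ψ
      rw [map_prod, norm_prod, ← Finset.prod_pow, Finset.prod_congr rfl fun k _ => hw k ψ,
        Finset.prod_const, Finset.card_univ, hcard, ← pow_mul]
      congr 1
      ring)
    (by
      intro ψ
      rw [map_pow, map_natCast, norm_pow, Complex.norm_natCast, ← pow_mul, mul_comm])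
    (by
      intro σ
      rw [hprod σ, map_pow, map_natCast, map_pow, map_natCast, map_pow, map_natCast, norm_pow,
        norm_pow, pow_mul ‖(p : PadicAlgCl p)‖])
  exact ⟨2 * (Z.a * m) * n, Nat.mul_pos hpos hn, hn2.trans (pow_mul _ _ _).symm⟩

variable (𝒜) in
/-- The reductions of the Hodge classes of degree four on products of at most four abelian varieties
of CM type of dimension at most three belong to the system. -/
def FourH : Prop :=
  ∀ Y : RedAV p ν, Nat.card Y.X.I ≤ 4 → (∀ i, finrank ℚ (Y.X.factor i).E ≤ 6) →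
    ∀ f : Y.X.H1 [⋀^Fin 4]→ₗ[ℚ] ℚ, IsHodge Y.X.per f → ∀ g : (TM Ω Y) [⋀^Fin 4]→ₗ[Ω] Ω,
      (∀ v : Fin 4 → Y.X.H1, g (fun k => 1 ⊗ₜ[ℚ] v k) = ((f v : ℚ) : Ω)) → 𝒜.A Y (Fin 4) g

theorem monoO_mem_of_trO {Y : RedAV p ν} {κ : Type} [Fintype κ] [DecidableEq κ]
    (I : κ → Wt Y.X L) (h : ∀ α : L, 𝒜.A Y κ (trO jO α I)) : 𝒜.A Y κ (monoO jO I) := by
  obtain ⟨n, a, b, hab⟩ := exists_dual L
  have h1 : monoO jO I = ∑ i, jO (b i) • trO jO (a i) I := by
    refine ext_tmul fun v => ?_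
    rw [alt_sum_apply, monoO_tmul]
    conv_lhs => rw [hab (mono I v)]
    rw [map_sum]
    refine Finset.sum_congr rfl fun i _ => ?_
    rw [AlternatingMap.smul_apply, trO_tmul, smul_eq_mul, map_mul, map_ratCast, trForm_apply]
  rw [h1]
  exact alg_sum _ _ fun i _ => 𝒜.smul _ _ (h _)

/-- Four half systems. -/
theorem geoT (h4 : FourH 𝒜) (y : Fin 4 → Set (L ≃ₐ[ℚ] L)) (hy : ∀ k, IsHalf (y k))
    (hidx : ∀ k, (stab (y k)).index ≤ 6) (hbal : Balanced y) :
    QT 𝒜 j jO (Fin 4) (fun k => tf p ν j (y k)) := by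
  classical
  obtain ⟨Z, hZ⟩ := Pool.Agent.R937.VS.exists_av (p := p) (ν := ν) j y hy
  obtain ⟨X, a, pos, π, frob⟩ := Z
  have hZ' : X = prodOf j y hy := hZ
  subst hZ'
  let Z : RedAV p ν := ⟨prodOf j y hy, a, pos, π, frob⟩
  let J : Fin 4 → Wt Z.X L := fun k => wt j y hy k 1
  have hbig : Big Z.X j := Pool.Agent.W417.TA.big_prodOf j y hy
  have hinj : Function.Injective J := fun k k' h => wt_fst_eq j y hy h
  have hSt : ∀ k, St j (J k) = y k := fun k => by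
    have h1 : St j (wt j y hy k 1) = tr 1 (y k) := St_wt j y hy k 1
    rw [tr_one] at h1
    exact h1
  have hbal' : Balanced fun k => St j (J k) := by
    have h1 : (fun k => St j (J k)) = y := funext hSt
    rw [h1]
    exact hbal
  have hJ : 𝒜.A Z (Fin 4) (monoO jO J) := by
    refine monoO_mem_of_trO jO J fun α => h4 Z ?_ (fun k => ?_) (trForm α J)
      (isHodge_trForm j J hbal' α) (trO jO α J) fun v => trO_tmul jO α J v
    · change Nat.card (Fin 4) ≤ 4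
      simp
    · change finrank ℚ (pairOf j (y k) (hy k)).E ≤ 6
      rw [finrank_pairOf]
      exact hidx k
  have h3 := @pullS p _ ν Ω _ _ L _ _ _ _ 𝒜 j jO Z hbig _ _ _ J hinj hJ
  have h5 : (fun k => tf p ν j (St j (J k))) = fun k => tf p ν j (y k) := by
    funext k
    rw [hSt k]
  rw [h5] at h3
  exact @h3

/-- The functions of the half systems with stabilizers of index at most six. -/
def RT (p : ℕ) [Fact p.Prime] (ν : PadicAlgCl p ≃+* ℂ) (j : L →+* ℂ) :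
    Set ((L ≃ₐ[ℚ] L) → ℤ) := {t | ∃ f, Sm (cc L) f ∧ t = av (Dec p ν j) f}

theorem tf_sign {f : (L ≃ₐ[ℚ] L) → ℤ} (hf : IsSign (cc L) f) :
    tf p ν j {σ | f σ = 1} = av (Dec p ν j) f := by
  rw [tf_eq_av, Pool.Agent.R937.HZ.sg_of_sign hf]

theorem av_neg' (f : (L ≃ₐ[ℚ] L) → ℤ) : av (Dec p ν j) (-f) = -av (Dec p ν j) f :=
  funext fun x => av_neg _ f x

theorem Q_fourT (h4 : FourH 𝒜) (f : Fin 4 → (L ≃ₐ[ℚ] L) → ℤ) (hf : ∀ k, Sm (cc L) (f k))
    (hsum : ∀ σ, ∑ k, f k σ = 0) :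
    QT 𝒜 j jO (Fin 4) fun k => av (Dec p ν j) (f k) := by
  have h1 : QT 𝒜 j jO (Fin 4) (fun k => tf p ν j {σ | f k σ = 1}) :=
    @geoT p _ ν Ω _ _ L _ _ _ _ j jO 𝒜 h4 (fun k => {σ | f k σ = 1})
      (fun k => isHalf_of_sign (hf k).1) (fun k => by
        rw [← rst_sg, Pool.Agent.R937.HZ.sg_of_sign (hf k).1]
        exact (hf k).2) (fun σ => by
        change ∑ k, sg {σ | f k σ = 1} σ = 0
        rw [Finset.sum_congr rfl fun k _ => by rw [Pool.Agent.R937.HZ.sg_of_sign (hf k).1]]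
        exact hsum σ)
  have h2 : (fun k => tf p ν j {σ | f k σ = 1}) = fun k => av (Dec p ν j) (f k) :=
    funext fun k => tf_sign j (hf k).1
  rw [h2] at h1
  exact @h1

variable (𝒜) in
/-- The subgroup of the counting functions. -/
def NT : AddSubgroup (((L ≃ₐ[ℚ] L) → ℤ) → ℤ) where
  carrier := {d | GenD (QT 𝒜 j jO) (RT p ν j) d}
  zero_mem' := GenD.zero
  add_mem' h h' := h.add h'
  neg_mem' h := h.neg

theorem hypT (h4 : FourH 𝒜) : Hyp (cc L) (Dec p ν j)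
    (fun f => QuotientAddGroup.mk' (NT j jO 𝒜) (dl (av (Dec p ν j) f))) (Sm (cc L)) := by
  classical
  refine ⟨fun f hf => ?_, fun f hf hs => ?_, fun f f' _ _ hff => ?_, fun f hf h0 => ?_⟩
  · rw [av_neg', dl_neg, map_neg]
  · rw [← map_sum, ← dcnt_eq_sum]
    refine (QuotientAddGroup.eq_zero_iff _).2 ?_
    refine GenD.of_good ⟨inferInstance, by simp [Nat.even_iff], fun k => ⟨f k, hf k, rfl⟩, ?_, ?_⟩
    · have h1 := @Q_fourT p _ ν Ω _ _ L _ _ _ _ j jO 𝒜 h4 f hf hs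
      exact @h1
    · have h1 := @Q_fourT p _ ν Ω _ _ L _ _ _ _ j jO 𝒜 h4 (fun k => -f k)
        (fun k => (hf k).neg) (fun σ => by
        rw [Finset.sum_congr rfl fun k _ => Pi.neg_apply (f k) σ, Finset.sum_neg_distrib, hs,
          neg_zero])
      have h2 : (fun k => av (Dec p ν j) (-f k)) = fun k => -av (Dec p ν j) (f k) :=
        funext fun k => av_neg' j (f k)
      rw [h2] at h1
      exact @h1
  · have h1 : av (Dec p ν j) f = av (Dec p ν j) f' := funext hff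
    rw [h1]
  · have h1 : av (Dec p ν j) f = 0 := funext h0
    rw [h1, dl_zero, map_zero]

theorem genD_T (h4 : FourH 𝒜) {κ : Type} [Fintype κ] (f : κ → (L ≃ₐ[ℚ] L) → ℤ)
    (hf : ∀ k, Sm (cc L) (f k)) (hsum : ∀ σ, ∑ k, av (Dec p ν j) (f k) σ = 0) :
    GenD (QT 𝒜 j jO) (RT p ν j) (dcnt fun k => av (Dec p ν j) (f k)) := by
  classical
  have h1 := rl_avg (fun g => cc_comm j g) cc_cc (hypT j jO h4) κ (fun _ => 1) f hf (fun σ => by
    rw [← hsum σ]
    exact Finset.sum_congr rfl fun k _ => one_mul _)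
  have h3 : ∑ k, (1 : ℤ) • (QuotientAddGroup.mk' (NT j jO 𝒜) (dl (av (Dec p ν j) (f k)))) =
      QuotientAddGroup.mk' (NT j jO 𝒜) (dcnt fun k => av (Dec p ν j) (f k)) := by
    rw [dcnt_eq_sum, map_sum]
    exact Finset.sum_congr rfl fun k _ => one_smul _ _
  rw [h3] at h1
  exact (QuotientAddGroup.eq_zero_iff _).1 h1

/-- **Monomials.** -/
theorem mono_memT (h4 : FourH 𝒜) {Y : RedAV p ν} (hY : Big Y.X j)
    (hdim : ∀ i, finrank ℚ (Y.X.factor i).E ≤ 6) {κ : Type} [Fintype κ] [DecidableEq κ]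
    (I : κ → Wt Y.X L) (heven : Even (Fintype.card κ))
    (hrel : ∀ σ, ∑ k, tf p ν j (St j (I k)) σ = 0) : 𝒜.A Y κ (monoO jO I) := by
  classical
  have hhalf : ∀ w : Wt Y.X L, IsHalf (St j w) := fun w => isHalf_St (X := Y.X) j w
  have hYidx : ∀ k, (stab (St j (I k))).index ≤ 6 := fun k =>
    (index_hs_le j (Y.X.factor (I k).1) (hY (I k).1) (I k).2).trans (hdim (I k).1)
  have hf : ∀ k, Sm (cc L) (sg (St j (I k))) := fun k => ⟨isSign_sg (hhalf (I k)), by
    rw [rst_sg]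
    exact hYidx k⟩
  have hgen := genD_T j jO h4 (fun k => sg (St j (I k))) hf fun σ => by
    rw [← hrel σ]
    exact Finset.sum_congr rfl fun k _ => by rw [tf_eq_av]
  have hcan : ∀ g ∈ RT p ν j, PairCancel (L ≃ₐ[ℚ] L) (QT 𝒜 j jO) g := by
    rintro g ⟨f, hf, rfl⟩
    rw [← tf_sign j hf.1]
    exact cancelS 𝒜 j jO _ (isHalf_of_sign hf.1)
  have hSm : QT 𝒜 j jO κ (fun k => av (Dec p ν j) (sg (St j (I k)))) :=
    @of_genD _ _ (RT p ν j) (closedS 𝒜 j jO) hcan κ _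
      (fun k => av (Dec p ν j) (sg (St j (I k)))) (fun k => ⟨_, hf k, rfl⟩)
      (by rw [Nat.card_eq_fintype_card]; exact heven) hgen
  exact @hSm _ _ Y hY I fun k => tf_eq_av ..

omit [IsCMField L] [IsGalois ℚ L] in
/-- **The Tate classes on products of abelian varieties of dimension at most three.** -/
theorem main [IsAlgClosed Ω] (h4 : FourH 𝒜) (Y : RedAV p ν)
    (hY : ∀ i, finrank ℚ (Y.X.factor i).E ≤ 6) (s m : ℕ) (hs : 0 < s)
    (f : (TM Ω Y) [⋀^Fin (2 * m)]→ₗ[Ω] Ω) (hf : IsTateClass Ω Y s m f) :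
    𝒜.A Y (Fin (2 * m)) f := by
  classical
  obtain ⟨L, _, _, _, _, j, hYj, hkp, -, H0, hH0, hDH⟩ := exists_setup (p := p) (ν := ν) 6 Y
    (fun q : Empty => q.elim)
  let jO : L →+* Ω := ((IsAlgClosed.lift : L →ₐ[ℚ] Ω) : L →+* Ω)
  obtain ⟨e, h1, h0⟩ := Pool.Agent.W67.TA.basis p ν Ω L j jO Y hYj
  have : Module.Finite ℚ Y.X.H1 := Module.Finite.pi
  have : Finite (Wt Y.X L) := Module.Finite.finite_basis e
  refine expandS jO Y e h1 h0 (Fin (2 * m)) f fun I hI => ?_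
  have hrel : (∏ k, lam jO (I k)) ^ s * ∏ i ∈ (∅ : Finset Empty), jO ((fun q : Empty => q.elim) i) ^ s =
      (p : Ω) ^ (Y.a * s * m) := by
    rw [Finset.prod_empty, mul_one]
    have h2 := hf fun k => e (I k)
    have h3 : (fun k => (F Ω Y ^ s) (e (I k))) = fun k => (lam jO (I k)) ^ s • e (I k) :=
      funext fun k => F_pow_e jO e h1 h0 (I k) s
    rw [h3, AlternatingMap.map_smul_univ, smul_eq_mul, Finset.prod_pow] at h2
    have h4 := mul_right_cancel₀ hI h2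
    rw [h4, ← pow_mul]
    congr 1
    ring
  obtain ⟨hcard, hsum⟩ := rel_of_tate (K := Empty) j jO hYj I (T := ∅) Y.pos hs rfl
    (b := fun _ => 0) (f := fun _ _ => 0) (y := fun q : Empty => q.elim) (fun i => i.elim) hrel
  refine mono_memT j jO h4 hYj hY I ⟨m, ?_⟩ fun σ => ?_
  · rw [Fintype.card_fin]
    ring
  · have h2 := hsum σ
    rw [Finset.sum_empty, mul_zero, add_zero] at h2
    exact_mod_cast h2

theorem mulFrob_pow {Y : RedAV p ν} (s : ℕ) (w : Y.X.H1) (i : Y.X.I) :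
    (mulFrob Y ^ s) w i = Y.π i ^ s * w i := by
  induction s with
  | zero =>
    rw [pow_zero, pow_zero, one_mul]
    rfl
  | succ s ih =>
    rw [pow_succ', pow_succ', mul_assoc, ← ih]
    rfl

theorem F_pow_tmul {Y : RedAV p ν} (s : ℕ) (w : Y.X.H1) :
    (F Ω Y ^ s) ((1 : Ω) ⊗ₜ[ℚ] w) = (1 : Ω) ⊗ₜ[ℚ] ((mulFrob Y ^ s) w) := by
  induction s with
  | zero =>
    rw [pow_zero, pow_zero]
    rfl
  | succ s ih =>
    rw [pow_succ', pow_succ']
    change F Ω Y ((F Ω Y ^ s) ((1 : Ω) ⊗ₜ[ℚ] w)) = (1 : Ω) ⊗ₜ[ℚ] (mulFrob Y ((mulFrob Y ^ s) w))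
    rw [ih]
    rfl

omit [IsCMField L] [IsGalois ℚ L] in
/-- The reductions of Hodge classes are Tate classes. -/
theorem tate_of_hodge [IsAlgClosed Ω] {Y : RedAV p ν} {κ : Type} [Fintype κ] (m : ℕ) (hm : 0 < m)
    (hcard : Fintype.card κ = 2 * m) (f : Y.X.H1 [⋀^κ]→ₗ[ℚ] ℚ) (hf : IsHodge Y.X.per f)
    (g : (TM Ω Y) [⋀^κ]→ₗ[Ω] Ω)
    (hg : ∀ v : κ → Y.X.H1, g (fun k => 1 ⊗ₜ[ℚ] v k) = ((f v : ℚ) : Ω)) :
    ∃ s, 0 < s ∧ IsTateClass Ω Y s m g := by
  classical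
  obtain ⟨L, _, _, _, _, j, hYj, hkp, -, H0, hH0, hDH⟩ := exists_setup (p := p) (ν := ν) 6 Y
    (fun q : Empty => q.elim)
  let jO : L →+* Ω := ((IsAlgClosed.lift : L →ₐ[ℚ] Ω) : L →+* Ω)
  obtain ⟨c, hc⟩ := form_coeff (E := fun i : Y.X.I => (Y.X.factor i).E) (fun i : Y.X.I => i) j hYj
    f.toMultilinearMap
  have h1 : ∀ I : κ → Wt Y.X L, ∃ s, 0 < s ∧ (c I ≠ 0 →
      (∏ k, (I k).2 (Y.π (I k).1)) ^ s = (p : L) ^ (Y.a * m * s)) := by
    intro I
    by_cases hI : c I = 0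
    · exact ⟨1, one_pos, fun h => absurd hI h⟩
    · have hbal : Balanced (fun k => St j (I k)) := by
        intro σ
        exact balanced_of_hodge (E := fun i : Y.X.I => (Y.X.factor i).E)
          (Φ := fun i : Y.X.I => (Y.X.factor i).Φ) (fun i : Y.X.I => i) j
          (fun i => (Y.X.factor i).isCMType) hYj f hf c hc I hI σ
      obtain ⟨s, hs, hs2⟩ := eig_of_rel j hYj I m hm hcard fun σ => by
        have h2 : ∀ x, ∑ k, sg (St j (I k)) x = 0 := hbal
        have h3 := av_sum (Dec p ν j) Finset.univ (fun _ : κ => (1 : ℤ))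
          (fun k => sg (St j (I k))) σ
        have h4 : (fun g => ∑ k, (1 : ℤ) * sg (St j (I k)) g) = 0 := by
          funext x
          rw [Pi.zero_apply, ← h2 x]
          exact Finset.sum_congr rfl fun k _ => one_mul _
        rw [h4, av_zero] at h3
        rw [h3]
        exact Finset.sum_congr rfl fun k _ => by rw [one_mul, tf_eq_av]
      exact ⟨s, hs, fun _ => hs2⟩
  choose s hs hs2 using h1
  refine ⟨∏ I, s I, Finset.prod_pos fun I _ => hs I, ?_⟩
  set S : ℕ := ∏ I, s I with hS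
  have h2 : ∀ I, c I ≠ 0 → (∏ k, (I k).2 (Y.π (I k).1)) ^ S = (p : L) ^ (Y.a * m * S) := by
    intro I hI
    obtain ⟨t, ht⟩ := Finset.dvd_prod_of_mem s (Finset.mem_univ I)
    rw [hS, ht, pow_mul, hs2 I hI, ← pow_mul]
    congr 1
    ring
  have h3 : g.compLinearMap (F Ω Y ^ S) = (((p : Ω) ^ Y.a) ^ (m * S)) • g := by
    refine ext_tmul fun v => ?_
    rw [AlternatingMap.compLinearMap_apply, AlternatingMap.smul_apply, hg, smul_eq_mul]
    have h5 : (fun k => (F Ω Y ^ S) ((1 : Ω) ⊗ₜ[ℚ] v k)) =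
        fun k => (1 : Ω) ⊗ₜ[ℚ] ((mulFrob Y ^ S) (v k)) := funext fun k => F_pow_tmul S (v k)
    have h6 : g (fun k => (F Ω Y ^ S) ((1 : Ω) ⊗ₜ[ℚ] v k)) =
        ((f (fun k => (mulFrob Y ^ S) (v k)) : ℚ) : Ω) := by
      rw [h5, hg]
    refine h6.trans ?_
    have h7 : ∀ q : ℚ, jO (q : L) = (q : Ω) := fun q => map_ratCast jO q
    have h8 : ((f (fun k => (mulFrob Y ^ S) (v k)) : ℚ) : L) =
        (p : L) ^ (Y.a * m * S) * ((f v : ℚ) : L) := by
      have h9 := hc fun k => (mulFrob Y ^ S) (v k)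
      have h10 := hc v
      refine h9.trans ?_
      have h11 : ((f v : ℚ) : L) = ∑ I : κ → Wt Y.X L, c I * ∏ l, ev (v l) (I l) := h10
      rw [h11, Finset.mul_sum]
      refine Finset.sum_congr rfl fun I _ => ?_
      by_cases hI : c I = 0
      · rw [hI, zero_mul, zero_mul, mul_zero]
      · have h12 : ∏ l, ev ((mulFrob Y ^ S) (v l)) (I l) =
            (p : L) ^ (Y.a * m * S) * ∏ l, ev (v l) (I l) := by
          rw [← h2 I hI, ← Finset.prod_pow, ← Finset.prod_mul_distrib]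
          refine Finset.prod_congr rfl fun l _ => ?_
          change (I l).2 ((mulFrob Y ^ S) (v l) (I l).1) = _
          rw [mulFrob_pow, map_mul, map_pow]
          rfl
        change c I * ∏ l, ev ((mulFrob Y ^ S) (v l)) (I l) = _
        rw [h12]
        ring
    have h9 := congrArg jO h8
    rw [h7, map_mul, h7, map_pow, map_natCast] at h9
    rw [h9, ← pow_mul]
    congr 2
    ring
  intro v
  exact congrArg (fun F' => F' v) h3

variable (𝒜) in
/-- All Tate classes, of all degrees and over all finite extensions, on products of any number of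
abelian varieties of dimension at most three belong to the system. -/
def AllT : Prop :=
  ∀ Y : RedAV p ν, (∀ i, finrank ℚ (Y.X.factor i).E ≤ 6) → ∀ s m : ℕ, 0 < s →
    ∀ f : (TM Ω Y) [⋀^Fin (2 * m)]→ₗ[Ω] Ω, IsTateClass Ω Y s m f → 𝒜.A Y (Fin (2 * m)) f

variable (𝒜) in
/-- The Tate classes of degree four on products of at most four abelian varieties of dimension at
most three belong to the system. -/
def FourT : Prop :=
  ∀ Y : RedAV p ν, Nat.card Y.X.I ≤ 4 → (∀ i, finrank ℚ (Y.X.factor i).E ≤ 6) →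
    ∀ s : ℕ, 0 < s → ∀ f : (TM Ω Y) [⋀^Fin 4]→ₗ[Ω] Ω, IsTateClass Ω Y s 2 f → 𝒜.A Y (Fin 4) f

/-- **The equivalence.** -/
theorem tfae [IsAlgClosed Ω] : List.TFAE [AllT 𝒜, FourT 𝒜, FourH 𝒜] := by
  tfae_have 1 → 2 := fun h Y _ hY s hs f hf => h Y hY s 2 hs f hf
  tfae_have 2 → 3 := fun h Y hc hY f hf g hg => by
    obtain ⟨s, hs, ht⟩ := tate_of_hodge (κ := Fin 4) 2 (by norm_num) (by simp) f hf g hg
    exact h Y hc hY s hs g ht
  tfae_have 3 → 1 := fun h Y hY s m hs f hf => main h Y hY s m hs f hf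
  tfae_finish

end

end Pool.Agent.R937.TZ
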