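import Pool.Agent.R937.HZ.Ind
import Pool.Agent.R937.CS.Grp

/-!
# Relations between the averages of sign functions: functions with a common stabilizer
-/

set_option autoImplicit false
set_option linter.unusedSectionVars false
set_option linter.unusedVariables false

namespace Pool.Agent.R937.TZ

open Pool.Agent.W495.TA (IsSign)
open Pool.Agent.Y137.SF (rst mem_rst)
open Pool.Agent.R937.HZ
open Pool.Agent.R937.CS (av nD nD_pos)

noncomputable section

variable {G M : Type} [Group G] [Fintype G] [AddCommGroup M] {c : G}

section av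

variable (E : Subgroup G)

theorem av_add (f f' : G → ℤ) (x : G) : av E (f + f') x = av E f x + av E f' x := by
  classical
  unfold av
  rw [← Finset.sum_add_distrib]
  refine Finset.sum_congr rfl fun d _ => ?_
  by_cases h : d ∈ E
  · rw [if_pos h, if_pos h, if_pos h, Pi.add_apply]
  · rw [if_neg h, if_neg h, if_neg h, add_zero]

theorem av_smul (m : ℤ) (f : G → ℤ) (x : G) : av E (m • f) x = m * av E f x := by
  classical
  unfold av
  rw [Finset.mul_sum]
  refine Finset.sum_congr rfl fun d _ => ?_
  rw [mul_ite, mul_zero, Pi.smul_apply, smul_eq_mul]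

theorem av_neg (f : G → ℤ) (x : G) : av E (-f) x = -av E f x := by
  have h := av_smul E (-1) f x
  rw [neg_one_smul, neg_one_mul] at h
  exact h

theorem av_sum {ι : Type} (s : Finset ι) (m : ι → ℤ) (f : ι → G → ℤ) (x : G) :
    av E (fun g => ∑ i ∈ s, m i * f i g) x = ∑ i ∈ s, m i * av E (f i) x := by
  classical
  have h1 : av E (fun g => ∑ i ∈ s, m i * f i g) x =
      ∑ d : G, ∑ i ∈ s, m i * (if d ∈ E then f i (d * x) else 0) := by
    unfold av
    refine Finset.sum_congr rfl fun d _ => ?_
    by_cases h : d ∈ E
    · rw [if_pos h]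
      exact Finset.sum_congr rfl fun i _ => by rw [if_pos h]
    · rw [if_neg h]
      symm
      exact Finset.sum_eq_zero fun i _ => by rw [if_neg h, mul_zero]
  rw [h1, Finset.sum_comm]
  refine Finset.sum_congr rfl fun i _ => ?_
  unfold av
  rw [Finset.mul_sum]

theorem av_congr {f f' : G → ℤ} (h : ∀ x, f x = f' x) (x : G) : av E f x = av E f' x := by
  rw [show f = f' from funext h]

theorem av_zero (x : G) : av E 0 x = 0 := by
  classical
  unfold av
  exact Finset.sum_eq_zero fun d _ => by rw [Pi.zero_apply, ite_self]

theorem av_shift (f : G → ℤ) (h x : G) : av E (fun g => f (g * h)) x = av E f (x * h) := by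
  classical
  unfold av
  refine Finset.sum_congr rfl fun d _ => ?_
  beta_reduce
  rw [mul_assoc]

/-- Translations by elements of the subgroup. -/
theorem av_trans (f : G → ℤ) {d : G} (hd : d ∈ E) (x : G) :
    av E (fun g => f (d⁻¹ * g)) x = av E f x := by
  classical
  unfold av
  rw [← Equiv.sum_comp (Equiv.mulLeft d) fun d' => if d' ∈ E then f (d⁻¹ * (d' * x)) else 0]
  refine Finset.sum_congr rfl fun d' _ => ?_
  rw [Equiv.coe_mulLeft, E.mul_mem_cancel_left hd]
  congr 2
  group

end av

/-- The relations between the averages hold for the classes. -/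
def RlA (E : Subgroup G) (D : (G → ℤ) → M) (P : (G → ℤ) → Prop) : Prop :=
  ∀ (ι : Type) [Fintype ι] (m : ι → ℤ) (f : ι → G → ℤ), (∀ i, P (f i)) →
    (∀ g, ∑ i, m i * av E (f i) g = 0) → ∑ i, m i • D (f i) = 0

variable {E : Subgroup G} {D : (G → ℤ) → M}

theorem RlA.mono {P P' : (G → ℤ) → Prop} (h : RlA E D P) (h' : ∀ f, P' f → P f) : RlA E D P' :=
  fun ι _ m f hf hr => h ι m f (fun i => h' _ (hf i)) hr

/-- The hypotheses on the classes. -/
structure Hyp (c : G) (E : Subgroup G) (D : (G → ℤ) → M) (P : (G → ℤ) → Prop) : Prop where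
  neg : ∀ f, P f → D (-f) = -D f
  ex : ∀ f : Fin 4 → G → ℤ, (∀ k, P (f k)) → (∀ x, ∑ k, f k x = 0) → ∑ k, D (f k) = 0
  cg : ∀ f f', P f → P f' → (∀ x, av E f x = av E f' x) → D f = D f'
  zero : ∀ f, P f → (∀ x, av E f x = 0) → D f = 0

theorem Hyp.mono {P P' : (G → ℤ) → Prop} (h : Hyp c E D P) (h' : ∀ f, P' f → P f) :
    Hyp c E D P' :=
  ⟨fun f hf => h.neg f (h' f hf), fun f hf => h.ex f fun k => h' _ (hf k),
    fun f f' hf hf' => h.cg f f' (h' f hf) (h' f' hf'), fun f hf => h.zero f (h' f hf)⟩

theorem Hyp.congr {P : (G → ℤ) → Prop} (h : Hyp c E D P) (hP : ∀ f, P f → P (-f)) {f f' : G → ℤ}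
    (hf : P f) (hf' : P f') (hff : ∀ x, av E f x = av E f' x) : D f = D f' :=
  h.cg f f' hf hf' hff

/-- Relations with exact vanishing. -/
theorem Hyp.exact {P : (G → ℤ) → Prop} (h : Hyp c E D P) (f : Fin 4 → G → ℤ)
    (hf : ∀ k, P (f k)) (hs : ∀ x, ∑ k, f k x = 0) : ∑ k, D (f k) = 0 := h.ex f hf hs

section inv

variable (hcomm : ∀ g, c * g = g * c) (hc2 : c * c = 1) (R : Subgroup G) (hcR : c ∉ R)

open Classical in
/-- The elementary odd functions. -/
def el (c : G) (R : Subgroup G) (a : G) : G → ℤ := fun x =>
  if a⁻¹ * x ∈ R then 1 else if a⁻¹ * (c * x) ∈ R then -1 else 0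

theorem el_right (a x : G) {r : G} (hr : r ∈ R) : el c R a (x * r) = el c R a x := by
  classical
  unfold el
  rw [← mul_assoc, ← mul_assoc c, ← mul_assoc a⁻¹ (c * x), R.mul_mem_cancel_right hr,
    R.mul_mem_cancel_right hr]

include hcomm hc2 hcR

theorem not_both {a x : G} (h : a⁻¹ * x ∈ R) : a⁻¹ * (c * x) ∉ R := by
  intro h'
  have h1 : a⁻¹ * (c * x) = c * (a⁻¹ * x) := by rw [← mul_assoc, ← hcomm, mul_assoc]
  rw [h1] at h'
  exact hcR ((R.mul_mem_cancel_right h).1 h')

theorem el_c (a x : G) : el c R a (c * x) = -el c R a x := by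
  classical
  have h1 : c * (c * x) = x := by rw [← mul_assoc, hc2, one_mul]
  unfold el
  rw [h1]
  by_cases h : a⁻¹ * x ∈ R
  · rw [if_neg (not_both hcomm hc2 R hcR h), if_pos h, if_pos h]
  · by_cases h' : a⁻¹ * (c * x) ∈ R
    · rw [if_pos h', if_neg h, if_pos h']
      norm_num
    · rw [if_neg h', if_neg h, if_neg h, if_neg h', neg_zero]

omit hc2 hcR in
theorem el_trans (a : G) (d x : G) : el c R (d * a) x = el c R a (d⁻¹ * x) := by
  classical
  unfold el
  have h1 : (d * a)⁻¹ * x = a⁻¹ * (d⁻¹ * x) := by group
  have h2 : (d * a)⁻¹ * (c * x) = a⁻¹ * (c * (d⁻¹ * x)) := by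
    rw [← mul_assoc c, hcomm d⁻¹]
    group
  rw [h1, h2]

omit hc2 hcR in
theorem av_el (a : G) {d : G} (hd : d ∈ E) (x : G) : av E (el c R (d * a)) x = av E (el c R a) x := by
  have h1 : el c R (d * a) = fun g => el c R a (d⁻¹ * g) :=
    funext fun g => el_trans hcomm R a d g
  rw [h1, av_trans E _ hd]

/-- Flipping the sign at a coset. -/
theorem flip_mem {s : G → ℤ} (hs : IsSign c s) (hR : R ≤ rst s) (a : G) :
    IsSign c (fun x => s x - 2 * s a * el c R a x) ∧
      R ≤ rst fun x => s x - 2 * s a * el c R a x := by
  classical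
  refine ⟨⟨fun x => ?_, fun x => ?_⟩, fun r hr => ?_⟩
  · change s x - 2 * s a * el c R a x = 1 ∨ s x - 2 * s a * el c R a x = -1
    by_cases h : a⁻¹ * x ∈ R
    · have h1 := hR h a
      rw [mul_inv_cancel_left] at h1
      have h2 : el c R a x = 1 := if_pos h
      rw [h2, h1]
      rcases hs.sign a with h3 | h3 <;> rw [h3] <;> norm_num
    · by_cases h' : a⁻¹ * (c * x) ∈ R
      · have h1 := hR h' a
        rw [mul_inv_cancel_left] at h1
        have h3 : s (c * x) = -s x := hs.odd x
        have h2 : el c R a x = -1 := by
          unfold el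
          rw [if_neg h, if_pos h']
        rw [h2]
        rw [h3] at h1
        rcases hs.sign a with h4 | h4 <;> rw [h4] at h1 ⊢ <;> omega
      · have h2 : el c R a x = 0 := by
          unfold el
          rw [if_neg h, if_neg h']
        rw [h2, mul_zero, sub_zero]
        exact hs.sign x
  · change s (c * x) - 2 * s a * el c R a (c * x) = -(s x - 2 * s a * el c R a x)
    have h3 : s (c * x) = -s x := hs.odd x
    rw [el_c hcomm hc2 R hcR, h3]
    ring
  · rw [mem_rst]
    intro x
    beta_reduce
    rw [hR hr x, el_right R a x hr]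

/-- Sign functions with given values. -/
theorem exists_flip {s : G → ℤ} (hs : IsSign c s) (hR : R ≤ rst s) (a : G) {e : ℤ}
    (he : e = 1 ∨ e = -1) : ∃ r : G → ℤ, IsSign c r ∧ R ≤ rst r ∧ r a = e ∧
      ∀ x, el c R a x = 0 → r x = s x := by
  classical
  by_cases h : s a = e
  · exact ⟨s, hs, hR, h, fun _ _ => rfl⟩
  · obtain ⟨h1, h2⟩ := flip_mem hcomm hc2 R hcR hs hR a
    refine ⟨_, h1, h2, ?_, fun x hx => ?_⟩
    · change s a - 2 * s a * el c R a a = e
      have h3 : el c R a a = 1 := if_pos (by rw [inv_mul_cancel]; exact R.one_mem)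
      rw [h3]
      rcases hs.sign a with h4 | h4 <;> rcases he with h5 | h5 <;> rw [h4, h5] at h ⊢ <;>
        first | (exact absurd rfl h) | norm_num
    · change s x - 2 * s a * el c R a x = s x
      rw [hx, mul_zero, sub_zero]

/-- **Relations between averages of sign functions that are invariant under a subgroup.** -/
theorem rlA_inv (hH : Hyp c E D fun f => IsSign c f ∧ R ≤ rst f) :
    RlA E D fun f => IsSign c f ∧ R ≤ rst f := by
  classical
  have hPneg : ∀ f : G → ℤ, (IsSign c f ∧ R ≤ rst f) → IsSign c (-f) ∧ R ≤ rst (-f) :=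
    fun f h => ⟨IsSign.neg' h.1, by rw [rst_neg]; exact h.2⟩
  have hRl : Rl D fun f => IsSign c f ∧ R ≤ rst f :=
    rl_inv hcomm hc2 R hcR D (fun f h h' => hH.neg f ⟨h, h'⟩) fun f hf hs => hH.exact f hf hs
  have key : ∀ n : ℕ, ∀ (ι : Type) [Fintype ι] (m : ι → ℤ) (f : ι → G → ℤ),
      (∀ i, IsSign c (f i) ∧ R ≤ rst (f i)) → (∀ g, ∑ i, m i * av E (f i) g = 0) →
      ∑ x : G, (∑ i, m i * f i x).natAbs = n → ∑ i, m i • D (f i) = 0 := by
    intro n
    induction n using Nat.strong_induction_on with
    | _ n ih =>
    intro ι _ m f hf hr hn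
    set X : G → ℤ := fun x => ∑ i, m i * f i x with hX
    have hXx : ∀ x, X x = ∑ i, m i * f i x := fun x => rfl
    have hXav : ∀ x, av E X x = 0 := fun x => by
      rw [hX, av_sum]
      exact hr x
    have hXR : ∀ x, ∀ r ∈ R, X (x * r) = X x := by
      intro x r hr'
      rw [hXx, hXx]
      exact Finset.sum_congr rfl fun i _ => by rw [(hf i).2 hr' x]
    have hXc : ∀ x, X (c * x) = -X x := by
      intro x
      rw [hXx, hXx, ← Finset.sum_neg_distrib]
      refine Finset.sum_congr rfl fun i _ => ?_
      have h3 : f i (c * x) = -f i x := (hf i).1.odd x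
      rw [h3, mul_neg]
    have hpar : ∀ x, Even (X x - ∑ i, m i) := by
      intro x
      rw [hXx, ← Finset.sum_sub_distrib]
      refine Finset.even_sum _ fun i _ => ?_
      rcases (hf i).1.sign x with h | h <;> rw [h]
      · simp
      · exact ⟨-m i, by ring⟩
    by_cases hsmall : ∀ x, (X x).natAbs ≤ 1
    · -- all values are small
      by_cases hev : Even (∑ i, m i)
      · have h0 : ∀ x, X x = 0 := by
          intro x
          have h1 := hsmall x
          obtain ⟨k, hk⟩ := hpar x
          obtain ⟨l, hl⟩ := hev
          omega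
        exact hRl ι m f hf h0
      · have h1 : ∀ x, X x = 1 ∨ X x = -1 := by
          intro x
          have h1 := hsmall x
          obtain ⟨k, hk⟩ := hpar x
          rw [Int.not_even_iff_odd] at hev
          obtain ⟨l, hl⟩ := hev
          omega
        have hXP : IsSign c X ∧ R ≤ rst X := ⟨⟨h1, fun x => hXc x⟩, fun r hr' => by
          rw [mem_rst]
          exact fun x => hXR x r hr'⟩
        have h2 := hRl (ι ⊕ Unit) (Sum.elim m fun _ => -1) (Sum.elim f fun _ => X) (by
          rintro (i | u)
          · exact hf i
          · exact hXP) fun g => by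
            rw [Fintype.sum_sum_type]
            simp only [Finset.univ_unique, Finset.sum_singleton]
            change ∑ i, m i * f i g + -1 * X g = 0
            rw [hXx]
            ring
        rw [Fintype.sum_sum_type] at h2
        simp only [Finset.univ_unique, Finset.sum_singleton] at h2
        change ∑ i, m i • D (f i) + (-1 : ℤ) • D X = 0 at h2
        rw [hH.zero X hXP hXav, smul_zero, add_zero] at h2
        exact h2
    · -- a large value
      push Not at hsmall
      obtain ⟨a, ha⟩ : ∃ a, 2 ≤ X a := by
        obtain ⟨x, hx⟩ := hsmall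
        rcases le_or_gt 0 (X x) with h | h
        · exact ⟨x, by omega⟩
        · exact ⟨c * x, by rw [hXc]; omega⟩
      obtain ⟨d, hd, hb⟩ : ∃ d ∈ E, X (d * a) < 0 := by
        by_contra hcon
        push Not at hcon
        have h1 : 0 < av E X a := by
          unfold av
          refine Finset.sum_pos' (fun d _ => ?_) ⟨1, Finset.mem_univ _, ?_⟩
          · split_ifs with h
            · exact hcon d h
            · exact le_rfl
          · rw [if_pos E.one_mem, one_mul]
            omega
        rw [hXav] at h1
        exact lt_irrefl _ h1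
      obtain ⟨i0⟩ : Nonempty ι := by
        by_contra hne
        rw [not_nonempty_iff] at hne
        rw [hXx, Finset.univ_eq_empty, Finset.sum_empty] at ha
        omega
      -- the final step
      have step : ∀ (r r' : G → ℤ) (e : G → ℤ), (IsSign c r ∧ R ≤ rst r) →
          (IsSign c r' ∧ R ≤ rst r') → (∀ x, r x - r' x = 2 * e x) → (∀ x, av E e x = 0) →
          (∀ x, (X x - 2 * e x).natAbs ≤ (X x).natAbs) → (X a - 2 * e a).natAbs < (X a).natAbs →
          ∑ i, m i • D (f i) = 0 := by
        intro r r' e hr1 hr2 hrr he hle hlt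
        have hav : ∀ x, av E r x = av E r' x := by
          intro x
          have h1 : r = r' + (2 : ℤ) • e := by
            funext y
            have := hrr y
            rw [Pi.add_apply, Pi.smul_apply, smul_eq_mul]
            linarith
          rw [h1, av_add, av_smul, he, mul_zero, add_zero]
        have hD : D r = D r' := hH.congr hPneg hr1 hr2 hav
        have hXn : ∀ x, ∑ i : ι ⊕ Bool, (Sum.elim m (fun b => if b then -1 else 1) : ι ⊕ Bool → ℤ) i *
            (Sum.elim f (fun b => if b then r else r') : ι ⊕ Bool → G → ℤ) i x = X x - 2 * e x := by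
          intro x
          rw [Fintype.sum_sum_type, Fintype.sum_bool]
          change ∑ i, m i * f i x + ((if true then -1 else 1) * (if true then r else r') x +
            (if false then -1 else 1) * (if false then r else r') x) = X x - 2 * e x
          rw [if_pos rfl, if_pos rfl, if_neg (by simp), if_neg (by simp), hXx]
          have := hrr x
          linarith
        have h2 := ih (∑ x : G, (X x - 2 * e x).natAbs) (by
            rw [← hn]
            exact Finset.sum_lt_sum (fun x _ => hle x) ⟨a, Finset.mem_univ _, hlt⟩) (ι ⊕ Bool)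
          (Sum.elim m fun b => if b then -1 else 1) (Sum.elim f fun b => if b then r else r') (by
            rintro (i | b)
            · exact hf i
            · cases b
              · exact hr2
              · exact hr1) (fun g => by
              rw [Fintype.sum_sum_type, Fintype.sum_bool]
              change ∑ i, m i * av E (f i) g + ((if true then -1 else 1) *
                av E (if true then r else r') g +
                  (if false then -1 else 1) * av E (if false then r else r') g) = 0
              rw [if_pos rfl, if_pos rfl, if_neg (by simp), if_neg (by simp), hr, hav]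
              ring) (Finset.sum_congr rfl fun x _ => by rw [hXn])
        rw [Fintype.sum_sum_type, Fintype.sum_bool] at h2
        change ∑ i, m i • D (f i) + ((if true then (-1 : ℤ) else 1) • D (if true then r else r') +
          (if false then (-1 : ℤ) else 1) • D (if false then r else r')) = 0 at h2
        rw [if_pos rfl, if_pos rfl, if_neg (by simp), if_neg (by simp), hD] at h2
        rw [← h2]
        module
      have helv : ∀ b x : G, el c R b x = 0 ∨ (el c R b x = 1 ∧ X x = X b) ∨
          (el c R b x = -1 ∧ X x = -X b) := by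
        intro b x
        by_cases h : b⁻¹ * x ∈ R
        · right; left
          refine ⟨if_pos h, ?_⟩
          have h1 := hXR b _ h
          rwa [mul_inv_cancel_left] at h1
        · by_cases h' : b⁻¹ * (c * x) ∈ R
          · right; right
            refine ⟨?_, ?_⟩
            · unfold el
              rw [if_neg h, if_pos h']
            · have h1 := hXR b _ h'
              rw [mul_inv_cancel_left, hXc] at h1
              omega
          · left
            unfold el
            rw [if_neg h, if_neg h']
      have hela : el c R a a = 1 := if_pos (by rw [inv_mul_cancel]; exact R.one_mem)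
      by_cases hcase : a⁻¹ * (c * (d * a)) ∈ R
      · -- the opposite coset
        have h0 : ∀ x, av E (el c R a) x = 0 := by
          intro x
          have h1 : el c R (d * a) = -el c R a := by
            funext y
            rw [Pi.neg_apply, ← el_c hcomm hc2 R hcR]
            have h2 : el c R (d * a) y = el c R (c * (c * (d * a))) y := by
              rw [← mul_assoc c c, hc2, one_mul]
            rw [h2]
            have h3 : c * (c * (d * a)) = c * a * (a⁻¹ * (c * (d * a))) := by group
            set w := a⁻¹ * (c * (d * a)) with hw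
            rw [h3]
            unfold el
            have e1 : (c * a * w)⁻¹ * y = w⁻¹ * (a⁻¹ * (c⁻¹ * y)) := by group
            have e2 : (c * a * w)⁻¹ * (c * y) = w⁻¹ * (a⁻¹ * (c⁻¹ * (c * y))) := by group
            have e3 : c⁻¹ = c := by
              rw [inv_eq_iff_mul_eq_one, hc2]
            rw [e1, e2, e3, R.mul_mem_cancel_left (R.inv_mem hcase),
              R.mul_mem_cancel_left (R.inv_mem hcase)]
          have h2 := av_el (E := E) hcomm R a hd x
          rw [h1, av_neg] at h2
          omega
        obtain ⟨r, hr1, hr2, hr3, -⟩ := exists_flip hcomm hc2 R hcR (hf i0).1 (hf i0).2 a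
          (e := 1) (Or.inl rfl)
        obtain ⟨hf1, hf2⟩ := flip_mem hcomm hc2 R hcR hr1 hr2 a
        refine step r _ (el c R a) ⟨hr1, hr2⟩ ⟨hf1, hf2⟩ (fun x => ?_) h0 (fun x => ?_) ?_
        · rw [hr3]
          ring
        · rcases helv a x with h | ⟨h, h'⟩ | ⟨h, h'⟩ <;> rw [h] <;> omega
        · rw [hela]
          omega
      · -- different cosets
        have hne : el c R (d * a) a = 0 := by
          rcases helv (d * a) a with h | ⟨h, h'⟩ | ⟨h, h'⟩
          · exact h
          · omega
          · exfalso
            apply hcase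
            have h1 : (d * a)⁻¹ * (c * a) ∈ R := by
              by_contra h2
              unfold el at h
              rw [if_neg h2] at h
              split_ifs at h
            have h3 := R.inv_mem h1
            have h5 : ((d * a)⁻¹ * (c * a))⁻¹ = a⁻¹ * (c * (d * a)) := by
              have e3 : c⁻¹ = c := by
                rw [inv_eq_iff_mul_eq_one, hc2]
              rw [mul_inv_rev, mul_inv_rev, inv_inv, e3, mul_assoc]
            rwa [h5] at h3
        have hne' : el c R a (d * a) = 0 := by
          rcases helv a (d * a) with h | ⟨h, h'⟩ | ⟨h, h'⟩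
          · exact h
          · omega
          · exfalso
            apply hcase
            by_contra h2
            unfold el at h
            rw [if_neg h2] at h
            split_ifs at h
        obtain ⟨r1, hr1, hr2, hr3, -⟩ := exists_flip hcomm hc2 R hcR (hf i0).1 (hf i0).2 a
          (e := 1) (Or.inl rfl)
        obtain ⟨r, hq1, hq2, hq3, hq4⟩ := exists_flip hcomm hc2 R hcR hr1 hr2 (d * a)
          (e := -1) (Or.inr rfl)
        have hra : r a = 1 := by rw [hq4 a hne, hr3]
        obtain ⟨hf1, hf2⟩ := flip_mem hcomm hc2 R hcR hq1 hq2 a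
        obtain ⟨hg1, hg2⟩ := flip_mem hcomm hc2 R hcR hf1 hf2 (d * a)
        refine step r _ (fun x => el c R a x - el c R (d * a) x) ⟨hq1, hq2⟩ ⟨hg1, hg2⟩
          (fun x => ?_) (fun x => ?_) (fun x => ?_) ?_
        · beta_reduce
          rw [hne', hra, hq3]
          ring
        · have h1 : (fun x => el c R a x - el c R (d * a) x) = el c R a + -el c R (d * a) := by
            funext y
            rw [Pi.add_apply, Pi.neg_apply, sub_eq_add_neg]
          rw [h1, av_add, av_neg, av_el hcomm R a hd]
          ring
        · beta_reduce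
          rcases helv a x with h | ⟨h, h'⟩ | ⟨h, h'⟩ <;>
            rcases helv (d * a) x with k | ⟨k, k'⟩ | ⟨k, k'⟩ <;> rw [h, k] <;> omega
        · beta_reduce
          rw [hela, hne]
          omega
  intro ι _ m f hf hr
  exact key _ ι m f hf hr rfl

end inv

end

end Pool.Agent.R937.TZ
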