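import Pool.Agent.R937.TZ.S3A

/-!
# Relations between averages of good functions on the symmetric group of degree three
-/

set_option autoImplicit false
set_option linter.unusedSectionVars false
set_option linter.unusedVariables false

namespace Pool.Agent.R937.TZ

open Pool.Agent.R937.HZ

/-- Multiplicative weights on a subgroup. -/
structure Wgt (w : P3 → ℤ) : Prop where
  one : w 1 = 1
  val : ∀ δ, w δ = 0 ∨ w δ = 1 ∨ w δ = -1
  mul : ∀ δ δ', w δ ≠ 0 → w δ' ≠ 0 → w (δ * δ') = w δ * w δ'

/-- The averages. -/
def aw (w : P3 → ℤ) (F : P3 → ℤ) (σ : P3) : ℤ := ∑ δ, w δ * F (δ * σ)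

theorem univ_P3 : (Finset.univ : Finset P3) = {1, sw 0, sw 1, sw 2, rr, rr * rr} := by decide

theorem aw_eq (w F : P3 → ℤ) (σ : P3) : aw w F σ = w 1 * F σ + w (sw 0) * F (sw 0 * σ) +
    w (sw 1) * F (sw 1 * σ) + w (sw 2) * F (sw 2 * σ) + w rr * F (rr * σ) +
      w (rr * rr) * F (rr * rr * σ) := by
  unfold aw
  rw [univ_P3, Finset.sum_insert (by decide), Finset.sum_insert (by decide),
    Finset.sum_insert (by decide), Finset.sum_insert (by decide), Finset.sum_insert (by decide),
    Finset.sum_singleton, one_mul]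
  ring

theorem wgt_cases {w : P3 → ℤ} (h : Wgt w) : (∀ F σ, aw w F σ = F σ) ∨
    (∃ p e, (e = 1 ∨ e = -1) ∧ ∀ F σ, aw w F σ = Ap p e F σ) ∨ (∀ F σ, aw w F σ = AA F σ) ∨
      ∃ e, (e = 1 ∨ e = -1) ∧ ∀ F σ, aw w F σ = AS e F σ := by
  have h01 : w (sw 0) ≠ 0 → w (sw 1) ≠ 0 → w rr = w (sw 0) * w (sw 1) := h.mul _ _
  have h02 : w (sw 0) ≠ 0 → w (sw 2) ≠ 0 → w (rr * rr) = w (sw 0) * w (sw 2) := by
    have := h.mul (sw 0) (sw 2)
    rwa [show sw 0 * sw 2 = rr * rr from by decide] at this
  have h12 : w (sw 1) ≠ 0 → w (sw 2) ≠ 0 → w rr = w (sw 1) * w (sw 2) := by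
    have := h.mul (sw 1) (sw 2)
    rwa [show sw 1 * sw 2 = rr from by decide] at this
  have hrr : w rr ≠ 0 → w (rr * rr) = w rr * w rr := fun h' => h.mul _ _ h' h'
  have hr2 : w (rr * rr) ≠ 0 → w rr = w (rr * rr) * w (rr * rr) := by
    have := h.mul (rr * rr) (rr * rr)
    rw [show rr * rr * (rr * rr) = rr from by decide] at this
    exact fun h' => this h' h'
  have hr3 : w (rr * rr) ≠ 0 → w rr ≠ 0 → (1 : ℤ) = w (rr * rr) * w rr := by
    have := h.mul (rr * rr) rr
    rw [show rr * rr * rr = 1 from by decide, h.one] at this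
    exact this
  have k0 : w (sw 0) ≠ 0 → w rr ≠ 0 → w (sw 1) = w (sw 0) * w rr := by
    have := h.mul (sw 0) rr
    rwa [show sw 0 * rr = sw 1 from by decide] at this
  have k1 : w (sw 1) ≠ 0 → w rr ≠ 0 → w (sw 2) = w (sw 1) * w rr := by
    have := h.mul (sw 1) rr
    rwa [show sw 1 * rr = sw 2 from by decide] at this
  have k2 : w (sw 2) ≠ 0 → w rr ≠ 0 → w (sw 0) = w (sw 2) * w rr := by
    have := h.mul (sw 2) rr
    rwa [show sw 2 * rr = sw 0 from by decide] at this
  by_cases hr : w rr = 0
  · have hr' : w (rr * rr) = 0 := by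
      by_contra h'
      have h1 := hr2 h'
      rw [hr] at h1
      rcases mul_eq_zero.1 h1.symm with h2 | h2 <;> exact h' h2
    by_cases a0 : w (sw 0) = 0
    · by_cases a1 : w (sw 1) = 0
      · by_cases a2 : w (sw 2) = 0
        · left
          intro F σ
          rw [aw_eq, h.one, a0, a1, a2, hr, hr']
          ring
        · right; left
          refine ⟨2, w (sw 2), ?_, fun F σ => ?_⟩
          · rcases h.val (sw 2) with h1 | h1 | h1
            · exact absurd h1 a2
            · exact Or.inl h1
            · exact Or.inr h1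
          · rw [aw_eq, h.one, a0, a1, hr, hr']
            unfold Ap
            ring
      · have a2 : w (sw 2) = 0 := by
          by_contra a2
          have h1 := h12 a1 a2
          rw [hr] at h1
          rcases mul_eq_zero.1 h1.symm with h2 | h2
          · exact a1 h2
          · exact a2 h2
        right; left
        refine ⟨1, w (sw 1), ?_, fun F σ => ?_⟩
        · rcases h.val (sw 1) with h1 | h1 | h1
          · exact absurd h1 a1
          · exact Or.inl h1
          · exact Or.inr h1
        · rw [aw_eq, h.one, a0, a2, hr, hr']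
          unfold Ap
          ring
    · have a1 : w (sw 1) = 0 := by
        by_contra a1
        have h1 := h01 a0 a1
        rw [hr] at h1
        rcases mul_eq_zero.1 h1.symm with h2 | h2
        · exact a0 h2
        · exact a1 h2
      have a2 : w (sw 2) = 0 := by
        by_contra a2
        have h1 := h02 a0 a2
        rw [hr'] at h1
        rcases mul_eq_zero.1 h1.symm with h2 | h2
        · exact a0 h2
        · exact a2 h2
      right; left
      refine ⟨0, w (sw 0), ?_, fun F σ => ?_⟩
      · rcases h.val (sw 0) with h1 | h1 | h1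
        · exact absurd h1 a0
        · exact Or.inl h1
        · exact Or.inr h1
      · rw [aw_eq, h.one, a1, a2, hr, hr']
        unfold Ap
        ring
  · have h1 := hrr hr
    have h2 : w (rr * rr) = 1 := by
      rcases h.val rr with h3 | h3 | h3
      · exact absurd h3 hr
      · rw [h1, h3]
        norm_num
      · rw [h1, h3]
        norm_num
    have h3 : w rr = 1 := by
      have h4 := hr3 (by rw [h2]; norm_num) hr
      rw [h2, one_mul] at h4
      exact h4.symm
    by_cases a0 : w (sw 0) = 0
    · have a2 : w (sw 2) = 0 := by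
        by_contra a2
        have h4 := k2 a2 hr
        rw [a0, h3, mul_one] at h4
        exact a2 h4.symm
      have a1 : w (sw 1) = 0 := by
        by_contra a1
        have h4 := k1 a1 hr
        rw [a2, h3, mul_one] at h4
        exact a1 h4.symm
      right; right; left
      intro F σ
      rw [aw_eq, h.one, a0, a1, a2, h3, h2]
      unfold AA
      ring
    · have a1 := k0 a0 hr
      rw [h3, mul_one] at a1
      have a2 := k1 (by rw [a1]; exact a0) hr
      rw [h3, mul_one, a1] at a2
      right; right; right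
      refine ⟨w (sw 0), ?_, fun F σ => ?_⟩
      · rcases h.val (sw 0) with h5 | h5 | h5
        · exact absurd h5 a0
        · exact Or.inl h5
        · exact Or.inr h5
      · rw [aw_eq, h.one, a1, a2, h3, h2]
        unfold AS
        ring

variable {M : Type} [AddCommGroup M]

/-- The relations between the averages of good functions. -/
theorem rl_goodA {w : P3 → ℤ} (hw : Wgt w) (D : (P3 → ℤ) → M)
    (hneg : ∀ F, Good F → D (-F) = -D F)
    (h4 : ∀ F : Fin 4 → P3 → ℤ, (∀ k, Good (F k)) → (∀ x, ∑ k, F k x = 0) → ∑ k, D (F k) = 0)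
    (hc : ∀ F F', Good F → Good F' → (∀ σ, aw w F σ = aw w F' σ) → D F = D F')
    (hz : ∀ F, Good F → (∀ σ, aw w F σ = 0) → D F = 0)
    {ι : Type} [Fintype ι] (m : ι → ℤ) (F : ι → P3 → ℤ) (hF : ∀ i, Good (F i))
    (hr : ∀ σ, ∑ i, m i * aw w (F i) σ = 0) : ∑ i, m i • D (F i) = 0 := by
  choose n hn using fun i => exists_cmb D hneg h4 (F i) (hF i)
  have hlin : ∀ i σ, aw w (F i) σ = ∑ k, n i k * aw w (BB k) σ := by
    intro i σ
    unfold aw
    rw [Finset.sum_congr rfl fun δ _ => by rw [(hn i).1 (δ * σ), Finset.mul_sum], Finset.sum_comm]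
    refine Finset.sum_congr rfl fun k _ => ?_
    rw [Finset.mul_sum]
    exact Finset.sum_congr rfl fun δ _ => by ring
  let N : Fin 6 → ℤ := fun k => ∑ i, m i * n i k
  have hN : ∀ σ, ∑ k, N k * aw w (BB k) σ = 0 := by
    intro σ
    rw [← hr σ, Finset.sum_congr rfl fun k _ => Finset.sum_mul _ _ _, Finset.sum_comm]
    refine Finset.sum_congr rfl fun i _ => ?_
    rw [hlin, Finset.mul_sum]
    exact Finset.sum_congr rfl fun k _ => by ring
  have key : ∑ k, N k • D (BB k) = 0 := by
    rcases wgt_cases hw with h | ⟨p, e, he, h⟩ | h | ⟨e, he, h⟩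
    · have h1 : N = 0 := indep D hneg h4 N fun σ => by
        rw [← hN σ]
        exact Finset.sum_congr rfl fun k _ => by rw [h]
      rw [h1]
      exact Finset.sum_eq_zero fun k _ => by rw [Pi.zero_apply, zero_smul]
    · simp only [h] at hc hz hN
      rcases he with rfl | rfl
      · fin_cases p
        · exact ker_P0p D hneg h4 hc hz N hN
        · exact ker_P1p D hneg h4 hc hz N hN
        · exact ker_P2p D hneg h4 hc hz N hN
      · fin_cases p
        · exact ker_P0m D hneg h4 hc hz N hN
        · exact ker_P1m D hneg h4 hc hz N hN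
        · exact ker_P2m D hneg h4 hc hz N hN
    · simp only [h] at hc hz hN
      exact ker_A D hneg h4 hc hz N hN
    · simp only [h] at hc hz hN
      rcases he with rfl | rfl
      · exact ker_Sp D hneg h4 hc hz N hN
      · exact ker_Sm D hneg h4 hc hz N hN
  rw [← key, Finset.sum_congr rfl fun i _ => by rw [(hn i).2, Finset.smul_sum], Finset.sum_comm]
  refine Finset.sum_congr rfl fun k _ => ?_
  rw [show N k = ∑ i, m i * n i k from rfl, Finset.sum_smul]
  exact Finset.sum_congr rfl fun i _ => by rw [mul_smul]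

end Pool.Agent.R937.TZ
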