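import Pool.Agent.R937.TZ.Avg
import Pool.Agent.R937.TZ.S3B

/-!
# Relations between the averages of sign functions with stabilizers of index six
-/

set_option autoImplicit false
set_option linter.unusedSectionVars false
set_option linter.unusedVariables false

namespace Pool.Agent.R937.TZ

open Pool.Agent.W495.TA (IsSign)
open Pool.Agent.Y137.SF (rst mem_rst)
open Pool.Agent.R937.HZ
open Pool.Agent.R937.CS (av nD nD_pos)

noncomputable section

variable {G M : Type} [Group G] [Fintype G] [AddCommGroup M] {c : G} {E : Subgroup G}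
  {D : (G → ℤ) → M}

/-- Exact splitting. -/
theorem RlA.split {α : Type} (lab : (G → ℤ) → α) {P : (G → ℤ) → Prop}
    (hs : ∀ (ι : Type) [Fintype ι] (m : ι → ℤ) (f : ι → G → ℤ), (∀ i, P (f i)) →
      (∀ g, ∑ i, m i * av E (f i) g = 0) → ∀ (i0 : ι) (v : α)
        [DecidablePred fun i => lab (f i) = v],
        lab (f i0) = v → ∀ g, ∑ i with lab (f i) = v, m i * av E (f i) g = 0)
    (h : ∀ f0, P f0 → RlA E D fun f => P f ∧ lab f = lab f0) : RlA E D P := by
  classical
  intro ι _ m f hf hr
  rw [← Finset.sum_fiberwise_of_maps_to (s := Finset.univ)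
    (t := Finset.univ.image fun i => lab (f i)) (g := fun i => lab (f i))
    (fun i _ => Finset.mem_image_of_mem _ (Finset.mem_univ i))]
  refine Finset.sum_eq_zero fun v hv => ?_
  obtain ⟨i0, -, hi0⟩ := Finset.mem_image.1 hv
  have h1 := h (f i0) (hf i0) {i // lab (f i) = v} (fun i => m i.1) (fun i => f i.1)
    (fun i => ⟨hf _, i.2.trans hi0.symm⟩) (fun g => by
      rw [← Finset.sum_subtype (Finset.univ.filter fun i => lab (f i) = v) (by simp)
        fun i => m i * av E (f i) g]
      exact hs ι m f hf hr i0 v hi0 g)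
  rw [← Finset.sum_subtype (Finset.univ.filter fun i => lab (f i) = v) (by simp)
        fun i => m i • D (f i)] at h1
  exact h1

variable (hcomm : ∀ g, c * g = g * c) (hc2 : c * c = 1)

/-- The averages are semi-invariant. -/
theorem av_semi {f : G → ℤ} (hf : IsSign c f) {b : G} (hb : b ∈ VV c hcomm hc2 (rst f)) (x : G) :
    av E f (x * b) = f 1 * f b * av E f x := by
  rw [← av_shift]
  have h1 : (fun g => f (g * b)) = (f 1 * f b) • f := by
    funext g
    rw [semi hcomm hc2 hf hb g, Pi.smul_apply, smul_eq_mul]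
  rw [h1, av_smul]

include hcomm hc2 in
/-- Splitting according to the labels. -/
theorem lab_splitA {A : Subgroup G} (P : (G → ℤ) → Prop)
    (hP : ∀ f, P f → IsSign c f ∧ A ≤ VV c hcomm hc2 (rst f))
    (h : ∀ f0, P f0 → RlA E D fun f => P f ∧ lab A f = lab A f0) : RlA E D P := by
  classical
  refine RlA.split (lab A) (fun ι _ m f hf hr i0 v _ hv x => ?_) h
  have h1 : ∑ a : A, v a * ∑ i, m i * av E (f i) (x * a) = 0 :=
    Finset.sum_eq_zero fun a _ => by rw [hr, mul_zero]
  have h2 : ∀ i, ∑ a : A, v a * lab A (f i) a =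
      if lab A (f i) = v then (Fintype.card A : ℤ) else 0 := by
    intro i
    obtain ⟨hfi, hAi⟩ := hP _ (hf i)
    obtain ⟨hf0, hA0⟩ := hP _ (hf i0)
    split_ifs with h3
    · rw [← h3, Finset.sum_congr rfl fun a _ => ?_, Finset.sum_const, Finset.card_univ]
      · exact (nsmul_one _)
      · rcases lab_sign (A := A) hfi a with h4 | h4 <;> rw [h4] <;> norm_num
    · obtain ⟨a0, ha0⟩ : ∃ a0, lab A (f i) a0 ≠ v a0 := by
        by_contra h4
        push Not at h4
        exact h3 (funext h4)
      have h5 : v a0 * lab A (f i) a0 = -1 := by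
        rw [← hv] at ha0 ⊢
        rcases lab_sign (A := A) hfi a0 with h4 | h4 <;>
          rcases lab_sign (A := A) hf0 a0 with h6 | h6 <;> rw [h4, h6] at ha0 ⊢ <;> omega
      have h6 : ∑ a : A, v a * lab A (f i) a = -∑ a : A, v a * lab A (f i) a := by
        conv_lhs => rw [← Equiv.sum_comp (Equiv.mulRight a0)]
        rw [← Finset.sum_neg_distrib]
        refine Finset.sum_congr rfl fun a _ => ?_
        rw [Equiv.coe_mulRight, lab_mul hcomm hc2 hfi hAi, ← hv, lab_mul hcomm hc2 hf0 hA0, hv]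
        linear_combination (v a * lab A (f i) a) * h5
      omega
  have h3 : ∑ a : A, v a * ∑ i, m i * av E (f i) (x * a) =
      (Fintype.card A : ℤ) * ∑ i with lab A (f i) = v, m i * av E (f i) x := by
    simp only [Finset.mul_sum]
    rw [Finset.sum_comm, Finset.sum_filter]
    refine Finset.sum_congr rfl fun i _ => ?_
    have h4 : ∀ a : A, v a * (m i * av E (f i) (x * a)) =
        (v a * lab A (f i) a) * (m i * av E (f i) x) := by
      intro a
      rw [av_semi hcomm hc2 (hP _ (hf i)).1 ((hP _ (hf i)).2 a.2)]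
      change _ = (v a * (f i 1 * f i a)) * (m i * av E (f i) x)
      ring
    rw [Finset.sum_congr rfl fun a _ => h4 a, ← Finset.sum_mul, h2]
    split_ifs
    · rfl
    · rw [zero_mul]
  rw [h3] at h1
  have h4 : (Fintype.card A : ℤ) ≠ 0 := by
    exact_mod_cast Fintype.card_ne_zero
  exact (mul_eq_zero.1 h1).resolve_left h4

/-- Functions with a given label on a subgroup of index three. -/
theorem rl_threeA {A : Subgroup G} (hA3 : A.index = 3) (hH : Hyp c E D (Sm c))
    {f1 : G → ℤ} (hf1 : IsSign c f1) (hA1 : A ≤ VV c hcomm hc2 (rst f1)) :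
    RlA E D fun f => (IsSign c f ∧ A ≤ VV c hcomm hc2 (rst f)) ∧ lab A f = lab A f1 := by
  have hcA : c ∈ A := c_mem_of_index_three c hcomm hc2 A hA3
  let R : Subgroup G := A ⊓ rst f1
  have hcR : c ∉ R := fun h => c_notMem c hf1 h.2
  have hVR : A ≤ VV c hcomm hc2 R := by
    intro a ha
    rcases hA1 ha with h | h
    · exact Or.inl ⟨ha, h⟩
    · exact Or.inr ⟨A.mul_mem hcA ha, h⟩
  have hR6 : R.index ≤ 6 := by
    rw [index_VV c hcomm hc2 R hcR]
    have h1 := Nat.le_of_dvd (by rw [hA3]; norm_num) (Subgroup.index_dvd_of_le hVR)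
    omega
  have hs : ∀ f, (IsSign c f ∧ R ≤ rst f) → Sm c f := fun f h =>
    ⟨h.1, (Nat.le_of_dvd (Nat.pos_of_ne_zero Subgroup.index_ne_zero_of_finite)
      (Subgroup.index_dvd_of_le h.2)).trans hR6⟩
  refine (rlA_inv hcomm hc2 R hcR (hH.mono hs)).mono ?_
  rintro f ⟨⟨hf, hA⟩, hl⟩
  refine ⟨hf, fun r hr x => ?_⟩
  have h1 := congrFun hl ⟨r, hr.1⟩
  change f 1 * f r = f1 1 * f1 r at h1
  have h2 := hr.2 1
  rw [one_mul] at h2
  rw [semi hcomm hc2 hf (hA hr.1), h1, h2, one_sq hf1, one_mul]

/-- The weights. -/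
theorem exists_wgt (θ : G →* P3) (V : G → ℤ) (hV1 : ∀ g, V g = 1 ∨ V g = -1)
    (hVm : ∀ g g', V (g * g') = V g * V g') : (∀ F : P3 → ℤ, ∀ g,
      av E (fun x => V x * F (θ x)) g = 0) ∨ ∃ (w : P3 → ℤ) (n : ℤ), Wgt w ∧ n ≠ 0 ∧
        ∀ F : P3 → ℤ, ∀ g, av E (fun x => V x * F (θ x)) g = n * (V g * aw w F (θ g)) := by
  classical
  let w' : P3 → ℤ := fun δ => ∑ d : G, if d ∈ E ∧ θ d = δ then V d else 0
  have hV1' : V 1 = 1 := by
    have h1 := hVm 1 1
    rw [one_mul] at h1
    rcases hV1 1 with h | h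
    · exact h
    · rw [h] at h1
      norm_num at h1
  have hVsq : ∀ g, V g * V g = 1 := fun g => by
    rcases hV1 g with h | h <;> rw [h] <;> norm_num
  have hav : ∀ (F : P3 → ℤ) g, av E (fun x => V x * F (θ x)) g =
      V g * ∑ δ, w' δ * F (δ * θ g) := by
    intro F g
    have h1 : ∀ δ : P3, w' δ * F (δ * θ g) =
        ∑ d : G, if θ d = δ then (if d ∈ E then V d * F (θ d * θ g) else 0) else 0 := by
      intro δ
      change (∑ d : G, if d ∈ E ∧ θ d = δ then V d else 0) * F (δ * θ g) = _
      rw [Finset.sum_mul]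
      refine Finset.sum_congr rfl fun d _ => ?_
      by_cases h2 : θ d = δ
      · by_cases h3 : d ∈ E
        · rw [if_pos ⟨h3, h2⟩, if_pos h2, if_pos h3, h2]
        · rw [if_neg (fun h => h3 h.1), if_pos h2, if_neg h3, zero_mul]
      · rw [if_neg (fun h => h2 h.2), if_neg h2, zero_mul]
    rw [Finset.sum_congr rfl fun δ _ => h1 δ, Finset.sum_comm, Finset.mul_sum]
    unfold av
    refine Finset.sum_congr rfl fun d _ => ?_
    rw [Finset.sum_ite_eq, if_pos (Finset.mem_univ _)]
    by_cases h3 : d ∈ E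
    · rw [if_pos h3, if_pos h3]
      change V (d * g) * F (θ (d * g)) = _
      rw [hVm, map_mul]
      ring
    · rw [if_neg h3, if_neg h3, mul_zero]
  have hw' : ∀ d ∈ E, w' (θ d) = V d * w' 1 := by
    intro d hd
    change (∑ x : G, if x ∈ E ∧ θ x = θ d then V x else 0) =
      V d * ∑ x : G, if x ∈ E ∧ θ x = 1 then V x else 0
    rw [← Equiv.sum_comp (Equiv.mulLeft d) fun x => if x ∈ E ∧ θ x = θ d then V x else 0,
      Finset.mul_sum]
    refine Finset.sum_congr rfl fun x _ => ?_
    rw [Equiv.coe_mulLeft]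
    have e1 : (d * x ∈ E ∧ θ (d * x) = θ d) ↔ (x ∈ E ∧ θ x = 1) := by
      rw [E.mul_mem_cancel_left hd, map_mul, mul_eq_left]
    by_cases h : x ∈ E ∧ θ x = 1
    · rw [if_pos (e1.2 h), if_pos h, hVm]
    · rw [if_neg (fun h' => h (e1.1 h')), if_neg h, mul_zero]
  by_cases h0 : w' 1 = 0
  · left
    intro F g
    rw [hav, Finset.sum_eq_zero, mul_zero]
    intro δ _
    by_cases h1 : ∃ d ∈ E, θ d = δ
    · obtain ⟨d, hd, rfl⟩ := h1
      rw [hw' d hd, h0, mul_zero, zero_mul]
    · have h2 : w' δ = 0 := Finset.sum_eq_zero fun d _ => by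
        rw [if_neg]
        rintro ⟨h3, h4⟩
        exact h1 ⟨d, h3, h4⟩
      rw [h2, zero_mul]
  · right
    let w : P3 → ℤ := fun δ => if h : ∃ d ∈ E, θ d = δ then V h.choose else 0
    have hw : ∀ δ, w' δ = w' 1 * w δ := by
      intro δ
      by_cases h1 : ∃ d ∈ E, θ d = δ
      · have h2 : w δ = V h1.choose := dif_pos h1
        have h3 := hw' _ h1.choose_spec.1
        rw [h1.choose_spec.2] at h3
        rw [h2, h3, mul_comm]
      · have h2 : w δ = 0 := dif_neg h1
        rw [h2, mul_zero]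
        exact Finset.sum_eq_zero fun d _ => by
          rw [if_neg]
          rintro ⟨h3, h4⟩
          exact h1 ⟨d, h3, h4⟩
    have hwd : ∀ d ∈ E, w (θ d) = V d := by
      intro d hd
      have h1 := hw (θ d)
      rw [hw' d hd, mul_comm] at h1
      exact (mul_left_cancel₀ h0 h1).symm
    have hw0 : ∀ δ, w δ ≠ 0 → ∃ d ∈ E, θ d = δ := by
      intro δ h
      by_contra h1
      exact h (dif_neg h1)
    refine ⟨w, w' 1, ⟨?_, fun δ => ?_, fun δ δ' h h' => ?_⟩, h0, fun F g => ?_⟩
    · have h1 := hwd 1 E.one_mem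
      rwa [map_one, hV1'] at h1
    · by_cases h1 : w δ = 0
      · exact Or.inl h1
      · obtain ⟨d, hd, rfl⟩ := hw0 δ h1
        rw [hwd d hd]
        exact Or.inr (hV1 d)
    · obtain ⟨d, hd, rfl⟩ := hw0 δ h
      obtain ⟨d', hd', rfl⟩ := hw0 δ' h'
      rw [← map_mul, hwd _ (E.mul_mem hd hd'), hwd _ hd, hwd _ hd', hVm]
    · have h1 : ∑ δ, w' δ * F (δ * θ g) = w' 1 * aw w F (θ g) := by
        unfold aw
        rw [Finset.mul_sum]
        exact Finset.sum_congr rfl fun δ _ => by rw [hw, mul_assoc]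
      rw [hav, h1]
      ring

/-- The case of the symmetric group. -/
theorem rl_s3A {B0 : Subgroup G} (hB0 : B0.index = 3) (hne : ¬ B0 ≤ B0.normalCore)
    (hH : Hyp c E D (Sm c)) {f1 : G → ℤ} (hf1 : Mem hcomm hc2 B0.normalCore f1)
    (hinv : ∀ b, b ∈ StL B0.normalCore (lab B0.normalCore f1)) :
    RlA E D fun f => Mem hcomm hc2 B0.normalCore f ∧
      lab B0.normalCore f = lab B0.normalCore f1 := by
  classical
  obtain ⟨θ, hθ, hker, hidx⟩ := exists_theta B0 hB0 hne
  obtain ⟨V, hV1, hVm, hVc, hVA⟩ := exists_char hcomm hc2 hf1.1 hf1.2.1 hinv (by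
    rcases hf1.2.2 with h | h <;> rw [h]
    · exact odd_one
    · exact ⟨1, rfl⟩)
  have hVsq : ∀ g, V g * V g = 1 := fun g => by
    rcases hV1 g with h | h <;> rw [h] <;> norm_num
  have hcB : c ∈ B0.normalCore := by
    intro b
    rw [← hcomm, mul_inv_cancel_right]
    exact c_mem_of_index_three c hcomm hc2 B0 hB0
  have hθc : θ c = 1 := (hker c).2 hcB
  -- the functions that belong to good functions
  have hV1' : V 1 = 1 := by
    have h1 := hVm 1 1
    rw [one_mul] at h1
    rcases hV1 1 with h | h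
    · exact h
    · rw [h] at h1
      norm_num at h1
  have hsm : ∀ F, Good F → Sm c fun g => V g * F (θ g) := by
    rintro F ⟨hF1, b, p, hF2⟩
    have hs : IsSign c fun g => V g * F (θ g) := by
      refine ⟨fun g => ?_, fun g => ?_⟩
      · rcases hV1 g with h | h <;> rcases hF1 (θ g) with h' | h' <;> rw [h, h'] <;> norm_num
      · change V (c * g) * F (θ (c * g)) = -(V g * F (θ g))
        rw [hVm, hVc, map_mul, hθc, one_mul]
        ring
    refine ⟨hs, ?_⟩
    -- the elements of the preimage of the subgroup generated by the transposition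
    have h1 : ∀ x : G, (∃ e : ℤ, (e = 1 ∨ e = -1) ∧ ∀ g, V (g * x) * F (θ (g * x)) =
        e * (V g * F (θ g))) → x ∈ VV c hcomm hc2 (rst fun g => V g * F (θ g)) := by
      rintro x ⟨e, rfl | rfl, he⟩
      · left
        intro g
        change V (g * x) * F (θ (g * x)) = V g * F (θ g)
        rw [he, one_mul]
      · right
        intro g
        change V (g * (c * x)) * F (θ (g * (c * x))) = V g * F (θ g)
        have e1 : g * (c * x) = c * (g * x) := by rw [← mul_assoc, ← hcomm, mul_assoc]
        rw [e1, hVm, hVc, map_mul θ c, hθc, one_mul, neg_one_mul, neg_mul, he]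
        ring
    have h2 : (Subgroup.zpowers (sw p)).comap θ ≤ VV c hcomm hc2 (rst fun g => V g * F (θ g)) := by
      intro x hx
      have h3 : θ x = 1 ∨ θ x = sw p := by
        obtain ⟨k, hk⟩ := Subgroup.mem_zpowers_iff.1 (Subgroup.mem_comap.1 hx)
        rcases Int.even_or_odd k with hk' | hk'
        · left
          obtain ⟨l, rfl⟩ := hk'
          rw [← hk, ← two_mul, zpow_mul, zpow_two, sw_sq, one_zpow]
        · right
          obtain ⟨l, rfl⟩ := hk'
          rw [← hk, zpow_add_one, zpow_mul, zpow_two, sw_sq, one_zpow, one_mul]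
      rcases h3 with h3 | h3
      · exact h1 x ⟨V x, hV1 x, fun g => by
          rw [hVm, map_mul, h3, mul_one]
          ring⟩
      · refine h1 x ⟨V x * (if b then -1 else 1), ?_, fun g => ?_⟩
        · rcases hV1 x with h | h <;> rw [h] <;> cases b <;> simp
        · rw [hVm, map_mul, h3, hF2]
          ring
    have h3 : ((Subgroup.zpowers (sw p)).comap θ).index = 3 := by
      rw [Subgroup.index_comap_of_surjective _ hθ]
      have h4 := Subgroup.index_mul_card (Subgroup.zpowers (sw p))
      have h5 : Nat.card (Subgroup.zpowers (sw p)) = 2 := by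
        rw [Nat.card_zpowers]
        exact orderOf_eq_prime (by rw [pow_two, sw_sq]) (sw_ne p)
      have h6 : Nat.card P3 = 6 := by
        rw [Nat.card_eq_fintype_card]
        rfl
      rw [h5, h6] at h4
      omega
    have h5 := Subgroup.index_dvd_of_le h2
    rw [h3] at h5
    have h6 := Nat.le_of_dvd (by norm_num) h5
    rw [index_VV c hcomm hc2 _ (c_notMem c hs)]
    omega
  -- the good functions of the members
  let s : P3 → G := Function.surjInv hθ
  have hs : ∀ σ, θ (s σ) = σ := fun σ => Function.surjInv_eq hθ σ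
  let T : (G → ℤ) → P3 → ℤ := fun f σ => V (s σ) * f (s σ)
  have hT : ∀ f, (Mem hcomm hc2 B0.normalCore f ∧ lab B0.normalCore f = lab B0.normalCore f1) →
      ∀ g, T f (θ g) = V g * f g := by
    rintro f ⟨hf, hl⟩ g
    have h1 : g⁻¹ * s (θ g) ∈ B0.normalCore := by
      rw [← hker, map_mul, hs, map_inv, inv_mul_cancel]
    have h2 : s (θ g) = g * (g⁻¹ * s (θ g)) := by group
    change V (s (θ g)) * f (s (θ g)) = _
    rw [h2, hVm, semi hcomm hc2 hf.1 (hf.2.1 h1)]
    have h3 := hVA ⟨_, h1⟩
    rw [← hl] at h3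
    change V (g⁻¹ * s (θ g)) = f 1 * f (g⁻¹ * s (θ g)) at h3
    rw [← h3]
    linear_combination (V g * f g) * hVsq (g⁻¹ * s (θ g))
  have hg : ∀ f, (Mem hcomm hc2 B0.normalCore f ∧ lab B0.normalCore f = lab B0.normalCore f1) →
      Good (T f) := by
    rintro f hf
    refine ⟨fun σ => ?_, ?_⟩
    · obtain ⟨g, rfl⟩ := hθ σ
      rw [hT f hf]
      rcases hV1 g with h | h <;> rcases hf.1.1.sign g with h' | h' <;> rw [h, h'] <;> norm_num
    · obtain ⟨t, htB, htA, htt⟩ := exists_t hidx hf.1.2.2 hf.1.2.1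
      obtain ⟨p, hp⟩ := inv_three (θ t) (by rw [← map_mul]; exact (hker _).2 htt)
        (fun h => htA ((hker t).1 h))
      have h1 : ∀ σ, T f (σ * sw p) = (V t * (f 1 * f t)) * T f σ := by
        intro σ
        obtain ⟨g, rfl⟩ := hθ σ
        rw [← hp, ← map_mul, hT f hf, hT f hf, hVm, semi hcomm hc2 hf.1.1 htB]
        ring
      have h2 : V t * (f 1 * f t) = 1 ∨ V t * (f 1 * f t) = -1 := by
        rcases hV1 t with h | h <;> rcases hf.1.1.sign 1 with h' | h' <;>
          rcases hf.1.1.sign t with h'' | h'' <;> rw [h, h', h''] <;> norm_num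
      rcases h2 with h2 | h2
      · exact ⟨false, p, fun σ => by rw [h1, h2]; simp⟩
      · exact ⟨true, p, fun σ => by rw [h1, h2]; simp⟩
  have hback : ∀ f, (Mem hcomm hc2 B0.normalCore f ∧ lab B0.normalCore f = lab B0.normalCore f1) →
      (fun g => V g * T f (θ g)) = f := by
    intro f hf
    funext g
    rw [hT f hf]
    linear_combination (f g) * hVsq g
  intro ι _ m f hf hr
  rcases exists_wgt (E := E) θ V hV1 hVm with h0 | ⟨w, n, hw, hn, hav⟩
  · refine Finset.sum_eq_zero fun i _ => ?_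
    have h1 : D (f i) = 0 := by
      rw [← hback _ (hf i)]
      exact hH.zero _ (hsm _ (hg _ (hf i))) (h0 _)
    rw [h1, smul_zero]
  have h1 := rl_goodA hw (fun F => D fun g => V g * F (θ g)) (fun F hF => by
      have h2 := hH.neg _ (hsm F hF)
      beta_reduce
      rw [← h2]
      congr 1
      funext g
      rw [Pi.neg_apply, Pi.neg_apply, mul_neg])
    (fun F hF hsum => hH.exact (fun k g => V g * F k (θ g)) (fun k => hsm _ (hF k)) fun g => by
      rw [← Finset.mul_sum, hsum, mul_zero])
    (fun F F' hF hF' hFF => hH.congr (fun f hf => hf.neg) (hsm F hF) (hsm F' hF') fun g => by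
      rw [hav, hav, hFF])
    (fun F hF hF0 => hH.zero _ (hsm F hF) fun g => by
      rw [hav, hF0, mul_zero, mul_zero]) m (fun i => T (f i)) (fun i => hg _ (hf i)) (by
      intro σ
      obtain ⟨g, rfl⟩ := hθ σ
      have h2 := hr g
      have h3 : ∀ i, av E (f i) g = n * (V g * aw w (T (f i)) (θ g)) := by
        intro i
        conv_lhs => rw [← hback _ (hf i)]
        exact hav _ g
      have h4 : n * V g * ∑ i, m i * aw w (T (f i)) (θ g) = 0 := by
        rw [← h2, Finset.mul_sum]
        refine Finset.sum_congr rfl fun i _ => ?_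
        rw [h3]
        ring
      refine (mul_eq_zero.1 h4).resolve_left (mul_ne_zero hn ?_)
      rcases hV1 g with h | h <;> rw [h] <;> norm_num)
  rw [← h1]
  refine Finset.sum_congr rfl fun i _ => ?_
  beta_reduce
  rw [hback _ (hf i)]

/-- The relations between the members. -/
theorem rl_memA {B0 : Subgroup G} (hB0 : B0.index = 3) (hH : Hyp c E D (Sm c)) :
    RlA E D fun f => Mem hcomm hc2 B0.normalCore f := by
  refine lab_splitA hcomm hc2 (A := B0.normalCore) _ (fun f hf => ⟨hf.1, hf.2.1⟩) fun f1 hf1 => ?_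
  by_cases hinv : ∀ b, b ∈ StL B0.normalCore (lab B0.normalCore f1)
  · by_cases hne : B0 ≤ B0.normalCore
    · have h1 : B0.normalCore = B0 := le_antisymm (Subgroup.normalCore_le _) hne
      refine (rl_threeA hcomm hc2 (A := B0.normalCore) (by rw [h1]; exact hB0) hH hf1.1
        hf1.2.1).mono ?_
      rintro f ⟨hf, hl⟩
      exact ⟨⟨hf.1, hf.2.1⟩, hl⟩
    · exact rl_s3A hcomm hc2 hB0 hne hH hf1 hinv
  · -- the label is not invariant
    have key : ∀ f, Mem hcomm hc2 B0.normalCore f ∧
        lab B0.normalCore f = lab B0.normalCore f1 →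
        VV c hcomm hc2 (rst f) = StL B0.normalCore (lab B0.normalCore f1) ∧
          (StL B0.normalCore (lab B0.normalCore f1)).index = 3 := by
      rintro f ⟨hf, hl⟩
      have h1 := VV_le_StL hcomm hc2 hf.1 hf.2.1
      rw [hl] at h1
      have h2 : (StL B0.normalCore (lab B0.normalCore f1)).index ≠ 1 := by
        rw [ne_eq, Subgroup.index_eq_one]
        intro h
        exact hinv fun b => by rw [h]; exact Subgroup.mem_top b
      have h3 := Subgroup.relIndex_mul_index h1
      rcases hf.2.2 with h | h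
      · rw [h] at h3
        exact absurd (Nat.eq_one_of_mul_eq_one_left h3) h2
      · rw [h] at h3
        have h5 : (StL B0.normalCore (lab B0.normalCore f1)).index = 3 :=
          ((Nat.dvd_prime Nat.prime_three).1 (Dvd.intro_left _ h3)).resolve_left h2
        refine ⟨le_antisymm h1 ?_, h5⟩
        rw [← Subgroup.relIndex_eq_one]
        rw [h5] at h3
        omega
    have h3 : (StL B0.normalCore (lab B0.normalCore f1)).index = 3 := (key f1 ⟨hf1, rfl⟩).2
    refine lab_splitA hcomm hc2 (A := StL B0.normalCore (lab B0.normalCore f1)) _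
      (fun f hf => ⟨hf.1.1, (key f hf).1.ge⟩) fun f2 hf2 => ?_
    refine (rl_threeA hcomm hc2 h3 hH hf2.1.1 (key f2 hf2).1.ge).mono ?_
    rintro f ⟨hf, hl⟩
    exact ⟨⟨hf.1.1, (key f hf).1.ge⟩, hl⟩

/-- Functions that are invariant under the normal core of a stabilizer of index six. -/
theorem mem_of_core {f0 : G → ℤ} (hB0 : (VV c hcomm hc2 (rst f0)).index = 3) {f : G → ℤ}
    (hf : IsSign c f) (hN : (rst f0).normalCore ≤ rst f)
    (hfi : (rst f).index = 2 ∨ (rst f).index = 6) :
    Mem hcomm hc2 (VV c hcomm hc2 (rst f0)).normalCore f := by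
  have h2 := index_VV c hcomm hc2 _ (c_notMem c hf)
  have h3 : (VV c hcomm hc2 (rst f)).index = 1 ∨ (VV c hcomm hc2 (rst f)).index = 3 := by omega
  refine ⟨hf, ?_, h3⟩
  rcases h3 with h3 | h3
  · rw [Subgroup.index_eq_one] at h3
    rw [h3]
    exact le_top
  · refine le_of_sq _ _ h3 fun a ha => ?_
    have h5 : (rst f0).normalCore ≤ (VV c hcomm hc2 (rst f)).normalCore :=
      Subgroup.normal_le_normalCore.2 (hN.trans (le_VV c hcomm hc2 _))
    refine h5 fun b => ?_
    have h6 := ha b
    have h7 : b * (a * a) * b⁻¹ = (b * a * b⁻¹) * (b * a * b⁻¹) := by group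
    rw [h7]
    rcases h6 with h | h
    · exact (rst f0).mul_mem h h
    · have h8 := (rst f0).mul_mem h h
      have h9 : c * (b * a * b⁻¹) * (c * (b * a * b⁻¹)) = (b * a * b⁻¹) * (b * a * b⁻¹) := by
        generalize b * a * b⁻¹ = x
        rw [mul_assoc, ← mul_assoc x c x, ← hcomm x, mul_assoc c x x, ← mul_assoc c c, hc2, one_mul]
      rwa [h9] at h8

include hcomm hc2

/-- The relations between averages of sign functions that are invariant under the normal core of a
stabilizer of index six. -/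
theorem gam_sixA (hH : Hyp c E D (Sm c)) {f0 : G → ℤ} (hf0 : IsSign c f0)
    (hi : (rst f0).index = 6) :
    RlA E D fun f => IsSign c f ∧ (rst f0).normalCore ≤ rst f ∧
      ((rst f).index = 2 ∨ (rst f).index = 6) := by
  have h1 := index_VV c hcomm hc2 _ (c_notMem c hf0)
  have hB0 : (VV c hcomm hc2 (rst f0)).index = 3 := by omega
  refine (rl_memA hcomm hc2 hB0 hH).mono ?_
  rintro f ⟨hf, hN, hfi⟩
  exact mem_of_core hcomm hc2 hB0 hf hN hfi

/-- The relations between averages of sign functions that are invariant under the normal core of a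
stabilizer of index at most four. -/
theorem gam_fourA (hH : Hyp c E D (Sm c)) {f0 : G → ℤ} (hf0 : IsSign c f0)
    (hi : (rst f0).index ≤ 4) :
    RlA E D fun f => IsSign c f ∧ (rst f0).normalCore ≤ rst f :=
  rlA_inv hcomm hc2 _ (fun h => c_notMem c hf0 (Subgroup.normalCore_le _ h))
    (hH.mono fun f h => ⟨h.1, (index_le_four hcomm hc2 hf0 hi h.1 h.2).trans (by norm_num)⟩)

end

end Pool.Agent.R937.TZ
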