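import Pool.Agent.R937.TZ.GamA

/-!
# The relations between the averages of sign functions with stabilizers of index at most six
-/

set_option autoImplicit false
set_option linter.unusedSectionVars false
set_option linter.unusedVariables false

namespace Pool.Agent.R937.TZ

open Pool.Agent.W495.TA (IsSign)
open Pool.Agent.Y137.SF (rst mem_rst)
open Pool.Agent.R937.HZ
open Pool.Agent.R937.CS (av nD nD_pos av_left)

noncomputable section

variable {G M : Type} [Group G] [Fintype G] [AddCommGroup M] {c : G} {E : Subgroup G}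
  {D : (G → ℤ) → M}

theorem nD_card (E : Subgroup G) : nD E = (Nat.card E : ℤ) := by
  classical
  unfold nD
  rw [Finset.sum_ite, Finset.sum_const_zero, add_zero, Finset.sum_const, nsmul_one]
  congr 1
  rw [Nat.card_eq_fintype_card, ← Fintype.card_subtype]

theorem av_chi {K : Subgroup G} (hK : K.index = 2) (g : G) :
    (E ≤ K → av E (chi K) g = nD E * chi K g) ∧ (¬ E ≤ K → av E (chi K) g = 0) := by
  classical
  have h1 : av E (chi K) g = (∑ d : G, if d ∈ E then chi K d else 0) * chi K g := by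
    unfold av
    rw [Finset.sum_mul]
    refine Finset.sum_congr rfl fun d _ => ?_
    rw [chi_mul hK, ite_mul, zero_mul]
  constructor
  · intro h
    rw [h1]
    congr 1
    unfold nD
    refine Finset.sum_congr rfl fun d _ => ?_
    by_cases hd : d ∈ E
    · rw [if_pos hd, if_pos hd, chi_of_mem (h hd)]
    · rw [if_neg hd, if_neg hd]
  · intro h
    obtain ⟨d0, hd0, hd1⟩ : ∃ d ∈ E, d ∉ K := by
      by_contra hcon
      push Not at hcon
      exact h hcon
    have h2 : (∑ d : G, if d ∈ E then chi K d else 0) = -∑ d : G, if d ∈ E then chi K d else 0 := by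
      conv_lhs => rw [← Equiv.sum_comp (Equiv.mulLeft d0)]
      rw [← Finset.sum_neg_distrib]
      refine Finset.sum_congr rfl fun d _ => ?_
      rw [Equiv.coe_mulLeft, E.mul_mem_cancel_left hd0, chi_mul hK, chi_of_notMem hd1]
      split_ifs
      · ring
      · rw [neg_zero]
    have h3 : (∑ d : G, if d ∈ E then chi K d else 0) = 0 := by omega
    rw [h1, h3, zero_mul]

/-- The average of the function belongs to a character. -/
def CLK (E : Subgroup G) (K : K2 c) (k : ℤ) (f : G → ℤ) : Prop :=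
  E ≤ K.1 ∧ (k = 1 ∨ k = -1 ∨ k = 3 ∨ k = -3) ∧ ∀ g, 3 * av E f g = k * (nD E * chi K.1 g)

/-- The average of the function belongs to a character. -/
def CL (c : G) (E : Subgroup G) (f : G → ℤ) : Prop := ∃ (K : K2 c) (k : ℤ), CLK E K k f

theorem clk_chi (K : K2 c) (h : E ≤ K.1) : CLK E K 3 (chi K.1) :=
  ⟨h, by norm_num, fun g => by rw [(av_chi K.2.1 g).1 h]⟩

theorem Sm.chi (K : K2 c) : Sm c (chi K.1) := ⟨isSign_chi K, by
  rw [rst_chi K.2.1, K.2.1]
  norm_num⟩

variable (hcomm : ∀ g, c * g = g * c) (hc2 : c * c = 1)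

/-- Divisibility of the averages. -/
theorem dvd_av {A : Subgroup G} [hA : A.Normal] {f : G → ℤ} (hf : IsSign c f)
    (hAf : A ≤ VV c hcomm hc2 (rst f)) (g : G) : ((Nat.card (A.subgroupOf E) : ℕ) : ℤ) ∣ av E f g := by
  classical
  by_cases h : ∀ a : E, (a : G) ∈ A → f 1 * f (g⁻¹ * a * g) = 1
  · have h1 := Pool.Agent.R937.BR.dvd_sum (A.subgroupOf E) (fun d : E => f ((d : G) * g)) (by
      intro a a' ha'
      have h2 : (a' : G) ∈ A := Subgroup.mem_subgroupOf.1 ha'
      have h3 : g⁻¹ * (a' : G) * g ∈ A := by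
        have := hA.conj_mem a' h2 g⁻¹
        rwa [inv_inv] at this
      have h4 := semi hcomm hc2 hf (hAf h3) ((a : G) * g)
      have h5 : (a : G) * g * (g⁻¹ * (a' : G) * g) = ((a * a' : E) : G) * g := by
        rw [Subgroup.coe_mul]
        group
      rw [h5, h a' h2, one_mul] at h4
      exact h4)
    have h2 : av E f g = ∑ d : E, f ((d : G) * g) := by
      unfold av
      rw [← Finset.sum_filter]
      exact Finset.sum_subtype (Finset.univ.filter fun d => d ∈ E) (by simp) fun d => f (d * g)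
    rw [h2]
    exact h1
  · push Not at h
    obtain ⟨a, ha, h1⟩ := h
    have h3 : g⁻¹ * (a : G) * g ∈ A := by
      have := hA.conj_mem a ha g⁻¹
      rwa [inv_inv] at this
    have h2 : f 1 * f (g⁻¹ * a * g) = -1 := by
      rcases hf.sign 1 with h4 | h4 <;> rcases hf.sign (g⁻¹ * a * g) with h5 | h5 <;>
        rw [h4, h5] at h1 ⊢ <;> first | rfl | exact absurd rfl h1 | exact absurd (by norm_num) h1
    have h4 := av_semi (E := E) hcomm hc2 hf (hAf h3) g
    have h5 : g * (g⁻¹ * (a : G) * g) = (a : G) * g := by group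
    rw [h5, av_left E f a.2, h2] at h4
    have h6 : av E f g = 0 := by omega
    rw [h6]
    exact dvd_zero _

/-- Transitivity. -/
theorem trans_of_relIndex {B : Subgroup G} (hB : B.index = 3) (hr : B.relIndex E = 3) (g : G) :
    ∃ e ∈ E, g⁻¹ * e ∈ B := by
  classical
  let φ : (E ⧸ B.subgroupOf E) → G ⧸ B := Quotient.map' (fun e : E => (e : G)) (by
    intro a b hab
    rw [QuotientGroup.leftRel_apply] at hab ⊢
    exact Subgroup.mem_subgroupOf.1 hab)
  have hφ : ∀ e : E, φ (e : E ⧸ B.subgroupOf E) = ((e : G) : G ⧸ B) := fun e => rfl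
  have hinj : Function.Injective φ := by
    intro a b hab
    obtain ⟨a, rfl⟩ := QuotientGroup.mk_surjective a
    obtain ⟨b, rfl⟩ := QuotientGroup.mk_surjective b
    rw [hφ, hφ, QuotientGroup.eq] at hab
    rw [QuotientGroup.eq]
    exact Subgroup.mem_subgroupOf.2 hab
  have hcard : Nat.card (G ⧸ B) ≤ Nat.card (E ⧸ B.subgroupOf E) := by
    rw [← Subgroup.index_eq_card, ← Subgroup.index_eq_card, hB]
    exact hr.ge
  have hbij := hinj.bijective_of_nat_card_le hcard
  obtain ⟨q, hq⟩ := hbij.2 (g : G ⧸ B)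
  obtain ⟨e, rfl⟩ := QuotientGroup.mk_surjective q
  rw [hφ] at hq
  exact ⟨e, e.2, QuotientGroup.eq.1 hq.symm⟩

open Classical in
/-- The functions with values one third. -/
def sK (K B : Subgroup G) : G → ℤ := fun g => chi K g * (if g ∈ B then -1 else 1)

include hcomm hc2 in
theorem isSign_sK (K : K2 c) {B : Subgroup G} (hB : B.index = 3) : IsSign c (sK K.1 B) := by
  classical
  have hcB := c_mem_of_index_three c hcomm hc2 B hB
  refine ⟨fun g => ?_, fun g => ?_⟩
  · unfold sK
    rcases chi_sign K.1 g with h | h <;> rw [h] <;> split_ifs <;> norm_num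
  · change sK K.1 B (c * g) = -sK K.1 B g
    unfold sK
    rw [chi_mul K.2.1, chi_of_notMem K.2.2]
    by_cases h : g ∈ B
    · rw [if_pos h, if_pos (B.mul_mem hcB h)]
      ring
    · rw [if_neg h, if_neg (fun h' => h ((B.mul_mem_cancel_left hcB).1 h'))]
      ring

theorem le_rst_sK (K : K2 c) (B : Subgroup G) : K.1 ⊓ B ≤ rst (sK K.1 B) := by
  classical
  intro r hr
  rw [mem_rst]
  intro g
  unfold sK
  rw [chi_mul K.2.1, chi_of_mem hr.1, mul_one]
  congr 1
  by_cases h : g ∈ B
  · rw [if_pos h, if_pos (B.mul_mem h hr.2)]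
  · rw [if_neg h, if_neg (fun h' => h ((B.mul_mem_cancel_right hr.2).1 h'))]

include hcomm hc2 in
theorem index_sK (K : K2 c) {B : Subgroup G} (hB : B.index = 3) :
    Sm c (sK K.1 B) ∧ ((rst (sK K.1 B)).index = 2 ∨ (rst (sK K.1 B)).index = 6) := by
  have h1 : (K.1 ⊓ B).index = 6 := by
    have a1 := Subgroup.index_dvd_of_le (inf_le_left : K.1 ⊓ B ≤ K.1)
    have a2 := Subgroup.index_dvd_of_le (inf_le_right : K.1 ⊓ B ≤ B)
    have a3 := Subgroup.index_inf_le (H := K.1) (K := B)
    have a4 : (K.1 ⊓ B).index ≠ 0 := Subgroup.index_ne_zero_of_finite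
    rw [K.2.1] at a1 a3
    rw [hB] at a2 a3
    omega
  have h2 := Subgroup.index_dvd_of_le (le_rst_sK K B)
  rw [h1] at h2
  have h3 : (rst (sK K.1 B)).index ≤ 6 := Nat.le_of_dvd (by norm_num) h2
  have hs := isSign_sK hcomm hc2 K hB
  refine ⟨⟨hs, h3⟩, ?_⟩
  rcases index_cases c hcomm hc2 hs h3 with h | h | h
  · exact Or.inl h
  · rw [h] at h2
    norm_num at h2
  · exact Or.inr h

theorem av_sK (K : K2 c) {B : Subgroup G} (hE : E ≤ K.1) (hB : B.index = 3)
    (hr : B.relIndex E = 3) (g : G) : 3 * av E (sK K.1 B) g = nD E * chi K.1 g := by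
  classical
  obtain ⟨e, he, heB⟩ := trans_of_relIndex hB hr g
  have h1 : av E (sK K.1 B) g =
      chi K.1 g * (nD E - 2 * ∑ d : G, if d ∈ E ∧ d * g ∈ B then 1 else 0) := by
    unfold av nD
    rw [Finset.mul_sum, ← Finset.sum_sub_distrib, Finset.mul_sum]
    refine Finset.sum_congr rfl fun d _ => ?_
    by_cases hd : d ∈ E
    · rw [if_pos hd, if_pos hd]
      unfold sK
      rw [chi_mul K.2.1, chi_of_mem (hE hd)]
      by_cases h : d * g ∈ B
      · rw [if_pos h, if_pos ⟨hd, h⟩]
        ring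
      · rw [if_neg h, if_neg (fun h' => h h'.2)]
        ring
    · rw [if_neg hd, if_neg hd, if_neg (fun h' => hd h'.1)]
      ring
  have h2 : ∑ d : G, (if d ∈ E ∧ d * g ∈ B then (1 : ℤ) else 0) = (Nat.card (B.subgroupOf E) : ℤ) := by
    rw [← Equiv.sum_comp (Equiv.mulRight e⁻¹)]
    have h3 : ∀ d : G, (Equiv.mulRight e⁻¹ d ∈ E ∧ Equiv.mulRight e⁻¹ d * g ∈ B) ↔
        (d ∈ E ∧ d ∈ B) := by
      intro d
      rw [Equiv.coe_mulRight, E.mul_mem_cancel_right (E.inv_mem he)]
      have h4 : d * e⁻¹ * g = d * (g⁻¹ * e)⁻¹ := by group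
      rw [h4, B.mul_mem_cancel_right (B.inv_mem heB)]
    have h5 : ∑ d : G, (if Equiv.mulRight e⁻¹ d ∈ E ∧ Equiv.mulRight e⁻¹ d * g ∈ B then (1 : ℤ)
        else 0) = ∑ d : G, (if d ∈ E ∧ d ∈ B then (1 : ℤ) else 0) :=
      Finset.sum_congr rfl fun d _ => if_congr (h3 d) rfl rfl
    rw [h5, ← nD_card]
    have h6 : ∑ d : E, (if d ∈ B.subgroupOf E then (1 : ℤ) else 0) =
        ∑ d : G, (if d ∈ E ∧ d ∈ B then (1 : ℤ) else 0) := by
      have h7 : ∀ d : G, (if d ∈ E ∧ d ∈ B then (1 : ℤ) else 0) =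
          if d ∈ E then (if d ∈ B then 1 else 0) else 0 := by
        intro d
        by_cases h : d ∈ E <;> by_cases h' : d ∈ B <;> simp [h, h']
      have h8 : ∑ d : G, (if d ∈ E then (if d ∈ B then (1 : ℤ) else 0) else 0) =
          ∑ d : E, (if (d : G) ∈ B then (1 : ℤ) else 0) := by
        rw [← Finset.sum_filter]
        exact Finset.sum_subtype (Finset.univ.filter fun d => d ∈ E) (p := fun d => d ∈ E)
          (by simp) fun d => if d ∈ B then (1 : ℤ) else 0
      rw [Finset.sum_congr rfl fun d _ => h7 d, h8]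
      refine Finset.sum_congr rfl fun d _ => ?_
      by_cases h : (d : G) ∈ B
      · rw [if_pos h, if_pos (Subgroup.mem_subgroupOf.2 h)]
      · rw [if_neg h, if_neg (fun h' => h (Subgroup.mem_subgroupOf.1 h'))]
    rw [← h6]
    rfl
  have h3 : nD E = 3 * (Nat.card (B.subgroupOf E) : ℤ) := by
    rw [nD_card]
    have h4 := Subgroup.index_mul_card (B.subgroupOf E)
    have h5 : (B.subgroupOf E).index = 3 := hr
    rw [h5] at h4
    exact_mod_cast h4.symm
  rw [h1, h2, h3]
  ring

/-- The two cases. -/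
theorem rel_three {B0 : Subgroup G} (hB0 : B0.index = 3)
    (h3 : 3 ∣ B0.normalCore.relIndex E) : B0.relIndex E = 3 := by
  classical
  have hidx : B0.normalCore.relIndex B0 ≤ 2 := by
    by_cases hne : B0 ≤ B0.normalCore
    · have h1 : B0.normalCore.relIndex B0 = 1 := Subgroup.relIndex_eq_one.2 hne
      omega
    · obtain ⟨-, -, -, h6⟩ := exists_theta B0 hB0 hne
      have h1 := Subgroup.relIndex_mul_index (Subgroup.normalCore_le B0)
      rw [h6, hB0] at h1
      omega
  have h1 : (B0.normalCore ⊓ E).relIndex (B0 ⊓ E) * (B0 ⊓ E).relIndex E =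
      (B0.normalCore ⊓ E).relIndex E :=
    Subgroup.relIndex_mul_relIndex _ _ _ (inf_le_inf_right E (Subgroup.normalCore_le B0))
      inf_le_right
  rw [Subgroup.inf_relIndex_right, Subgroup.inf_relIndex_right] at h1
  have h2 : (B0.normalCore ⊓ E).relIndex (B0 ⊓ E) = B0.normalCore.relIndex (B0 ⊓ E) := by
    rw [← Subgroup.inf_relIndex_right (B0.normalCore ⊓ E), ← Subgroup.inf_relIndex_right
      B0.normalCore]
    congr 1
    ext x
    simp only [Subgroup.mem_inf]
    tauto
  rw [h2] at h1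
  have h4 : B0.normalCore.relIndex (B0 ⊓ E) ≤ 2 :=
    (Subgroup.relIndex_le_of_le_right inf_le_left (Subgroup.index_ne_zero_of_finite
      (H := B0.normalCore.subgroupOf B0))).trans hidx
  have h5 : B0.relIndex E ≤ 3 := by
    rw [← hB0, ← Subgroup.relIndex_top_right]
    exact Subgroup.relIndex_le_of_le_right le_top (Subgroup.index_ne_zero_of_finite
      (H := B0.subgroupOf ⊤))
  rw [← h1] at h3
  have h6 : B0.normalCore.relIndex (B0 ⊓ E) ≠ 0 :=
    Subgroup.index_ne_zero_of_finite (H := B0.normalCore.subgroupOf (B0 ⊓ E))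
  have h7 : B0.relIndex E ≠ 0 := Subgroup.index_ne_zero_of_finite (H := B0.subgroupOf E)
  rcases (Nat.Prime.dvd_mul Nat.prime_three).1 h3 with h8 | h8
  · have := Nat.le_of_dvd (Nat.pos_of_ne_zero h6) h8
    omega
  · have := Nat.le_of_dvd (Nat.pos_of_ne_zero h7) h8
    omega

/-- Representatives of the cosets. -/
theorem exists_three (K : K2 c) {B : Subgroup G} (hE : E ≤ K.1) (hB : B.index = 3)
    (hr : B.relIndex E = 3) :
    ∃ e : Fin 3 → G, (∀ i, e i ∈ E) ∧ ∀ g, ∑ i, sK K.1 B ((e i)⁻¹ * g) = chi K.1 g := by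
  classical
  have hc : Nat.card (E ⧸ B.subgroupOf E) = 3 := hr
  let φ : Fin 3 ≃ E ⧸ B.subgroupOf E := (Finite.equivFinOfCardEq hc).symm
  refine ⟨fun i => ((φ i).out : E), fun i => ((φ i).out : E).2, fun g => ?_⟩
  obtain ⟨d, hd, hdB⟩ := trans_of_relIndex hB hr g
  have key : ∀ i, (((φ i).out : E) : G)⁻¹ * g ∈ B ↔ i = φ.symm ((⟨d, hd⟩ : E) : E ⧸ B.subgroupOf E) := by
    intro i
    rw [Equiv.eq_symm_apply]
    conv_rhs => rw [← QuotientGroup.out_eq' (φ i), QuotientGroup.eq]
    rw [Subgroup.mem_subgroupOf]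
    have h1 : ((((φ i).out)⁻¹ * (⟨d, hd⟩ : E) : E) : G) =
        ((((φ i).out : E) : G)⁻¹ * g) * (g⁻¹ * d) := by
      rw [Subgroup.coe_mul, Subgroup.coe_inv]
      group
    rw [h1, B.mul_mem_cancel_right hdB]
  have h2 : ∀ i : Fin 3, sK K.1 B ((((φ i).out : E) : G)⁻¹ * g) = chi K.1 g *
      (1 - 2 * if i = φ.symm ((⟨d, hd⟩ : E) : E ⧸ B.subgroupOf E) then 1 else 0) := by
    intro i
    unfold sK
    rw [chi_mul K.2.1, chi_of_mem (K.1.inv_mem (hE ((φ i).out).2)), one_mul]
    congr 1
    by_cases h : i = φ.symm ((⟨d, hd⟩ : E) : E ⧸ B.subgroupOf E)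
    · rw [if_pos h, if_pos ((key i).2 h)]
      norm_num
    · rw [if_neg h, if_neg (fun h' => h ((key i).1 h'))]
      norm_num
  rw [Finset.sum_congr rfl fun i _ => h2 i, ← Finset.mul_sum, Finset.sum_sub_distrib,
    ← Finset.mul_sum, Finset.sum_ite_eq' Finset.univ, if_pos (Finset.mem_univ _)]
  norm_num

include hcomm in
theorem Sm.trans {f : G → ℤ} (hf : Sm c f) (e : G) : Sm c fun g => f (e⁻¹ * g) := by
  refine ⟨⟨fun g => hf.1.sign _, fun g => ?_⟩, ?_⟩
  · change f (e⁻¹ * (c * g)) = -f (e⁻¹ * g)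
    have h1 : e⁻¹ * (c * g) = c * (e⁻¹ * g) := by rw [← mul_assoc, ← hcomm, mul_assoc]
    rw [h1]
    exact hf.1.odd _
  · have h1 : rst f ≤ rst fun g => f (e⁻¹ * g) := by
      intro r hr
      rw [mem_rst]
      intro g
      beta_reduce
      rw [← mul_assoc]
      exact hr _
    exact (Nat.le_of_dvd (Nat.pos_of_ne_zero Subgroup.index_ne_zero_of_finite)
      (Subgroup.index_dvd_of_le h1)).trans hf.2

include hcomm hc2 in
/-- A function whose average is a third of a character. -/
theorem third (hH : Hyp c E D (Sm c)) (K : K2 c) (hK : E ≤ K.1) {u : G → ℤ} (hu : Sm c u)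
    (hav : ∀ g, 3 * av E u g = nD E * chi K.1 g) : D (chi K.1) = (3 : ℤ) • D u := by
  classical
  have hpos := nD_pos E
  have h1 := hav 1
  rw [chi_of_mem K.1.one_mem, mul_one] at h1
  have h4 : ¬ (rst u).index ≤ 4 := by
    intro h4
    rcases Pool.Agent.R937.CS.av_values E c hcomm hu.1 h4 1 with h2 | h2 | h2 <;> rw [h2] at h1 <;>
      omega
  have h6 : (rst u).index = 6 := by
    rcases index_cases c hcomm hc2 hu.1 hu.2 with h | h | h <;> omega
  have hV := index_VV c hcomm hc2 _ (c_notMem c hu.1)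
  have hB0 : (VV c hcomm hc2 (rst u)).index = 3 := by omega
  set B0 : Subgroup G := VV c hcomm hc2 (rst u) with hB0def
  have hr3 : B0.relIndex E = 3 := by
    refine rel_three hB0 ?_
    obtain ⟨w, hw⟩ := dvd_av (E := E) hcomm hc2 hu.1 (Subgroup.normalCore_le B0) 1
    have h5 : nD E = (Nat.card (B0.normalCore.subgroupOf E) : ℤ) *
        (B0.normalCore.relIndex E : ℤ) := by
      rw [nD_card]
      have h7 := Subgroup.index_mul_card (B0.normalCore.subgroupOf E)
      change B0.normalCore.relIndex E * _ = _ at h7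
      rw [mul_comm]
      exact_mod_cast h7.symm
    have h7 : (Nat.card (B0.normalCore.subgroupOf E) : ℤ) ≠ 0 := by
      exact_mod_cast Nat.card_pos.ne'
    rw [hw, h5] at h1
    have h8 : (3 : ℤ) * w = (B0.normalCore.relIndex E : ℤ) := by
      refine mul_left_cancel₀ h7 ?_
      linarith
    exact_mod_cast (Dvd.intro w h8 : (3 : ℤ) ∣ (B0.normalCore.relIndex E : ℤ))
  obtain ⟨e, he, hsum⟩ := exists_three K hK hB0 hr3
  obtain ⟨hs, -⟩ := index_sK hcomm hc2 K hB0
  have hneg : ∀ f, Sm c f → Sm c (-f) := fun f hf => hf.neg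
  have hse : ∀ i, Sm c fun g => sK K.1 B0 ((e i)⁻¹ * g) := fun i => Sm.trans hcomm hs (e i)
  have hDe : ∀ i, D (fun g => sK K.1 B0 ((e i)⁻¹ * g)) = D u := by
    intro i
    refine hH.congr hneg (hse i) hu fun x => ?_
    rw [av_trans E _ (he i)]
    have h9 := av_sK K hK hB0 hr3 x
    have h10 := hav x
    linarith
  have h11 := hH.exact ![chi K.1, -fun g => sK K.1 B0 ((e 0)⁻¹ * g),
    -fun g => sK K.1 B0 ((e 1)⁻¹ * g), -fun g => sK K.1 B0 ((e 2)⁻¹ * g)] (by
    intro k
    fin_cases k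
    · exact Sm.chi K
    · exact hneg _ (hse 0)
    · exact hneg _ (hse 1)
    · exact hneg _ (hse 2)) fun x => by
    rw [Fin.sum_univ_four]
    change chi K.1 x + -sK K.1 B0 ((e 0)⁻¹ * x) + -sK K.1 B0 ((e 1)⁻¹ * x) +
      -sK K.1 B0 ((e 2)⁻¹ * x) = 0
    have h12 := hsum x
    rw [Fin.sum_univ_three] at h12
    linarith
  rw [Fin.sum_univ_four] at h11
  change D (chi K.1) + D (-fun g => sK K.1 B0 ((e 0)⁻¹ * g)) +
    D (-fun g => sK K.1 B0 ((e 1)⁻¹ * g)) + D (-fun g => sK K.1 B0 ((e 2)⁻¹ * g)) = 0 at h11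
  rw [hH.neg _ (hse 0), hH.neg _ (hse 1), hH.neg _ (hse 2), hDe, hDe, hDe] at h11
  linear_combination (norm := module) h11

include hcomm hc2

/-- The classes of functions that belong to a character. -/
theorem clk_class (hH : Hyp c E D (Sm c)) (K : K2 c) (hK : E ≤ K.1) :
    ∃ (e : ℤ) (W : M), e ≠ 0 ∧ ∀ f, Sm c f → ∀ k, CLK E K k f → ∃ l : ℤ, k = e * l ∧ D f = l • W := by
  classical
  have hneg : ∀ f, Sm c f → Sm c (-f) := fun f hf => hf.neg
  by_cases hu : ∃ u, Sm c u ∧ ∀ g, 3 * av E u g = nD E * chi K.1 g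
  · obtain ⟨u, hu1, hu2⟩ := hu
    have three : ∀ f, Sm c f → (∀ g, av E f g = 3 * av E u g) → D f = (3 : ℤ) • D u := by
      intro f hf hfu
      have h1 : D f = D (chi K.1) := hH.congr hneg hf (Sm.chi K) fun x => by
        rw [(av_chi K.2.1 x).1 hK, hfu]
        exact hu2 x
      rw [h1]
      exact third hcomm hc2 hH K hK hu1 hu2
    refine ⟨1, D u, one_ne_zero, fun f hf k hk => ⟨k, (one_mul k).symm, ?_⟩⟩
    obtain ⟨-, hk1, hk2⟩ := hk
    rcases hk1 with rfl | rfl | rfl | rfl
    · rw [one_smul]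
      exact hH.congr hneg hf hu1 fun x => by have := hk2 x; have := hu2 x; linarith
    · rw [neg_one_smul, ← hH.neg _ hu1]
      exact hH.congr hneg hf (hneg _ hu1) fun x => by
        rw [av_neg]
        have := hk2 x
        have := hu2 x
        linarith
    · exact three f hf fun g => by
        have := hk2 g
        have := hu2 g
        linarith
    · have h1 := three (-f) (hneg _ hf) fun g => by
        rw [av_neg]
        have := hk2 g
        have := hu2 g
        linarith
      rw [hH.neg _ hf] at h1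
      linear_combination (norm := module) -h1
  · have hno : ∀ f, Sm c f → ∀ k, CLK E K k f → k = 3 ∨ k = -3 := by
      rintro f hf k ⟨-, hk1, hk2⟩
      rcases hk1 with rfl | rfl | h | h
      · exact absurd ⟨f, hf, fun g => by rw [hk2, one_mul]⟩ hu
      · exact absurd ⟨-f, hneg _ hf, fun g => by
          rw [av_neg]
          have := hk2 g
          linarith⟩ hu
      · exact Or.inl h
      · exact Or.inr h
    refine ⟨3, D (chi K.1), by norm_num, fun f hf k hk => ?_⟩
    rcases hno f hf k hk with rfl | rfl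
    · refine ⟨1, by norm_num, ?_⟩
      rw [one_smul]
      exact hH.congr hneg hf (Sm.chi K) fun x => by
        have h1 := hk.2.2 x
        rw [(av_chi K.2.1 x).1 hK]
        linarith
    · refine ⟨-1, by norm_num, ?_⟩
      rw [neg_one_smul, ← hH.neg _ (Sm.chi K)]
      exact hH.congr hneg hf (hneg _ (Sm.chi K)) fun x => by
        have h1 := hk.2.2 x
        rw [av_neg, (av_chi K.2.1 x).1 hK]
        linarith

/-- The relations between functions that belong to characters. -/
theorem rl_cl (hH : Hyp c E D (Sm c)) : RlA E D fun f => Sm c f ∧ CL c E f := by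
  classical
  intro ι _ m f hf hr
  choose K k hk using fun i => (hf i).2
  have hind : ∀ K0 : K2 c, ∑ i with K i = K0, m i * k i = 0 := by
    intro K0
    refine chi_indep (c := c) ℤ (by norm_num) (fun K0 => ∑ i with K i = K0, m i * k i)
      (fun g => ?_) K0
    have h1 : nD E * ∑ K0 : K2 c, (∑ i with K i = K0, m i * k i) * ((chi K0.1 g : ℤ) : ℤ) = 0 := by
      have h2 : ∀ K0 : K2 c, (∑ i with K i = K0, m i * k i) * ((chi K0.1 g : ℤ) : ℤ) =
          ∑ i with K i = K0, m i * k i * chi (K i).1 g := by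
        intro K0
        rw [Finset.sum_mul]
        refine Finset.sum_congr rfl fun i hi => ?_
        rw [(Finset.mem_filter.1 hi).2]
      rw [Finset.sum_congr rfl fun K0 _ => h2 K0,
        Finset.sum_fiberwise (Finset.univ : Finset ι) K fun i => m i * k i * chi (K i).1 g,
        Finset.mul_sum]
      have h3 : ∀ i, nD E * (m i * k i * chi (K i).1 g) = 3 * (m i * av E (f i) g) := by
        intro i
        have := (hk i).2.2 g
        linear_combination (-(m i)) * this
      rw [Finset.sum_congr rfl fun i _ => h3 i, ← Finset.mul_sum, hr, mul_zero]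
    exact (mul_eq_zero.1 h1).resolve_left (nD_pos E).ne'
  rw [← Finset.sum_fiberwise (Finset.univ : Finset ι) K fun i => m i • D (f i)]
  refine Finset.sum_eq_zero fun K0 _ => ?_
  by_cases hE : E ≤ K0.1
  · obtain ⟨e, W, he, hW⟩ := clk_class hcomm hc2 hH K0 hE
    have h1 : ∀ i, ∃ l : ℤ, K i = K0 → k i = e * l ∧ D (f i) = l • W := by
      intro i
      by_cases h : K i = K0
      · obtain ⟨l, h2, h3⟩ := hW (f i) (hf i).1 (k i) (h ▸ hk i)
        exact ⟨l, fun _ => ⟨h2, h3⟩⟩
      · exact ⟨0, fun h' => absurd h' h⟩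
    choose l hl using h1
    have h2 : ∑ i with K i = K0, m i * l i = 0 := by
      have h3 : e * ∑ i with K i = K0, m i * l i = 0 := by
        rw [← hind K0, Finset.mul_sum]
        refine Finset.sum_congr rfl fun i hi => ?_
        rw [(hl i (Finset.mem_filter.1 hi).2).1]
        ring
      exact (mul_eq_zero.1 h3).resolve_left he
    rw [Finset.sum_congr rfl fun i hi => by
      rw [(hl i (Finset.mem_filter.1 hi).2).2, ← mul_smul], ← Finset.sum_smul, h2, zero_smul]
  · refine Finset.sum_eq_zero fun i hi => absurd ?_ hE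
    rw [← (Finset.mem_filter.1 hi).2]
    exact (hk i).1

end

end Pool.Agent.R937.TZ
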