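import Pool.Agent.R937.HZ.S3

/-!
# Relations between averages of good functions on the symmetric group of degree three
-/

set_option autoImplicit false
set_option linter.unusedSectionVars false
set_option linter.unusedVariables false

namespace Pool.Agent.R937.TZ

open Pool.Agent.R937.HZ

/-- A permutation of order three. -/
def rr : P3 := sw 0 * sw 1

/-- The averages over a subgroup of order two. -/
def Ap (p : Fin 3) (e : ℤ) (F : P3 → ℤ) (σ : P3) : ℤ := F σ + e * F (sw p * σ)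

/-- The averages over the subgroup of order three. -/
def AA (F : P3 → ℤ) (σ : P3) : ℤ := F σ + F (rr * σ) + F (rr * rr * σ)

/-- The averages over the whole group. -/
def AS (e : ℤ) (F : P3 → ℤ) (σ : P3) : ℤ :=
  F σ + F (rr * σ) + F (rr * rr * σ) + e * (F (sw 0 * σ) + F (sw 1 * σ) + F (sw 2 * σ))

variable {M : Type} [AddCommGroup M]

theorem exists_cmb (D : (P3 → ℤ) → M) (hneg : ∀ F, Good F → D (-F) = -D F)
    (h4 : ∀ F : Fin 4 → P3 → ℤ, (∀ k, Good (F k)) → (∀ x, ∑ k, F k x = 0) → ∑ k, D (F k) = 0)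
    (F : P3 → ℤ) (hF : Good F) : ∃ n, Cmb D F n := by
  obtain ⟨hU, hT⟩ := cmb_all D hneg h4
  have hn : ∀ F', Good F' → (∃ n, Cmb D F' n) → ∃ n, Cmb D (-F') n := by
    rintro F' hF' ⟨n, h1, h2⟩
    refine ⟨-n, fun σ => ?_, ?_⟩
    · rw [Pi.neg_apply, h1, ← Finset.sum_neg_distrib]
      exact Finset.sum_congr rfl fun k _ => by rw [Pi.neg_apply, neg_mul]
    · rw [hneg _ hF', h2, ← Finset.sum_neg_distrib]
      exact Finset.sum_congr rfl fun k _ => by rw [Pi.neg_apply, neg_smul]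
  rcases good_cases hF with ⟨b, h | h⟩ | ⟨b, p, i, h | h⟩
  · rw [h]
    exact hU b
  · rw [h]
    exact hn _ (good_UU b) (hU b)
  · rw [h]
    exact hT b p i
  · rw [h]
    exact hn _ (good_TT b p i) (hT b p i)

/-- The coordinates. -/
theorem dco (D : (P3 → ℤ) → M) (hneg : ∀ F, Good F → D (-F) = -D F)
    (h4 : ∀ F : Fin 4 → P3 → ℤ, (∀ k, Good (F k)) → (∀ x, ∑ k, F k x = 0) → ∑ k, D (F k) = 0)
    (F : P3 → ℤ) (hF : Good F) (n : Fin 6 → ℤ) (hn : ∀ σ, F σ = ∑ k, n k * BB k σ) :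
    D F = ∑ k, n k • D (BB k) := by
  obtain ⟨n', h1, h2⟩ := exists_cmb D hneg h4 F hF
  have h3 : n - n' = 0 := indep D hneg h4 (n - n') fun σ => by
    have h5 := hn σ
    rw [h1 σ] at h5
    rw [Finset.sum_congr rfl fun k _ => by rw [Pi.sub_apply, sub_mul], Finset.sum_sub_distrib, h5,
      sub_self]
  rw [h2, sub_eq_zero.1 h3]

theorem ker_P0p (D : (P3 → ℤ) → M) (hneg : ∀ F, Good F → D (-F) = -D F)
    (h4 : ∀ F : Fin 4 → P3 → ℤ, (∀ k, Good (F k)) → (∀ x, ∑ k, F k x = 0) → ∑ k, D (F k) = 0)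
    (hc : ∀ F F', Good F → Good F' → (∀ σ, Ap 0 (1) F σ = Ap 0 (1) F' σ) → D F = D F')
    (hz : ∀ F, Good F → (∀ σ, Ap 0 (1) F σ = 0) → D F = 0) (N : Fin 6 → ℤ)
    (hN : ∀ σ, ∑ k, N k * Ap 0 (1) (BB k) σ = 0) : ∑ k, N k • D (BB k) = 0 := by
  have e0 := hN (1)
  rw [Fin.sum_univ_six,
    show Ap 0 (1) (BB 0) (1) = -2 from by decide,
    show Ap 0 (1) (BB 1) (1) = 0 from by decide,
    show Ap 0 (1) (BB 2) (1) = 0 from by decide,
    show Ap 0 (1) (BB 3) (1) = 0 from by decide,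
    show Ap 0 (1) (BB 4) (1) = 0 from by decide,
    show Ap 0 (1) (BB 5) (1) = 0 from by decide] at e0
  have e1 := hN (sw 1)
  rw [Fin.sum_univ_six,
    show Ap 0 (1) (BB 0) (sw 1) = 2 from by decide,
    show Ap 0 (1) (BB 1) (sw 1) = 0 from by decide,
    show Ap 0 (1) (BB 2) (sw 1) = 2 from by decide,
    show Ap 0 (1) (BB 3) (sw 1) = 2 from by decide,
    show Ap 0 (1) (BB 4) (sw 1) = 0 from by decide,
    show Ap 0 (1) (BB 5) (sw 1) = 0 from by decide] at e1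
  have e2 := hN (sw 2)
  rw [Fin.sum_univ_six,
    show Ap 0 (1) (BB 0) (sw 2) = 2 from by decide,
    show Ap 0 (1) (BB 1) (sw 2) = 2 from by decide,
    show Ap 0 (1) (BB 2) (sw 2) = 0 from by decide,
    show Ap 0 (1) (BB 3) (sw 2) = 0 from by decide,
    show Ap 0 (1) (BB 4) (sw 2) = 2 from by decide,
    show Ap 0 (1) (BB 5) (sw 2) = 0 from by decide] at e2
  have r0 := (dco D hneg h4 (TT true 0 0) (good_TT _ _ _) ![0, 0, 0, 0, 0, 1] (by decide)).symm.trans (hz _ (good_TT _ _ _) (by decide))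
  rw [Fin.sum_univ_six] at r0
  simp only [Matrix.cons_val] at r0
  have r1 := (dco D hneg h4 (TT false 1 1) (good_TT _ _ _) ![0, 0, 0, 0, 1, 0] (by decide)).symm.trans ((hc _ _ (good_TT _ _ _) (good_TT _ _ _) (by decide)).trans (dco D hneg h4 (TT false 1 2) (good_TT _ _ _) ![0, 1, 0, 0, 0, 0] (by decide)))
  rw [Fin.sum_univ_six, Fin.sum_univ_six] at r1
  simp only [Matrix.cons_val] at r1
  have r2 := (dco D hneg h4 (TT false 2 1) (good_TT _ _ _) ![0, 0, 1, 0, 0, 0] (by decide)).symm.trans ((hc _ _ (good_TT _ _ _) (good_TT _ _ _) (by decide)).trans (dco D hneg h4 (TT false 2 2) (good_TT _ _ _) ![0, 0, 0, 1, 0, 0] (by decide)))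
  rw [Fin.sum_univ_six, Fin.sum_univ_six] at r2
  simp only [Matrix.cons_val] at r2
  have n0 : N 0 = 0 := by omega
  have n3 : N 3 = (-1) * ((1) * N 2) := by omega
  have n4 : N 4 = (1) * ((-1) * N 1) := by omega
  rw [Fin.sum_univ_six, n0, n3, n4]
  linear_combination (norm := module) ((1) * N 5) • r0 + ((-1) * N 1) • r1 + ((1) * N 2) • r2

theorem ker_P0m (D : (P3 → ℤ) → M) (hneg : ∀ F, Good F → D (-F) = -D F)
    (h4 : ∀ F : Fin 4 → P3 → ℤ, (∀ k, Good (F k)) → (∀ x, ∑ k, F k x = 0) → ∑ k, D (F k) = 0)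
    (hc : ∀ F F', Good F → Good F' → (∀ σ, Ap 0 (-1) F σ = Ap 0 (-1) F' σ) → D F = D F')
    (hz : ∀ F, Good F → (∀ σ, Ap 0 (-1) F σ = 0) → D F = 0) (N : Fin 6 → ℤ)
    (hN : ∀ σ, ∑ k, N k * Ap 0 (-1) (BB k) σ = 0) : ∑ k, N k • D (BB k) = 0 := by
  have e0 := hN (1)
  rw [Fin.sum_univ_six,
    show Ap 0 (-1) (BB 0) (1) = 0 from by decide,
    show Ap 0 (-1) (BB 1) (1) = 2 from by decide,
    show Ap 0 (-1) (BB 2) (1) = 2 from by decide,
    show Ap 0 (-1) (BB 3) (1) = -2 from by decide,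
    show Ap 0 (-1) (BB 4) (1) = -2 from by decide,
    show Ap 0 (-1) (BB 5) (1) = -2 from by decide] at e0
  have e1 := hN (sw 1)
  rw [Fin.sum_univ_six,
    show Ap 0 (-1) (BB 0) (sw 1) = 0 from by decide,
    show Ap 0 (-1) (BB 1) (sw 1) = 2 from by decide,
    show Ap 0 (-1) (BB 2) (sw 1) = 0 from by decide,
    show Ap 0 (-1) (BB 3) (sw 1) = 0 from by decide,
    show Ap 0 (-1) (BB 4) (sw 1) = -2 from by decide,
    show Ap 0 (-1) (BB 5) (sw 1) = -2 from by decide] at e1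
  have e2 := hN (sw 2)
  rw [Fin.sum_univ_six,
    show Ap 0 (-1) (BB 0) (sw 2) = 0 from by decide,
    show Ap 0 (-1) (BB 1) (sw 2) = 0 from by decide,
    show Ap 0 (-1) (BB 2) (sw 2) = 2 from by decide,
    show Ap 0 (-1) (BB 3) (sw 2) = -2 from by decide,
    show Ap 0 (-1) (BB 4) (sw 2) = 0 from by decide,
    show Ap 0 (-1) (BB 5) (sw 2) = -2 from by decide] at e2
  have r0 := (dco D hneg h4 (TT false 0 0) (good_TT _ _ _) ![1, 0, 0, 0, 0, 0] (by decide)).symm.trans (hz _ (good_TT _ _ _) (by decide))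
  rw [Fin.sum_univ_six] at r0
  simp only [Matrix.cons_val] at r0
  have q1 : D (TT false 1 1) = D (-TT false 1 2) := hc _ _ (good_TT _ _ _) (Good.neg (good_TT _ _ _)) (by decide)
  rw [hneg _ (good_TT _ _ _), dco D hneg h4 (TT false 1 1) (good_TT _ _ _) ![0, 0, 0, 0, 1, 0] (by decide), dco D hneg h4 (TT false 1 2) (good_TT _ _ _) ![0, 1, 0, 0, 0, 0] (by decide)] at q1
  rw [Fin.sum_univ_six, Fin.sum_univ_six] at q1
  have r1 := q1
  simp only [Matrix.cons_val] at r1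
  have q2 : D (TT false 2 1) = D (-TT false 2 2) := hc _ _ (good_TT _ _ _) (Good.neg (good_TT _ _ _)) (by decide)
  rw [hneg _ (good_TT _ _ _), dco D hneg h4 (TT false 2 1) (good_TT _ _ _) ![0, 0, 1, 0, 0, 0] (by decide), dco D hneg h4 (TT false 2 2) (good_TT _ _ _) ![0, 0, 0, 1, 0, 0] (by decide)] at q2
  rw [Fin.sum_univ_six, Fin.sum_univ_six] at q2
  have r2 := q2
  simp only [Matrix.cons_val] at r2
  have n3 : N 3 = (1) * ((1) * N 2) := by omega
  have n4 : N 4 = (1) * ((1) * N 1) := by omega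
  have n5 : N 5 = 0 := by omega
  rw [Fin.sum_univ_six, n3, n4, n5]
  linear_combination (norm := module) ((1) * N 0) • r0 + ((1) * N 1) • r1 + ((1) * N 2) • r2

theorem ker_P1p (D : (P3 → ℤ) → M) (hneg : ∀ F, Good F → D (-F) = -D F)
    (h4 : ∀ F : Fin 4 → P3 → ℤ, (∀ k, Good (F k)) → (∀ x, ∑ k, F k x = 0) → ∑ k, D (F k) = 0)
    (hc : ∀ F F', Good F → Good F' → (∀ σ, Ap 1 (1) F σ = Ap 1 (1) F' σ) → D F = D F')
    (hz : ∀ F, Good F → (∀ σ, Ap 1 (1) F σ = 0) → D F = 0) (N : Fin 6 → ℤ)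
    (hN : ∀ σ, ∑ k, N k * Ap 1 (1) (BB k) σ = 0) : ∑ k, N k • D (BB k) = 0 := by
  have e0 := hN (1)
  rw [Fin.sum_univ_six,
    show Ap 1 (1) (BB 0) (1) = 0 from by decide,
    show Ap 1 (1) (BB 1) (1) = 2 from by decide,
    show Ap 1 (1) (BB 2) (1) = 2 from by decide,
    show Ap 1 (1) (BB 3) (1) = 0 from by decide,
    show Ap 1 (1) (BB 4) (1) = -2 from by decide,
    show Ap 1 (1) (BB 5) (1) = -2 from by decide] at e0
  have e1 := hN (sw 0)
  rw [Fin.sum_univ_six,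
    show Ap 1 (1) (BB 0) (sw 0) = 0 from by decide,
    show Ap 1 (1) (BB 1) (sw 0) = 0 from by decide,
    show Ap 1 (1) (BB 2) (sw 0) = -2 from by decide,
    show Ap 1 (1) (BB 3) (sw 0) = 2 from by decide,
    show Ap 1 (1) (BB 4) (sw 0) = 2 from by decide,
    show Ap 1 (1) (BB 5) (sw 0) = 2 from by decide] at e1
  have e2 := hN (sw 2)
  rw [Fin.sum_univ_six,
    show Ap 1 (1) (BB 0) (sw 2) = 2 from by decide,
    show Ap 1 (1) (BB 1) (sw 2) = 0 from by decide,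
    show Ap 1 (1) (BB 2) (sw 2) = 2 from by decide,
    show Ap 1 (1) (BB 3) (sw 2) = 0 from by decide,
    show Ap 1 (1) (BB 4) (sw 2) = 2 from by decide,
    show Ap 1 (1) (BB 5) (sw 2) = 0 from by decide] at e2
  have r0 := (dco D hneg h4 (TT true 0 1) (good_TT _ _ _) ![0, 1, 0, -1, 0, 1] (by decide)).symm.trans (hz _ (good_TT _ _ _) (by decide))
  rw [Fin.sum_univ_six] at r0
  simp only [Matrix.cons_val] at r0
  have r1 := (dco D hneg h4 (TT true 1 1) (good_TT _ _ _) ![1, 0, 0, 0, -1, 1] (by decide)).symm.trans (hz _ (good_TT _ _ _) (by decide))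
  rw [Fin.sum_univ_six] at r1
  simp only [Matrix.cons_val] at r1
  have r2 := (dco D hneg h4 (TT true 2 1) (good_TT _ _ _) ![-1, 0, 1, 0, 0, 1] (by decide)).symm.trans (hz _ (good_TT _ _ _) (by decide))
  rw [Fin.sum_univ_six] at r2
  simp only [Matrix.cons_val] at r2
  have n3 : N 3 = (-1) * ((1) * N 1) := by omega
  have n4 : N 4 = (-1) * ((1) * N 0 + (1) * N 2) := by omega
  have n5 : N 5 = (1) * ((1) * N 1) + (1) * ((1) * N 0 + (1) * N 2) + (1) * ((1) * N 2) := by omega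
  rw [Fin.sum_univ_six, n3, n4, n5]
  linear_combination (norm := module) ((1) * N 1) • r0 + ((1) * N 0 + (1) * N 2) • r1 + ((1) * N 2) • r2

theorem ker_P1m (D : (P3 → ℤ) → M) (hneg : ∀ F, Good F → D (-F) = -D F)
    (h4 : ∀ F : Fin 4 → P3 → ℤ, (∀ k, Good (F k)) → (∀ x, ∑ k, F k x = 0) → ∑ k, D (F k) = 0)
    (hc : ∀ F F', Good F → Good F' → (∀ σ, Ap 1 (-1) F σ = Ap 1 (-1) F' σ) → D F = D F')
    (hz : ∀ F, Good F → (∀ σ, Ap 1 (-1) F σ = 0) → D F = 0) (N : Fin 6 → ℤ)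
    (hN : ∀ σ, ∑ k, N k * Ap 1 (-1) (BB k) σ = 0) : ∑ k, N k • D (BB k) = 0 := by
  have e0 := hN (1)
  rw [Fin.sum_univ_six,
    show Ap 1 (-1) (BB 0) (1) = -2 from by decide,
    show Ap 1 (-1) (BB 1) (1) = 0 from by decide,
    show Ap 1 (-1) (BB 2) (1) = 0 from by decide,
    show Ap 1 (-1) (BB 3) (1) = -2 from by decide,
    show Ap 1 (-1) (BB 4) (1) = 0 from by decide,
    show Ap 1 (-1) (BB 5) (1) = 0 from by decide] at e0
  have e1 := hN (sw 0)
  rw [Fin.sum_univ_six,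
    show Ap 1 (-1) (BB 0) (sw 0) = -2 from by decide,
    show Ap 1 (-1) (BB 1) (sw 0) = -2 from by decide,
    show Ap 1 (-1) (BB 2) (sw 0) = 0 from by decide,
    show Ap 1 (-1) (BB 3) (sw 0) = 0 from by decide,
    show Ap 1 (-1) (BB 4) (sw 0) = 0 from by decide,
    show Ap 1 (-1) (BB 5) (sw 0) = 0 from by decide] at e1
  have e2 := hN (sw 2)
  rw [Fin.sum_univ_six,
    show Ap 1 (-1) (BB 0) (sw 2) = 0 from by decide,
    show Ap 1 (-1) (BB 1) (sw 2) = 2 from by decide,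
    show Ap 1 (-1) (BB 2) (sw 2) = 0 from by decide,
    show Ap 1 (-1) (BB 3) (sw 2) = -2 from by decide,
    show Ap 1 (-1) (BB 4) (sw 2) = 0 from by decide,
    show Ap 1 (-1) (BB 5) (sw 2) = -2 from by decide] at e2
  have r0 := (dco D hneg h4 (TT false 1 1) (good_TT _ _ _) ![0, 0, 0, 0, 1, 0] (by decide)).symm.trans (hz _ (good_TT _ _ _) (by decide))
  rw [Fin.sum_univ_six] at r0
  simp only [Matrix.cons_val] at r0
  have r1 := (dco D hneg h4 (TT false 2 1) (good_TT _ _ _) ![0, 0, 1, 0, 0, 0] (by decide)).symm.trans (hz _ (good_TT _ _ _) (by decide))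
  rw [Fin.sum_univ_six] at r1
  simp only [Matrix.cons_val] at r1
  have r2 := (dco D hneg h4 (TT false 0 1) (good_TT _ _ _) ![-1, 1, 0, 1, 0, 0] (by decide)).symm.trans (hz _ (good_TT _ _ _) (by decide))
  rw [Fin.sum_univ_six] at r2
  simp only [Matrix.cons_val] at r2
  have n1 : N 1 = (1) * ((-1) * N 0) := by omega
  have n3 : N 3 = (1) * ((-1) * N 0) := by omega
  have n5 : N 5 = 0 := by omega
  rw [Fin.sum_univ_six, n1, n3, n5]
  linear_combination (norm := module) ((1) * N 4) • r0 + ((1) * N 2) • r1 + ((-1) * N 0) • r2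

theorem ker_P2p (D : (P3 → ℤ) → M) (hneg : ∀ F, Good F → D (-F) = -D F)
    (h4 : ∀ F : Fin 4 → P3 → ℤ, (∀ k, Good (F k)) → (∀ x, ∑ k, F k x = 0) → ∑ k, D (F k) = 0)
    (hc : ∀ F F', Good F → Good F' → (∀ σ, Ap 2 (1) F σ = Ap 2 (1) F' σ) → D F = D F')
    (hz : ∀ F, Good F → (∀ σ, Ap 2 (1) F σ = 0) → D F = 0) (N : Fin 6 → ℤ)
    (hN : ∀ σ, ∑ k, N k * Ap 2 (1) (BB k) σ = 0) : ∑ k, N k • D (BB k) = 0 := by
  have e0 := hN (1)
  rw [Fin.sum_univ_six,
    show Ap 2 (1) (BB 0) (1) = 0 from by decide,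
    show Ap 2 (1) (BB 1) (1) = 2 from by decide,
    show Ap 2 (1) (BB 2) (1) = 2 from by decide,
    show Ap 2 (1) (BB 3) (1) = -2 from by decide,
    show Ap 2 (1) (BB 4) (1) = 0 from by decide,
    show Ap 2 (1) (BB 5) (1) = -2 from by decide] at e0
  have e1 := hN (sw 0)
  rw [Fin.sum_univ_six,
    show Ap 2 (1) (BB 0) (sw 0) = 0 from by decide,
    show Ap 2 (1) (BB 1) (sw 0) = -2 from by decide,
    show Ap 2 (1) (BB 2) (sw 0) = 0 from by decide,
    show Ap 2 (1) (BB 3) (sw 0) = 2 from by decide,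
    show Ap 2 (1) (BB 4) (sw 0) = 2 from by decide,
    show Ap 2 (1) (BB 5) (sw 0) = 2 from by decide] at e1
  have e2 := hN (sw 1)
  rw [Fin.sum_univ_six,
    show Ap 2 (1) (BB 0) (sw 1) = 2 from by decide,
    show Ap 2 (1) (BB 1) (sw 1) = 2 from by decide,
    show Ap 2 (1) (BB 2) (sw 1) = 0 from by decide,
    show Ap 2 (1) (BB 3) (sw 1) = 2 from by decide,
    show Ap 2 (1) (BB 4) (sw 1) = 0 from by decide,
    show Ap 2 (1) (BB 5) (sw 1) = 0 from by decide] at e2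
  have r0 := (dco D hneg h4 (TT true 0 2) (good_TT _ _ _) ![0, 0, 1, 0, -1, 1] (by decide)).symm.trans (hz _ (good_TT _ _ _) (by decide))
  rw [Fin.sum_univ_six] at r0
  simp only [Matrix.cons_val] at r0
  have r1 := (dco D hneg h4 (TT true 1 2) (good_TT _ _ _) ![-1, 1, 0, 0, 0, 1] (by decide)).symm.trans (hz _ (good_TT _ _ _) (by decide))
  rw [Fin.sum_univ_six] at r1
  simp only [Matrix.cons_val] at r1
  have r2 := (dco D hneg h4 (TT true 2 2) (good_TT _ _ _) ![1, 0, 0, -1, 0, 1] (by decide)).symm.trans (hz _ (good_TT _ _ _) (by decide))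
  rw [Fin.sum_univ_six] at r2
  simp only [Matrix.cons_val] at r2
  have n3 : N 3 = (-1) * ((1) * N 0 + (1) * N 1) := by omega
  have n4 : N 4 = (-1) * ((1) * N 2) := by omega
  have n5 : N 5 = (1) * ((1) * N 2) + (1) * ((1) * N 1) + (1) * ((1) * N 0 + (1) * N 1) := by omega
  rw [Fin.sum_univ_six, n3, n4, n5]
  linear_combination (norm := module) ((1) * N 2) • r0 + ((1) * N 1) • r1 + ((1) * N 0 + (1) * N 1) • r2

theorem ker_P2m (D : (P3 → ℤ) → M) (hneg : ∀ F, Good F → D (-F) = -D F)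
    (h4 : ∀ F : Fin 4 → P3 → ℤ, (∀ k, Good (F k)) → (∀ x, ∑ k, F k x = 0) → ∑ k, D (F k) = 0)
    (hc : ∀ F F', Good F → Good F' → (∀ σ, Ap 2 (-1) F σ = Ap 2 (-1) F' σ) → D F = D F')
    (hz : ∀ F, Good F → (∀ σ, Ap 2 (-1) F σ = 0) → D F = 0) (N : Fin 6 → ℤ)
    (hN : ∀ σ, ∑ k, N k * Ap 2 (-1) (BB k) σ = 0) : ∑ k, N k • D (BB k) = 0 := by
  have e0 := hN (1)
  rw [Fin.sum_univ_six,
    show Ap 2 (-1) (BB 0) (1) = -2 from by decide,
    show Ap 2 (-1) (BB 1) (1) = 0 from by decide,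
    show Ap 2 (-1) (BB 2) (1) = 0 from by decide,
    show Ap 2 (-1) (BB 3) (1) = 0 from by decide,
    show Ap 2 (-1) (BB 4) (1) = -2 from by decide,
    show Ap 2 (-1) (BB 5) (1) = 0 from by decide] at e0
  have e1 := hN (sw 0)
  rw [Fin.sum_univ_six,
    show Ap 2 (-1) (BB 0) (sw 0) = -2 from by decide,
    show Ap 2 (-1) (BB 1) (sw 0) = 0 from by decide,
    show Ap 2 (-1) (BB 2) (sw 0) = -2 from by decide,
    show Ap 2 (-1) (BB 3) (sw 0) = 0 from by decide,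
    show Ap 2 (-1) (BB 4) (sw 0) = 0 from by decide,
    show Ap 2 (-1) (BB 5) (sw 0) = 0 from by decide] at e1
  have e2 := hN (sw 1)
  rw [Fin.sum_univ_six,
    show Ap 2 (-1) (BB 0) (sw 1) = 0 from by decide,
    show Ap 2 (-1) (BB 1) (sw 1) = 0 from by decide,
    show Ap 2 (-1) (BB 2) (sw 1) = 2 from by decide,
    show Ap 2 (-1) (BB 3) (sw 1) = 0 from by decide,
    show Ap 2 (-1) (BB 4) (sw 1) = -2 from by decide,
    show Ap 2 (-1) (BB 5) (sw 1) = -2 from by decide] at e2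
  have r0 := (dco D hneg h4 (TT false 1 2) (good_TT _ _ _) ![0, 1, 0, 0, 0, 0] (by decide)).symm.trans (hz _ (good_TT _ _ _) (by decide))
  rw [Fin.sum_univ_six] at r0
  simp only [Matrix.cons_val] at r0
  have r1 := (dco D hneg h4 (TT false 2 2) (good_TT _ _ _) ![0, 0, 0, 1, 0, 0] (by decide)).symm.trans (hz _ (good_TT _ _ _) (by decide))
  rw [Fin.sum_univ_six] at r1
  simp only [Matrix.cons_val] at r1
  have r2 := (dco D hneg h4 (TT false 0 2) (good_TT _ _ _) ![-1, 0, 1, 0, 1, 0] (by decide)).symm.trans (hz _ (good_TT _ _ _) (by decide))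
  rw [Fin.sum_univ_six] at r2
  simp only [Matrix.cons_val] at r2
  have n2 : N 2 = (1) * ((-1) * N 0) := by omega
  have n4 : N 4 = (1) * ((-1) * N 0) := by omega
  have n5 : N 5 = 0 := by omega
  rw [Fin.sum_univ_six, n2, n4, n5]
  linear_combination (norm := module) ((1) * N 1) • r0 + ((1) * N 3) • r1 + ((-1) * N 0) • r2

theorem ker_A (D : (P3 → ℤ) → M) (hneg : ∀ F, Good F → D (-F) = -D F)
    (h4 : ∀ F : Fin 4 → P3 → ℤ, (∀ k, Good (F k)) → (∀ x, ∑ k, F k x = 0) → ∑ k, D (F k) = 0)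
    (hc : ∀ F F', Good F → Good F' → (∀ σ, AA F σ = AA F' σ) → D F = D F')
    (hz : ∀ F, Good F → (∀ σ, AA F σ = 0) → D F = 0) (N : Fin 6 → ℤ)
    (hN : ∀ σ, ∑ k, N k * AA (BB k) σ = 0) : ∑ k, N k • D (BB k) = 0 := by
  have e0 := hN (1)
  rw [Fin.sum_univ_six,
    show AA (BB 0) (1) = 1 from by decide,
    show AA (BB 1) (1) = 1 from by decide,
    show AA (BB 2) (1) = 1 from by decide,
    show AA (BB 3) (1) = 1 from by decide,
    show AA (BB 4) (1) = 1 from by decide,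
    show AA (BB 5) (1) = 1 from by decide] at e0
  have e1 := hN (sw 0)
  rw [Fin.sum_univ_six,
    show AA (BB 0) (sw 0) = 1 from by decide,
    show AA (BB 1) (sw 0) = 1 from by decide,
    show AA (BB 2) (sw 0) = 1 from by decide,
    show AA (BB 3) (sw 0) = 1 from by decide,
    show AA (BB 4) (sw 0) = 1 from by decide,
    show AA (BB 5) (sw 0) = -1 from by decide] at e1
  have r0 := (dco D hneg h4 (TT false 0 0) (good_TT _ _ _) ![1, 0, 0, 0, 0, 0] (by decide)).symm.trans ((hc _ _ (good_TT _ _ _) (good_TT _ _ _) (by decide)).trans (dco D hneg h4 (TT false 1 1) (good_TT _ _ _) ![0, 0, 0, 0, 1, 0] (by decide)))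
  rw [Fin.sum_univ_six, Fin.sum_univ_six] at r0
  simp only [Matrix.cons_val] at r0
  have r1 := (dco D hneg h4 (TT false 0 0) (good_TT _ _ _) ![1, 0, 0, 0, 0, 0] (by decide)).symm.trans ((hc _ _ (good_TT _ _ _) (good_TT _ _ _) (by decide)).trans (dco D hneg h4 (TT false 1 2) (good_TT _ _ _) ![0, 1, 0, 0, 0, 0] (by decide)))
  rw [Fin.sum_univ_six, Fin.sum_univ_six] at r1
  simp only [Matrix.cons_val] at r1
  have r2 := (dco D hneg h4 (TT false 0 0) (good_TT _ _ _) ![1, 0, 0, 0, 0, 0] (by decide)).symm.trans ((hc _ _ (good_TT _ _ _) (good_TT _ _ _) (by decide)).trans (dco D hneg h4 (TT false 2 1) (good_TT _ _ _) ![0, 0, 1, 0, 0, 0] (by decide)))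
  rw [Fin.sum_univ_six, Fin.sum_univ_six] at r2
  simp only [Matrix.cons_val] at r2
  have r3 := (dco D hneg h4 (TT false 0 0) (good_TT _ _ _) ![1, 0, 0, 0, 0, 0] (by decide)).symm.trans ((hc _ _ (good_TT _ _ _) (good_TT _ _ _) (by decide)).trans (dco D hneg h4 (TT false 2 2) (good_TT _ _ _) ![0, 0, 0, 1, 0, 0] (by decide)))
  rw [Fin.sum_univ_six, Fin.sum_univ_six] at r3
  simp only [Matrix.cons_val] at r3
  have n4 : N 4 = (-1) * ((1) * N 0 + (1) * N 1 + (1) * N 2 + (1) * N 3) := by omega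
  have n5 : N 5 = 0 := by omega
  rw [Fin.sum_univ_six, n4, n5]
  linear_combination (norm := module) ((1) * N 0 + (1) * N 1 + (1) * N 2 + (1) * N 3) • r0 + ((-1) * N 1) • r1 + ((-1) * N 2) • r2 + ((-1) * N 3) • r3

theorem ker_Sp (D : (P3 → ℤ) → M) (hneg : ∀ F, Good F → D (-F) = -D F)
    (h4 : ∀ F : Fin 4 → P3 → ℤ, (∀ k, Good (F k)) → (∀ x, ∑ k, F k x = 0) → ∑ k, D (F k) = 0)
    (hc : ∀ F F', Good F → Good F' → (∀ σ, AS (1) F σ = AS (1) F' σ) → D F = D F')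
    (hz : ∀ F, Good F → (∀ σ, AS (1) F σ = 0) → D F = 0) (N : Fin 6 → ℤ)
    (hN : ∀ σ, ∑ k, N k * AS (1) (BB k) σ = 0) : ∑ k, N k • D (BB k) = 0 := by
  have e0 := hN (1)
  rw [Fin.sum_univ_six,
    show AS (1) (BB 0) (1) = 2 from by decide,
    show AS (1) (BB 1) (1) = 2 from by decide,
    show AS (1) (BB 2) (1) = 2 from by decide,
    show AS (1) (BB 3) (1) = 2 from by decide,
    show AS (1) (BB 4) (1) = 2 from by decide,
    show AS (1) (BB 5) (1) = 0 from by decide] at e0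
  have r0 := (dco D hneg h4 (TT true 0 0) (good_TT _ _ _) ![0, 0, 0, 0, 0, 1] (by decide)).symm.trans (hz _ (good_TT _ _ _) (by decide))
  rw [Fin.sum_univ_six] at r0
  simp only [Matrix.cons_val] at r0
  have r1 := (dco D hneg h4 (TT false 0 0) (good_TT _ _ _) ![1, 0, 0, 0, 0, 0] (by decide)).symm.trans ((hc _ _ (good_TT _ _ _) (good_TT _ _ _) (by decide)).trans (dco D hneg h4 (TT false 1 1) (good_TT _ _ _) ![0, 0, 0, 0, 1, 0] (by decide)))
  rw [Fin.sum_univ_six, Fin.sum_univ_six] at r1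
  simp only [Matrix.cons_val] at r1
  have r2 := (dco D hneg h4 (TT false 0 0) (good_TT _ _ _) ![1, 0, 0, 0, 0, 0] (by decide)).symm.trans ((hc _ _ (good_TT _ _ _) (good_TT _ _ _) (by decide)).trans (dco D hneg h4 (TT false 1 2) (good_TT _ _ _) ![0, 1, 0, 0, 0, 0] (by decide)))
  rw [Fin.sum_univ_six, Fin.sum_univ_six] at r2
  simp only [Matrix.cons_val] at r2
  have r3 := (dco D hneg h4 (TT false 0 0) (good_TT _ _ _) ![1, 0, 0, 0, 0, 0] (by decide)).symm.trans ((hc _ _ (good_TT _ _ _) (good_TT _ _ _) (by decide)).trans (dco D hneg h4 (TT false 2 1) (good_TT _ _ _) ![0, 0, 1, 0, 0, 0] (by decide)))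
  rw [Fin.sum_univ_six, Fin.sum_univ_six] at r3
  simp only [Matrix.cons_val] at r3
  have r4 := (dco D hneg h4 (TT false 0 0) (good_TT _ _ _) ![1, 0, 0, 0, 0, 0] (by decide)).symm.trans ((hc _ _ (good_TT _ _ _) (good_TT _ _ _) (by decide)).trans (dco D hneg h4 (TT false 2 2) (good_TT _ _ _) ![0, 0, 0, 1, 0, 0] (by decide)))
  rw [Fin.sum_univ_six, Fin.sum_univ_six] at r4
  simp only [Matrix.cons_val] at r4
  have n4 : N 4 = (-1) * ((1) * N 0 + (1) * N 1 + (1) * N 2 + (1) * N 3) := by omega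
  rw [Fin.sum_univ_six, n4]
  linear_combination (norm := module) ((1) * N 5) • r0 + ((1) * N 0 + (1) * N 1 + (1) * N 2 + (1) * N 3) • r1 + ((-1) * N 1) • r2 + ((-1) * N 2) • r3 + ((-1) * N 3) • r4

theorem ker_Sm (D : (P3 → ℤ) → M) (hneg : ∀ F, Good F → D (-F) = -D F)
    (h4 : ∀ F : Fin 4 → P3 → ℤ, (∀ k, Good (F k)) → (∀ x, ∑ k, F k x = 0) → ∑ k, D (F k) = 0)
    (hc : ∀ F F', Good F → Good F' → (∀ σ, AS (-1) F σ = AS (-1) F' σ) → D F = D F')
    (hz : ∀ F, Good F → (∀ σ, AS (-1) F σ = 0) → D F = 0) (N : Fin 6 → ℤ)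
    (hN : ∀ σ, ∑ k, N k * AS (-1) (BB k) σ = 0) : ∑ k, N k • D (BB k) = 0 := by
  have e0 := hN (1)
  rw [Fin.sum_univ_six,
    show AS (-1) (BB 0) (1) = 0 from by decide,
    show AS (-1) (BB 1) (1) = 0 from by decide,
    show AS (-1) (BB 2) (1) = 0 from by decide,
    show AS (-1) (BB 3) (1) = 0 from by decide,
    show AS (-1) (BB 4) (1) = 0 from by decide,
    show AS (-1) (BB 5) (1) = 2 from by decide] at e0
  have r0 := (dco D hneg h4 (TT false 0 0) (good_TT _ _ _) ![1, 0, 0, 0, 0, 0] (by decide)).symm.trans (hz _ (good_TT _ _ _) (by decide))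
  rw [Fin.sum_univ_six] at r0
  simp only [Matrix.cons_val] at r0
  have r1 := (dco D hneg h4 (TT false 1 1) (good_TT _ _ _) ![0, 0, 0, 0, 1, 0] (by decide)).symm.trans (hz _ (good_TT _ _ _) (by decide))
  rw [Fin.sum_univ_six] at r1
  simp only [Matrix.cons_val] at r1
  have r2 := (dco D hneg h4 (TT false 1 2) (good_TT _ _ _) ![0, 1, 0, 0, 0, 0] (by decide)).symm.trans (hz _ (good_TT _ _ _) (by decide))
  rw [Fin.sum_univ_six] at r2
  simp only [Matrix.cons_val] at r2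
  have r3 := (dco D hneg h4 (TT false 2 1) (good_TT _ _ _) ![0, 0, 1, 0, 0, 0] (by decide)).symm.trans (hz _ (good_TT _ _ _) (by decide))
  rw [Fin.sum_univ_six] at r3
  simp only [Matrix.cons_val] at r3
  have r4 := (dco D hneg h4 (TT false 2 2) (good_TT _ _ _) ![0, 0, 0, 1, 0, 0] (by decide)).symm.trans (hz _ (good_TT _ _ _) (by decide))
  rw [Fin.sum_univ_six] at r4
  simp only [Matrix.cons_val] at r4
  have n5 : N 5 = 0 := by omega
  rw [Fin.sum_univ_six, n5]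
  linear_combination (norm := module) ((1) * N 0) • r0 + ((1) * N 4) • r1 + ((1) * N 1) • r2 + ((1) * N 2) • r3 + ((1) * N 3) • r4

end Pool.Agent.R937.TZ
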