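import Pool.Agent.W495.TA.Stms
import Pool.Agent.TH117.BL.Main

/-!
# Systems of cohomology classes of abelian varieties over finite fields
-/

set_option autoImplicit false
set_option linter.all false

namespace Pool.Agent.R937.TZ

open NumberField Pool.Agent.H204R3.CM Pool.Agent.W547.KB Pool.Agent.W547.LD Pool.Agent.W495.TA Module
  Pool.Agent.W495.TB Pool.Agent.W495.TC
open scoped TensorProduct

noncomputable section

section

variable {p : ℕ} [Fact p.Prime] {ν : PadicAlgCl p ≃+* ℂ}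

/-- The cohomology classes of `Y` with coefficients in `Ω`: alternating forms on the Tate module, in
variables indexed by the set `κ`. -/
abbrev CF (Ω : Type) [Field Ω] [CharZero Ω] (Y : RedAV p ν) (κ : Type) : Type :=
  (TM Ω Y) [⋀^κ]→ₗ[Ω] Ω

variable {Ω : Type} [Field Ω] [CharZero Ω]

/-- The class `h` is the cup product of `f` and `g` (up to a factor). -/
def IsCup {Y : RedAV p ν} {κ κ' : Type} [Fintype κ] [DecidableEq κ] [Fintype κ'] [DecidableEq κ']
    (f : CF Ω Y κ) (g : CF Ω Y κ') (h : CF Ω Y (κ ⊕ κ')) : Prop :=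
  ∀ v : κ ⊕ κ' → TM Ω Y, h v = ∑ σ : Equiv.Perm (κ ⊕ κ'), ((Equiv.Perm.sign σ : ℤ) : Ω) *
    (f (fun k => v (σ (Sum.inl k))) * g (fun k => v (σ (Sum.inr k))))

/-- The class `g` of `Y` is the push-forward (integration over the fibres) of the class `f` of `Z` along
a projection `Z → Y`, where `Z` is isogenous to `Y × Y'` by the inclusions `h` and `h'`: insert a basis
of the Tate module of `Y'`. -/
def IsPush {Y Z : RedAV p ν} {κ κ' : Type} (Y' : RedAV p ν) (f : CF Ω Z (κ ⊕ κ'))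
    (g : CF Ω Y κ) : Prop :=
  ∃ (h : TM Ω Y →ₗ[Ω] TM Ω Z) (h' : TM Ω Y' →ₗ[Ω] TM Ω Z) (b : Module.Basis κ' Ω (TM Ω Y')),
    IsFrobHom Ω Y Z h ∧ IsFrobHom Ω Y' Z h' ∧
    Function.Bijective (fun v : TM Ω Y × TM Ω Y' => h v.1 + h' v.2) ∧
    ∀ v : κ → TM Ω Y, g v = f (Sum.elim (fun k => h (v k)) (fun k => h' (b k)))

end

/-- A system of cohomology classes, with coefficients in `Ω`, of the abelian varieties over finite
fields of characteristic `p`, which contains the classes of degree zero and the Tate classes of degree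
two over finite extensions (classes of divisors, by the theorem of Tate), and which is stable under
linear combinations, cup products, pull-backs along homomorphisms, and push-forwards along projections.
By the theorem of Tate the system of the classes of algebraic cycles is such a system. -/
structure TSys (p : ℕ) [Fact p.Prime] (ν : PadicAlgCl p ≃+* ℂ) (Ω : Type) [Field Ω]
    [CharZero Ω] where
  /-- the classes of the system -/
  A : (Y : RedAV p ν) → (κ : Type) → CF Ω Y κ → Prop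
  /-- classes of degree zero -/
  unit : ∀ {Y : RedAV p ν} {κ : Type} [IsEmpty κ] (f : CF Ω Y κ), A Y κ f
  /-- Tate classes of degree two over finite extensions -/
  divisor : ∀ {Y : RedAV p ν} {κ : Type} (_ : Nat.card κ = 2) (f : CF Ω Y κ) (s : ℕ)
    (_ : 0 < s) (_ : IsTateClass Ω Y s 1 f), A Y κ f
  zero : ∀ (Y : RedAV p ν) (κ : Type), A Y κ 0
  add : ∀ {Y : RedAV p ν} {κ : Type} (f g : CF Ω Y κ) (_ : A Y κ f) (_ : A Y κ g), A Y κ (f + g)
  smul : ∀ {Y : RedAV p ν} {κ : Type} (c : Ω) (f : CF Ω Y κ) (_ : A Y κ f), A Y κ (c • f)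
  /-- renaming of the variables -/
  reindex : ∀ {Y : RedAV p ν} {κ κ' : Type} (e : κ ≃ κ') (f : CF Ω Y κ) (_ : A Y κ f),
    A Y κ' (f.domDomCongr e)
  /-- cup products -/
  cup : ∀ {Y : RedAV p ν} {κ κ' : Type} [Fintype κ] [DecidableEq κ] [Fintype κ'] [DecidableEq κ']
    (f : CF Ω Y κ) (g : CF Ω Y κ') (_ : A Y κ f) (_ : A Y κ' g) (h : CF Ω Y (κ ⊕ κ'))
    (_ : IsCup f g h), A Y (κ ⊕ κ') h
  /-- pull-back along a homomorphism -/
  pull : ∀ {Y Z : RedAV p ν} {κ : Type} (h : TM Ω Y →ₗ[Ω] TM Ω Z) (_ : IsFrobHom Ω Y Z h)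
    (f : CF Ω Z κ) (_ : A Z κ f), A Y κ (f.compLinearMap h)
  /-- push-forward along a projection -/
  push : ∀ {Y Z : RedAV p ν} {κ κ' : Type} (Y' : RedAV p ν) (f : CF Ω Z (κ ⊕ κ')) (g : CF Ω Y κ)
    (_ : IsPush Y' f g) (_ : A Z (κ ⊕ κ') f), A Y κ g

/-- All monomials with the given functions on the Galois group, on all abelian varieties over
finite fields, belong to the system. -/
def QT {p : ℕ} [Fact p.Prime] {ν : PadicAlgCl p ≃+* ℂ} {Ω : Type} [Field Ω]
    [CharZero Ω] (𝒜 : TSys p ν Ω) {L : Type} [Field L] [NumberField L] (j : L →+* ℂ) (jO : L →+* Ω)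
    (κ : Type) (t : κ → (L ≃ₐ[ℚ] L) → ℤ) : Prop :=
  ∀ [Fintype κ] [DecidableEq κ] (Y : RedAV p ν), Big Y.X j → ∀ I : κ → Wt Y.X L,
    (∀ k, tf p ν j (St j (I k)) = t k) → 𝒜.A Y κ (monoO jO I)

section

variable {p : ℕ} [Fact p.Prime] {ν : PadicAlgCl p ≃+* ℂ} {Ω : Type} [Field Ω] [CharZero Ω]
  {L : Type} [Field L] [NumberField L] [IsCMField L] [IsGalois ℚ L] {𝒜 : TSys p ν Ω}

theorem alg_sum {Y : RedAV p ν} {κ ι : Type} (s : Finset ι) (F : ι → (TM Ω Y) [⋀^κ]→ₗ[Ω] Ω)
    (hF : ∀ i ∈ s, 𝒜.A Y κ (F i)) : 𝒜.A Y κ (∑ i ∈ s, F i) := by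
  classical
  induction s using Finset.induction_on with
  | empty => rw [Finset.sum_empty]; exact 𝒜.zero Y κ
  | insert a s ha ih =>
    rw [Finset.sum_insert ha]
    exact 𝒜.add _ _ (hF a (Finset.mem_insert_self a s))
      (ih fun i hi => hF i (Finset.mem_insert_of_mem hi))


section

open Pool.Agent.W333.TA

variable (𝒜)

/-- The first closure properties. -/
theorem closedS (j : L →+* ℂ) (jO : L →+* Ω) : Closed (L ≃ₐ[ℚ] L) (QT 𝒜 j jO) := by
  classical
  have hval := Pool.Agent.W366.TA.val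
  have hru := Pool.Agent.W64.TA.ru
  refine ⟨?_, ?_, ?_, ?_⟩
  · intro κ _ t _ _ Y hY I hI
    exact 𝒜.unit _
  · intro κ κ' _ e t t' ht h _ _ Y hY I' hI'
    haveI := Fintype.ofFinite κ
    have h1 := h Y hY (fun k => I' (e k)) (by intro k; rw [hI', ht])
    have h2 := 𝒜.reindex e _ h1
    rwa [monoO_reindex] at h2
  · intro κ κ' _ _ t t' h h' iF iD Y hY I hI
    haveI := Fintype.ofFinite κ
    haveI := Fintype.ofFinite κ'
    obtain rfl : iF = instFintypeSum κ κ' := Subsingleton.elim _ _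
    obtain rfl : iD = instDecidableEqSum := Subsingleton.elim _ _
    have h1 := h Y hY (fun k => I (Sum.inl k)) (fun k => hI (Sum.inl k))
    have h2 := h' Y hY (fun k => I (Sum.inr k)) (fun k => hI (Sum.inr k))
    set c : Ω := (Fintype.card (Equiv.Perm κ) : Ω) * (Fintype.card (Equiv.Perm κ') : Ω) with hc
    have hc0 : c ≠ 0 := by
      rw [hc]
      exact mul_ne_zero (Nat.cast_ne_zero.mpr Fintype.card_ne_zero)
        (Nat.cast_ne_zero.mpr Fintype.card_ne_zero)
    have hI2 : Sum.elim (fun k => I (Sum.inl k)) (fun k => I (Sum.inr k)) = I := by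
      funext k
      rcases k with k | k <;> rfl
    have h3 := 𝒜.cup _ _ h1 h2 (c • monoO jO I) (by
      intro v
      rw [monoO_cup, hI2]
      rfl)
    have h4 := 𝒜.smul c⁻¹ _ h3
    rwa [smul_smul, inv_mul_cancel₀ hc0, one_smul] at h4
  · intro f iF iD Y hY I hI
    obtain rfl : iF = Fin.fintype 2 := Subsingleton.elim _ _
    obtain rfl : iD = instDecidableEqFin 2 := Subsingleton.elim _ _
    have hI0 : tf p ν j (St j (I 0)) = f := hI 0
    have hI1 : tf p ν j (St j (I 1)) = -f := hI 1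
    set lam : Fin 2 → L := fun k => (I k).2 (Y.π (I k).1) with hlam
    -- the valuations
    have hD : 0 < Nat.card (Dec p ν j) := Nat.card_pos
    set D : ℤ := (Nat.card (Dec p ν j) : ℤ) with hDdef
    have hv : ∀ (k : Fin 2) (σ : L ≃ₐ[ℚ] L), ‖ν.symm (j (σ (lam k)))‖ ^ (2 * D) =
        ‖(p : PadicAlgCl p) ^ Y.a‖ ^ (D + tf p ν j (St j (I k)) σ) := by
      intro k σ
      have h1 := (hval p ν L j (Y.X.factor (I k).1) (hY (I k).1) Y.a (Y.π (I k).1)).mp
        (Y.frob (I k).1).shimuraTaniyama (σ • (I k).2)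
      rw [tf_smul] at h1
      exact h1
    have hp0 : ‖(p : PadicAlgCl p) ^ Y.a‖ ≠ 0 := by
      rw [norm_ne_zero_iff]
      exact pow_ne_zero _ (Nat.cast_ne_zero.mpr (Fact.out : p.Prime).ne_zero)
    have hprod : ∀ σ : L ≃ₐ[ℚ] L, ‖ν.symm (j (σ (lam 0 * lam 1)))‖ =
        ‖(p : PadicAlgCl p) ^ Y.a‖ := by
      intro σ
      have h0 := hv 0 σ
      have h1 := hv 1 σ
      rw [hI0] at h0
      rw [hI1] at h1
      have h2 : ‖ν.symm (j (σ (lam 0 * lam 1)))‖ ^ (2 * D) =
          ‖(p : PadicAlgCl p) ^ Y.a‖ ^ (2 * D) := by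
        rw [map_mul, map_mul, map_mul, norm_mul, mul_zpow, h0, h1, ← zpow_add₀ hp0]
        congr 1
        rw [Pi.neg_apply]
        ring
      have h3 : (2 * D) = ((2 * Nat.card (Dec p ν j) : ℕ) : ℤ) := by
        rw [hDdef]; push_cast; ring
      rw [h3, zpow_natCast, zpow_natCast] at h2
      exact (pow_left_inj₀ (norm_nonneg _) (norm_nonneg _) (by omega)).mp h2
    have hw : ∀ (k : Fin 2) (ψ : L →+* ℂ), ‖ψ (lam k)‖ ^ 2 = (p : ℝ) ^ Y.a := fun k ψ =>
      (Y.frob (I k).1).weil (ψ.comp (I k).2)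
    have hint : ∀ k : Fin 2, IsIntegral ℤ (lam k) := fun k =>
      (Y.frob (I k).1).integral.map ((I k).2.toIntAlgHom)
    obtain ⟨n, hn, hn2⟩ := hru p ν L j (lam 0 * lam 1) ((p : L) ^ Y.a) (2 * Y.a) (2 * Y.a)
      (by have := Y.pos; omega) (by have := Y.pos; omega) ((hint 0).mul (hint 1))
      ((IsIntegral.pow (by exact_mod_cast isIntegral_algebraMap (R := ℤ) (x := (p : ℤ)))) _)
      (by
        intro ψ
        rw [map_mul, norm_mul, mul_pow, hw, hw, two_mul, pow_add])
      (by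
        intro ψ
        rw [map_pow, map_natCast, norm_pow, Complex.norm_natCast, ← pow_mul, mul_comm])
      (by
        intro σ
        rw [hprod σ, map_pow, map_natCast, map_pow, map_natCast, map_pow, map_natCast])
    refine 𝒜.divisor (by simp) _ (2 * Y.a * n) (Nat.mul_pos (by have := Y.pos; omega) hn) ?_
    intro v
    rw [monoO_F_pow, Fin.prod_univ_two]
    change jO (lam 0 * lam 1) ^ (2 * Y.a * n) * _ = _
    rw [← map_pow, hn2, map_pow, map_pow, map_natCast, one_mul]


end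

section

open Pool.Agent.W82.TA

/-- Pull-backs. -/
theorem pullS (j : L →+* ℂ) (jO : L →+* Ω) (Z : RedAV p ν) (hZ : Big Z.X j) (κ : Type)
    [iF : Fintype κ] [iD : DecidableEq κ] (J : κ → Wt Z.X L) (hJ : Function.Injective J)
    (hAlg : 𝒜.A Z κ (monoO jO J)) :
    QT 𝒜 j jO κ (fun k => tf p ν j (St j (J k))) := by
  have hval := Pool.Agent.W366.TA.val
  have hru := Pool.Agent.W64.TA.ru
  have hbas := Pool.Agent.W67.TA.basis
  intro iF' iD' Y hY I hI
  have e1 : iF = iF' := Subsingleton.elim _ _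
  have e2 : iD = iD' := Subsingleton.elim _ _
  subst e1
  subst e2
  obtain ⟨eZ, he1, he2⟩ := hbas p ν Ω L j jO Z hZ
  have hc := co_eq_coord jO eZ he1 he2
  have hext : ∀ v v' : TM Ω Z, (∀ w, co jO w v = co jO w v') → v = v' := by
    intro v v' h
    refine eZ.ext_elem fun w => ?_
    have h3 := h w
    rw [hc w] at h3
    exact h3
  choose n hn0 hn using fun k => match_weights hval hru j Y Z hY hZ (I k) (J k) (hI k)
  let h : TM Ω Y →ₗ[Ω] TM Ω Z := ∑ k, (co jO (I k)).smulRight (eZ (J k))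
  have hh : ∀ w v, co jO w (h v) = ∑ k, co jO (I k) v * co jO w (eZ (J k)) := by
    intro w v
    change co jO w ((∑ k, (co jO (I k)).smulRight (eZ (J k))) v) = _
    rw [LinearMap.sum_apply, map_sum]
    refine Finset.sum_congr rfl fun k _ => ?_
    rw [LinearMap.smulRight_apply, map_smul, smul_eq_mul]
  have hhJ : ∀ k v, co jO (J k) (h v) = co jO (I k) v := by
    intro k v
    rw [hh, Finset.sum_eq_single k, he1, mul_one]
    · intro k' _ hk
      rw [he2 _ _ (fun h => hk (hJ h).symm), mul_zero]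
    · intro h
      exact absurd (Finset.mem_univ _) h
  have hF : IsFrobHom Ω Y Z h := by
    refine ⟨Z.a * ∏ k, n k, Y.a * ∏ k, n k, Nat.mul_pos Z.pos (Finset.prod_pos fun k _ => hn0 k),
      Nat.mul_pos Y.pos (Finset.prod_pos fun k _ => hn0 k), by ring, fun v => ?_⟩
    refine hext _ _ fun w => ?_
    rw [hh, co_F_pow, hh, Finset.mul_sum]
    refine Finset.sum_congr rfl fun k _ => ?_
    by_cases hw : w = J k
    · subst hw
      have key : (I k).2 (Y.π (I k).1) ^ (Z.a * ∏ k, n k) =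
          (J k).2 (Z.π (J k).1) ^ (Y.a * ∏ k, n k) := by
        obtain ⟨m, hm⟩ := Finset.dvd_prod_of_mem n (Finset.mem_univ k)
        rw [hm, ← mul_assoc, ← mul_assoc, pow_mul, pow_mul _ (Y.a * n k), hn k]
      rw [co_F_pow, he1, mul_one, mul_one, ← map_pow jO, ← map_pow jO, key]
    · rw [he2 _ _ hw, mul_zero, mul_zero, mul_zero]
  have hmono : (monoO jO J).compLinearMap h = monoO jO I := by
    ext v
    unfold monoO
    rw [AlternatingMap.compLinearMap_apply, MultilinearMap.alternatization_apply,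
      MultilinearMap.alternatization_apply]
    refine Finset.sum_congr rfl fun σ _ => ?_
    congr 1
    change ∏ k, co jO (J k) (h (v (σ k))) = ∏ k, co jO (I k) (v (σ k))
    exact Finset.prod_congr rfl fun k _ => hhJ k _
  rw [← hmono]
  exact 𝒜.pull h hF _ hAlg


end

section

open Pool.Agent.W976.TA (prodR hQ hQ' frobHom frobHom' bij inlW inrW monoO_det co_ll co_rl co_lr
  co_rr)
open Pool.Agent.W99.TC (comb)

theorem pushG (p : ℕ) [Fact p.Prime] (ν : PadicAlgCl p ≃+* ℂ) (Ω : Type)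
    [Field Ω] [CharZero Ω] (L : Type) [Field L] [NumberField L] [IsCMField L] [IsGalois ℚ L]
    (𝒜 : TSys p ν Ω) (j : L →+* ℂ) (jO : L →+* Ω) (E : RedAV p ν) (hE : Big E.X j) (κ : Type) [Finite κ]
    (t : κ → (L ≃ₐ[ℚ] L) → ℤ)
    (hA : QT 𝒜 j jO (κ ⊕ Wt E.X L) (Sum.elim t fun w => tf p ν j (St j w))) :
    QT 𝒜 j jO κ t := by
  intro _ _ Y hY I hI
  classical
  have hfin : Finite (Wt E.X L) := finite_wt j hE
  let _ : Fintype (Wt E.X L) := Fintype.ofFinite _
  obtain ⟨e, he1, he2⟩ := Pool.Agent.W67.TA.basis p ν Ω L j jO E hE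
  have hbig : Big (prodR Y E).X j := by
    rintro (i | i) ψ
    · exact hY i ψ
    · exact hE i ψ
  have hf := hA (prodR Y E) hbig (Sum.elim (fun k => inlW (I k)) (fun w => inrW w)) (by
    rintro (k | w)
    · exact hI k
    · rfl)
  refine 𝒜.push E _ _ ⟨(hQ Y E).baseChange Ω, (hQ' Y E).baseChange Ω, e, frobHom Y E Ω,
    frobHom' Y E Ω, bij Y E Ω, fun v => ?_⟩ hf
  rw [monoO_det, monoO_det]
  have h1 : (Matrix.of fun k l => co jO
      (Sum.elim (fun k => inlW (I k)) (fun w => inrW w) l)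
      (Sum.elim (fun k => (hQ Y E).baseChange Ω (v k))
        (fun k => (hQ' Y E).baseChange Ω (e k)) k)) =
      Matrix.fromBlocks (Matrix.of fun k l => co jO (I l) (v k)) 0 0 1 := by
    ext k l
    rcases k with k | k <;> rcases l with l | l
    · exact co_ll jO (I l) (v k)
    · exact co_rl jO l (v k)
    · exact co_lr jO (I l) _
    · simp only [Matrix.of_apply, Sum.elim_inr, Matrix.fromBlocks_apply₂₂]
      rw [co_rr]
      by_cases hkl : k = l
      · subst hkl
        rw [he1, Matrix.one_apply_eq]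
      · rw [he2 _ _ (fun h => hkl h.symm), Matrix.one_apply_ne hkl]
  rw [h1, Matrix.det_fromBlocks_zero₂₁, Matrix.det_one, mul_one]


/-- Functions of half systems may be removed in pairs. -/
theorem cancelS (𝒜 : TSys p ν Ω) (j : L →+* ℂ) (jO : L →+* Ω) (S : Set (L ≃ₐ[ℚ] L)) (hS : IsHalf S) :
    PairCancel (L ≃ₐ[ℚ] L) (QT 𝒜 j jO) (tf p ν j S) := by
  intro κ _ t hQ
  obtain ⟨a, π, ha, hπ⟩ := Pool.Agent.W902.TB.honda Pool.Agent.W366.TA.val p ν L j S hS
  let x : Fin 1 → Set (L ≃ₐ[ℚ] L) := fun _ => S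
  have hx : ∀ q, IsHalf (x q) := fun _ => hS
  let E : RedAV p ν :=
    { X := prodOf j x hx
      a := a
      pos := ha
      π := fun _ => π
      frob := fun _ => hπ }
  have hE : Big E.X j := by
    intro q ψ
    obtain ⟨τ, hτ⟩ := exists_embC j (x q) ψ
    exact ⟨emb (x q) τ, hτ.symm⟩
  have hfin : Finite (Wt E.X L) := finite_wt j hE
  have hclosed : Closed (L ≃ₐ[ℚ] L) (QT 𝒜 j jO) := closedS 𝒜 j jO
  let w0 : Wt E.X L := wt j x hx 0 1
  have hw0 : St j w0 = S := by
    have h1 : St j w0 = tr 1 (x 0) := St_wt j x hx 0 1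
    rw [h1, tr_one]
  have key := comb hclosed (fun w : Wt E.X L => cc L • w) (fun w => by
      change cc L • cc L • w = w
      rw [← mul_smul, cc_cc, one_smul]) (fun w => cc_ne_wt j E.X w)
    (fun w => tf p ν j (St j w)) (fun w => by
      funext h
      exact tf_cc_wt j E.X w h) w0 κ t
  have h2 := @key (by rw [hw0]; exact @hQ)
  exact @pushG p _ ν Ω _ _ L _ _ _ _ 𝒜 j jO E hE κ _ t @h2


end

section

open Pool.Agent.W351.TA (monoO_apply sum_alt)

/-- From monomials to arbitrary forms. -/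
theorem expandS (jO : L →+* Ω) (Y : RedAV p ν)
    (e : Basis (Wt Y.X L) Ω (TM Ω Y)) (h1 : ∀ w, co jO w (e w) = 1)
    (h0 : ∀ w w', w ≠ w' → co jO w (e w') = 0) (κ : Type) [Fintype κ] [DecidableEq κ]
    (f : (TM Ω Y) [⋀^κ]→ₗ[Ω] Ω)
    (hf : ∀ I : κ → Wt Y.X L, f (fun k => e (I k)) ≠ 0 → 𝒜.A Y κ (monoO jO I)) :
    𝒜.A Y κ f := by
  classical
  haveI : Module.Finite ℚ Y.X.H1 := Module.Finite.pi
  haveI : Finite (Wt Y.X L) := Module.Finite.finite_basis e
  letI : Fintype (Wt Y.X L) := Fintype.ofFinite _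
  have hrep : ∀ w v, e.repr v w = co jO w v := by
    intro w v
    have : (e.coord w) = co jO w := by
      apply e.ext
      intro w'
      rw [Basis.coord_apply, Basis.repr_self]
      by_cases h : w = w'
      · subst h; rw [Finsupp.single_eq_same, h1]
      · rw [Finsupp.single_eq_of_ne h]; exact (h0 w w' h).symm
    rw [← this]; rfl
  have hv : ∀ v, v = ∑ w, co jO w v • e w := by
    intro v
    conv_lhs => rw [← e.sum_repr v]
    exact Finset.sum_congr rfl fun w _ => by rw [hrep]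
  have hfv : ∀ v : κ → TM Ω Y, f v =
      ∑ I : κ → Wt Y.X L, (∏ k, co jO (I k) (v k)) * f (fun k => e (I k)) := by
    intro v
    have h2 : f v = f.toMultilinearMap (fun k => ∑ w, co jO w (v k) • e w) := by
      change f v = f _
      congr 1
      funext k
      exact hv (v k)
    rw [h2, MultilinearMap.map_sum]
    refine Finset.sum_congr rfl fun I _ => ?_
    rw [MultilinearMap.map_smul_univ]
    rfl
  have hsum : ((Fintype.card (Equiv.Perm κ) : ℕ) : Ω) • f =
      ∑ I : κ → Wt Y.X L, f (fun k => e (I k)) • monoO jO I := by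
    ext v
    rw [sum_alt, AlternatingMap.smul_apply, smul_eq_mul]
    have h3 : ∀ σ : Equiv.Perm κ, f v = ((Equiv.Perm.sign σ : ℤ) : Ω) *
        ∑ I : κ → Wt Y.X L, (∏ k, co jO (I k) (v (σ k))) * f (fun k => e (I k)) := by
      intro σ
      rw [← hfv (fun k => v (σ k))]
      have h3 : f (fun k => v (σ k)) = Equiv.Perm.sign σ • f v := f.map_perm v σ
      rw [h3, Units.smul_def, zsmul_eq_mul, ← mul_assoc,
        ← Int.cast_mul, ← Units.val_mul, Int.units_mul_self, Units.val_one, Int.cast_one, one_mul]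
    have h4 : ((Fintype.card (Equiv.Perm κ) : ℕ) : Ω) * f v =
        ∑ σ : Equiv.Perm κ, ((Equiv.Perm.sign σ : ℤ) : Ω) *
          ∑ I : κ → Wt Y.X L, (∏ k, co jO (I k) (v (σ k))) * f (fun k => e (I k)) := by
      rw [← Finset.sum_congr rfl (fun σ _ => h3 σ), Finset.sum_const, Finset.card_univ,
        nsmul_eq_mul]
    rw [h4]
    simp only [Finset.mul_sum]
    rw [Finset.sum_comm]
    refine Finset.sum_congr rfl fun I _ => ?_
    rw [AlternatingMap.smul_apply, smul_eq_mul, monoO_apply, Finset.mul_sum]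
    refine Finset.sum_congr rfl fun σ _ => ?_
    ring
  have h5 : 𝒜.A Y κ (((Fintype.card (Equiv.Perm κ) : ℕ) : Ω) • f) := by
    rw [hsum]
    refine alg_sum _ _ fun I _ => ?_
    by_cases hI : f (fun k => e (I k)) = 0
    · rw [hI, zero_smul]
      exact 𝒜.zero Y κ
    · exact 𝒜.smul _ _ (hf I hI)
  have hne : ((Fintype.card (Equiv.Perm κ) : ℕ) : Ω) ≠ 0 :=
    Nat.cast_ne_zero.2 Fintype.card_ne_zero
  have h6 := 𝒜.smul (((Fintype.card (Equiv.Perm κ) : ℕ) : Ω))⁻¹ _ h5
  rwa [smul_smul, inv_mul_cancel₀ hne, one_smul] at h6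


end

end

end

end Pool.Agent.R937.TZ
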